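import Pool.Agent.helper12.GoDefs

set_option autoImplicit false

namespace Pool.Agent.helper12.Go

open Relation

variable {V : Type} {G : SimpleGraph V}

/-- adjacency inside a string -/
abbrev Same (G : SimpleGraph V) (P : Position V) (a b : V) : Prop := G.Adj a b ∧ P a = P b

theorem Same.symm' {P : Position V} {a b : V} (h : Same G P a b) : Same G P b a :=
  ⟨h.1.symm, h.2.symm⟩

theorem path_symm {P : Position V} {a b : V} (h : ReflTransGen (Same G P) a b) :
    ReflTransGen (Same G P) b a := by
  induction h with
  | refl => exact ReflTransGen.refl
  | tail _ h2 ih => exact ReflTransGen.head h2.symm' ih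

theorem path_colour {P : Position V} {a b : V} (h : ReflTransGen (Same G P) a b) :
    P a = P b := by
  induction h with
  | refl => rfl
  | tail _ h2 ih => exact ih.trans h2.2

theorem hasLiberty_iff {P : Position V} {v : V} :
    HasLiberty G P v ↔ ∃ u w, ReflTransGen (Same G P) v u ∧ G.Adj u w ∧ P w = none := Iff.rfl

theorem HasLiberty.of_path {P : Position V} {a b : V} (h : ReflTransGen (Same G P) a b)
    (hb : HasLiberty G P b) : HasLiberty G P a := by
  obtain ⟨u, w, h1, h2, h3⟩ := hb
  exact ⟨u, w, h.trans h1, h2, h3⟩

theorem HasLiberty.of_adj {P : Position V} {a w : V} (h : G.Adj a w) (hw : P w = none) :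
    HasLiberty G P a := ⟨a, w, ReflTransGen.refl, h, hw⟩

theorem HasLiberty.of_same {P : Position V} {a b : V} (h : Same G P a b)
    (hb : HasLiberty G P b) : HasLiberty G P a :=
  HasLiberty.of_path (ReflTransGen.single h) hb

/-! ### removeDead -/

theorem removeDead_eq_or {c : Bool} {P : Position V} (v : V) :
    removeDead G c P v = none ∨ removeDead G c P v = P v := by
  unfold removeDead
  split_ifs
  · exact Or.inl rfl
  · exact Or.inr rfl

theorem removeDead_of_none {c : Bool} {P : Position V} {v : V} (h : P v = none) :
    removeDead G c P v = none := by
  rcases removeDead_eq_or (G := G) (c := c) (P := P) v with h1 | h1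
  · exact h1
  · exact h1.trans h

theorem removeDead_of_lib {c : Bool} {P : Position V} {v : V} (h : HasLiberty G P v) :
    removeDead G c P v = P v := by
  unfold removeDead
  rw [if_neg]
  exact fun h' => h'.2 h

theorem removeDead_of_ne {c : Bool} {P : Position V} {v : V} (h : P v ≠ some c) :
    removeDead G c P v = P v := by
  unfold removeDead
  rw [if_neg]
  exact fun h' => h h'.1

theorem removeDead_dead {c : Bool} {P : Position V} {v : V} (h : P v = some c)
    (h' : ¬ HasLiberty G P v) : removeDead G c P v = none := by
  unfold removeDead
  rw [if_pos ⟨h, h'⟩]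

/-- a stone of colour `c` surviving `removeDead c` had a liberty -/
theorem lib_of_removeDead {c : Bool} {P : Position V} {v : V}
    (h : removeDead G c P v = some c) : HasLiberty G P v := by
  by_contra h'
  have h1 : P v = some c := by
    rcases removeDead_eq_or (G := G) (c := c) (P := P) v with h2 | h2
    · rw [h2] at h; exact absurd h (by simp)
    · rw [← h2]; exact h
  rw [removeDead_dead h1 h'] at h
  exact absurd h (by simp)

theorem removeDead_path {c : Bool} {P : Position V} {v u : V}
    (h : ReflTransGen (Same G P) v u) (hu : HasLiberty G P u) :
    ReflTransGen (Same G (removeDead G c P)) v u := by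
  induction h using ReflTransGen.head_induction_on with
  | refl => exact ReflTransGen.refl
  | head h1 h2 ih =>
    rename_i a b
    have hb : HasLiberty G P b := HasLiberty.of_path h2 hu
    have ha : HasLiberty G P a := HasLiberty.of_same h1 hb
    refine ReflTransGen.head ⟨h1.1, ?_⟩ ih
    rw [removeDead_of_lib ha, removeDead_of_lib hb]
    exact h1.2

theorem HasLiberty.removeDead {c : Bool} {P : Position V} {v : V} (h : HasLiberty G P v) :
    HasLiberty G (removeDead G c P) v := by
  obtain ⟨u, w, h1, h2, h3⟩ := h
  exact ⟨u, w, removeDead_path h1 (HasLiberty.of_adj h2 h3), h2, removeDead_of_none h3⟩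

theorem removeDead_of_legal {c : Bool} {P : Position V} (h : Legal G P) :
    Go.removeDead G c P = P := by
  funext v
  by_cases hv : P v = none
  · rw [hv]; exact removeDead_of_none hv
  · exact removeDead_of_lib (h v hv)

theorem removeDead_of_legal_colour {c : Bool} {P : Position V}
    (h : ∀ v, P v = some c → HasLiberty G P v) : Go.removeDead G c P = P := by
  funext v
  by_cases hv : P v = some c
  · exact removeDead_of_lib (h v hv)
  · exact removeDead_of_ne hv

/-! ### place -/

theorem bool_eq_or (c d : Bool) : d = c ∨ d = !c := by cases c <;> cases d <;> simp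

theorem place_legal (P : Position V) (c : Bool) (v : V) : Legal G (place G P c v) := by
  classical
  intro u hu
  unfold place at hu ⊢
  set P1 := Function.update P v (some c) with hP1
  have hu' : Go.removeDead G c (Go.removeDead G (!c) (Function.update P v (some c))) u ≠ none := by
    exact hu
  obtain ⟨d, hd⟩ := Option.ne_none_iff_exists'.1 hu'
  have key : HasLiberty G (Go.removeDead G (!c) (Function.update P v (some c))) u := by
    rcases bool_eq_or c d with rfl | rfl
    · exact lib_of_removeDead hd
    · have h2 : Go.removeDead G (!c) (Function.update P v (some c)) u = some (!c) := by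
        rcases removeDead_eq_or (G := G) (c := c)
          (P := Go.removeDead G (!c) (Function.update P v (some c))) u with h3 | h3
        · exact absurd h3 hu'
        · rw [← h3]; exact hd
      exact (lib_of_removeDead h2).removeDead
  exact key.removeDead

theorem update_eq_inst (i1 i2 : DecidableEq V) (P : Position V) (v : V) (x : Option Bool) :
    @Function.update V (fun _ => Option Bool) i1 P v x =
      @Function.update V (fun _ => Option Bool) i2 P v x := by
  have e : i1 = i2 := Subsingleton.elim _ _
  rw [e]

theorem place_eq [DecidableEq V] (P : Position V) (c : Bool) (v : V) :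
    place G P c v = removeDead G c (removeDead G (!c) (Function.update P v (some c))) := by
  unfold place
  rw [update_eq_inst _ (inferInstance : DecidableEq V)]

theorem place_of_legal [DecidableEq V] {P : Position V} {c : Bool} {v : V}
    (h : Legal G (Function.update P v (some c))) :
    place G P c v = Function.update P v (some c) := by
  rw [place_eq, removeDead_of_legal h, removeDead_of_legal h]

/-! ### Sub-positions of a legal position are legal -/

/-- `P` is obtained from `Q` by removing stones -/
def SubPos (P Q : Position V) : Prop := ∀ v, P v = none ∨ P v = Q v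

theorem SubPos.legal {P Q : Position V} (h : SubPos P Q) (hQ : Legal G Q) : Legal G P := by
  intro v hv
  have hv' : P v = Q v := (h v).resolve_left hv
  obtain ⟨u, w, h1, h2, h3⟩ := hQ v (by rw [← hv']; exact hv)
  clear hv'
  induction h1 using ReflTransGen.head_induction_on with
  | refl =>
    refine HasLiberty.of_adj h2 ?_
    rcases h w with h4 | h4
    · exact h4
    · rw [h4]; exact h3
  | head h4 h5 ih =>
    rename_i a b
    by_cases hb : P b = none
    · exact HasLiberty.of_adj h4.1 hb
    · refine HasLiberty.of_same ⟨h4.1, ?_⟩ (ih hb)
      rw [(h a).resolve_left hv, (h b).resolve_left hb]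
      exact h4.2

end Pool.Agent.helper12.Go
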