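import Pool.Agent.helper12.GoSched

set_option autoImplicit false

namespace Pool.Agent.helper12.Go

open Relation

theorem board_adj {n : ℕ} (u v : Fin n × Fin n) : (board n).Adj u v ↔
    (u.1.val = v.1.val ∧ (u.2.val + 1 = v.2.val ∨ v.2.val + 1 = u.2.val)) ∨
    (u.2.val = v.2.val ∧ (u.1.val + 1 = v.1.val ∨ v.1.val + 1 = u.1.val)) := by
  unfold board
  simp only [Fin.ext_iff]

theorem pt_eq {n : ℕ} (u v : Fin n × Fin n) : u = v ↔ u.1.val = v.1.val ∧ u.2.val = v.2.val := by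
  rw [Prod.ext_iff, Fin.ext_iff, Fin.ext_iff]

theorem line_x {w : ℕ} {R : Fin w × Fin w → Fin w × Fin w → Prop} (y : Fin w) (m : ℕ) (hm : m < w) :
    ∀ (n : ℕ) (hn : n < w), m ≤ n →
      (∀ (k : ℕ) (hk : k + 1 < w), m ≤ k → k < n →
        R (⟨k + 1, hk⟩, y) (⟨k, Nat.lt_of_succ_lt hk⟩, y)) →
      ReflTransGen R (⟨n, hn⟩, y) (⟨m, hm⟩, y) := by
  intro n
  induction n with
  | zero =>
    intro hn hmn _
    obtain rfl : m = 0 := by omega
    exact ReflTransGen.refl
  | succ n ih =>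
    intro hn hmn hR
    rcases Nat.lt_or_ge m (n + 1) with h | h
    · refine ReflTransGen.head (hR n hn (by omega) (by omega)) (ih _ (by omega) ?_)
      intro k hk h1 h2
      exact hR k hk h1 (by omega)
    · obtain rfl : m = n + 1 := by omega
      exact ReflTransGen.refl

theorem line_y {w : ℕ} {R : Fin w × Fin w → Fin w × Fin w → Prop} (x : Fin w) (m : ℕ) (hm : m < w) :
    ∀ (n : ℕ) (hn : n < w), m ≤ n →
      (∀ (k : ℕ) (hk : k + 1 < w), m ≤ k → k < n →
        R (x, ⟨k + 1, hk⟩) (x, ⟨k, Nat.lt_of_succ_lt hk⟩)) →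
      ReflTransGen R (x, ⟨n, hn⟩) (x, ⟨m, hm⟩) := by
  intro n
  induction n with
  | zero =>
    intro hn hmn _
    obtain rfl : m = 0 := by omega
    exact ReflTransGen.refl
  | succ n ih =>
    intro hn hmn hR
    rcases Nat.lt_or_ge m (n + 1) with h | h
    · refine ReflTransGen.head (hR n hn (by omega) (by omega)) (ih _ (by omega) ?_)
      intro k hk h1 h2
      exact hR k hk h1 (by omega)
    · obtain rfl : m = n + 1 := by omega
      exact ReflTransGen.refl

/-- the embedding of the content board -/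
def kap (b : ℕ) (d : Fin b × Fin b) : Fin (b + 3) × Fin (b + 3) :=
  (⟨d.1.val + 2, by omega⟩, ⟨d.2.val + 2, by omega⟩)

theorem kap_iff {b : ℕ} (v : Fin (b + 3) × Fin (b + 3)) : (∀ d, kap b d ≠ v) ↔
    ¬ (2 ≤ v.1.val ∧ v.1.val < b + 2 ∧ 2 ≤ v.2.val ∧ v.2.val < b + 2) := by
  constructor
  · intro h ⟨h1, h2, h3, h4⟩
    refine h (⟨v.1.val - 2, by omega⟩, ⟨v.2.val - 2, by omega⟩) ?_
    rw [pt_eq]
    simp only [kap]
    omega
  · rintro h d rfl
    apply h
    simp only [kap]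
    omega

/-- the eye of the cell -/
def eye (b : ℕ) : Fin (b + 3) × Fin (b + 3) := (⟨1, by omega⟩, ⟨1, by omega⟩)

/-- the marker of the cell -/
def mrk (b : ℕ) : Fin (b + 3) × Fin (b + 3) := (⟨0, by omega⟩, ⟨0, by omega⟩)

theorem ne_eye {b : ℕ} (v : Fin (b + 3) × Fin (b + 3)) :
    v ≠ eye b ↔ ¬ (v.1.val = 1 ∧ v.2.val = 1) := by
  rw [Ne, pt_eq]; rfl

theorem ne_mrk {b : ℕ} (v : Fin (b + 3) × Fin (b + 3)) :
    v ≠ mrk b ↔ ¬ (v.1.val = 0 ∧ v.2.val = 0) := by
  rw [Ne, pt_eq]; rfl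

theorem wall_path {b : ℕ} (v : Fin (b + 3) × Fin (b + 3))
    (hv : v ≠ eye b ∧ v ≠ mrk b ∧ ∀ d, kap b d ≠ v) : ∃ u, ReflTransGen (fun a c =>
    (board (b + 3)).Adj a c ∧ (a ≠ eye b ∧ a ≠ mrk b ∧ ∀ d, kap b d ≠ a) ∧
      (c ≠ eye b ∧ c ≠ mrk b ∧ ∀ d, kap b d ≠ c)) v u ∧ (board (b + 3)).Adj u (eye b) := by
  have hcol : ∀ (x : ℕ) (hx : x < b + 3), 1 ≤ x → ∃ u, ReflTransGen (fun a c =>
      (board (b + 3)).Adj a c ∧ (a ≠ eye b ∧ a ≠ mrk b ∧ ∀ d, kap b d ≠ a) ∧
      (c ≠ eye b ∧ c ≠ mrk b ∧ ∀ d, kap b d ≠ c)) (⟨x, hx⟩, ⟨0, by omega⟩) u ∧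
      (board (b + 3)).Adj u (eye b) := by
    intro x hx h1
    refine ⟨(⟨1, by omega⟩, ⟨0, by omega⟩), ?_, ?_⟩
    · refine line_x _ 1 (by omega) x hx h1 ?_
      intro k hk h2 h3
      simp only [board_adj, ne_eye, ne_mrk, kap_iff]
      grind
    · simp only [board_adj, eye]; grind
  have hrow : ∀ (x : ℕ) (hx : x < b + 3), 1 ≤ x → ∃ u, ReflTransGen (fun a c =>
      (board (b + 3)).Adj a c ∧ (a ≠ eye b ∧ a ≠ mrk b ∧ ∀ d, kap b d ≠ a) ∧
      (c ≠ eye b ∧ c ≠ mrk b ∧ ∀ d, kap b d ≠ c)) (⟨0, by omega⟩, ⟨x, hx⟩) u ∧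
      (board (b + 3)).Adj u (eye b) := by
    intro x hx h1
    refine ⟨(⟨0, by omega⟩, ⟨1, by omega⟩), ?_, ?_⟩
    · refine line_y _ 1 (by omega) x hx h1 ?_
      intro k hk h2 h3
      simp only [board_adj, ne_eye, ne_mrk, kap_iff]
      grind
    · simp only [board_adj, eye]; grind
  obtain ⟨⟨x, hx⟩, ⟨y, hy⟩⟩ := v
  simp only [ne_eye, ne_mrk, kap_iff] at hv
  by_cases c1 : x = 0
  · subst c1
    exact hrow y hy (by omega)
  by_cases c2 : y = 0
  · subst c2
    exact hcol x hx (by omega)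
  by_cases c3 : x = 1
  · subst c3
    refine ⟨(⟨1, by omega⟩, ⟨2, by omega⟩), ?_, ?_⟩
    · refine line_y _ 2 (by omega) y hy (by omega) ?_
      intro k hk h2 h3
      simp only [board_adj, ne_eye, ne_mrk, kap_iff]
      grind
    · simp only [board_adj, eye]; grind
  by_cases c4 : y = 1
  · subst c4
    refine ⟨(⟨2, by omega⟩, ⟨1, by omega⟩), ?_, ?_⟩
    · refine line_x _ 2 (by omega) x hx (by omega) ?_
      intro k hk h2 h3
      simp only [board_adj, ne_eye, ne_mrk, kap_iff]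
      grind
    · simp only [board_adj, eye]; grind
  by_cases c5 : x = b + 2
  · subst c5
    obtain ⟨u, h1, h2⟩ := hcol (b + 2) hx (by omega)
    refine ⟨u, ReflTransGen.trans ?_ h1, h2⟩
    refine line_y _ 0 (by omega) y hy (by omega) ?_
    intro k hk h2 h3
    simp only [board_adj, ne_eye, ne_mrk, kap_iff]
    grind
  · have c6 : y = b + 2 := by omega
    subst c6
    obtain ⟨u, h1, h2⟩ := hrow (b + 2) hy (by omega)
    refine ⟨u, ReflTransGen.trans ?_ h1, h2⟩
    refine line_x _ 0 (by omega) x hx (by omega) ?_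
    intro k hk h2 h3
    simp only [board_adj, ne_eye, ne_mrk, kap_iff]
    grind

theorem free_path {b : ℕ} (v : Fin (b + 3) × Fin (b + 3)) (hv : v ≠ eye b) :
    ReflTransGen (fun a c => (board (b + 3)).Adj a c ∧ a ≠ eye b ∧ c ≠ eye b) v (mrk b) := by
  have hcol : ∀ (x : ℕ) (hx : x < b + 3), ReflTransGen (fun a c => (board (b + 3)).Adj a c ∧
      a ≠ eye b ∧ c ≠ eye b) (⟨x, hx⟩, ⟨0, by omega⟩) (mrk b) := by
    intro x hx
    refine line_x _ 0 (by omega) x hx (by omega) ?_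
    intro k hk h2 h3
    simp only [board_adj, ne_eye]
    grind
  obtain ⟨⟨x, hx⟩, ⟨y, hy⟩⟩ := v
  simp only [ne_eye] at hv
  by_cases c1 : x = 1
  · subst c1
    refine ReflTransGen.head (b := (⟨0, by omega⟩, ⟨y, hy⟩)) ?_ ?_
    · simp only [board_adj, ne_eye]
      grind
    · refine ReflTransGen.trans ?_ (hcol 0 (by omega))
      refine line_y _ 0 (by omega) y hy (by omega) ?_
      intro k hk h2 h3
      simp only [board_adj, ne_eye]
      grind
  · refine ReflTransGen.trans ?_ (hcol x hx)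
    refine line_y _ 0 (by omega) y hy (by omega) ?_
    intro k hk h2 h3
    simp only [board_adj, ne_eye]
    grind

/-- The cell with content board of side `b`. -/
def boardCell (b : ℕ) (hb : 1 ≤ b) :
    CellData (Fin b × Fin b) (Fin (b + 3) × Fin (b + 3)) where
  K := board b
  H := board (b + 3)
  κ := kap b
  p := eye b
  m := mrk b
  bdry v := v.1.val = 0 ∨ v.2.val = 0 ∨ v.1.val = b + 2 ∨ v.2.val = b + 2
  κ_inj := by
    intro d d' h
    rw [pt_eq] at h ⊢
    simp only [kap] at h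
    omega
  κ_adj := by
    intro a c h
    rw [board_adj] at h ⊢
    simp only [kap]
    omega
  κ_p := by
    intro d
    rw [ne_eye]
    simp only [kap]
    omega
  κ_m := by
    intro d
    rw [ne_mrk]
    simp only [kap]
    omega
  p_ne_m := by
    rw [ne_mrk]
    simp only [eye]
    grind
  nbr_wall := by
    intro u hu
    rw [kap_iff, ne_mrk]
    rw [board_adj] at hu
    simp only [eye] at hu
    omega
  nbr_ne := by
    refine ⟨(⟨0, by omega⟩, ⟨1, by omega⟩), ?_⟩
    rw [board_adj]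
    simp only [eye]
    grind
  wall_conn := wall_path
  m_adj := by
    refine ⟨(⟨0, by omega⟩, ⟨1, by omega⟩), ?_, ?_⟩
    · rw [kap_iff, ne_mrk, ne_eye]
      simp only
      grind
    · rw [board_adj]
      simp only [mrk]
      grind
  conn := by
    intro A hne hpA hcl u hu
    obtain ⟨a, ha⟩ := hne
    have hae : a ≠ eye b := fun h => hpA (h ▸ ha)
    have key : ∀ x z, x ∈ A → ReflTransGen (fun a c => (board (b + 3)).Adj a c ∧
        a ≠ eye b ∧ c ≠ eye b) x z → z ∈ A := by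
      intro x z hx h
      induction h with
      | refl => exact hx
      | tail _ h2 ih => exact hcl _ ih _ h2.1 h2.2.2
    have h1 := key a _ ha (free_path a hae)
    refine key _ _ h1 ?_
    have h2 := free_path u hu
    clear h1 key hae ha a hu
    induction h2 using ReflTransGen.head_induction_on with
    | refl => exact ReflTransGen.refl
    | head h3 _ ih => exact ih.tail ⟨h3.1.symm, h3.2.2, h3.2.1⟩
  nbr_free := by
    intro u hu
    rw [board_adj] at hu
    simp only [eye] at hu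
    have : (u.1.val = 0 ∧ u.2.val = 1) ∨ (u.1.val = 1 ∧ u.2.val = 0) ∨
      (u.1.val = 2 ∧ u.2.val = 1) ∨ (u.1.val = 1 ∧ u.2.val = 2) := by omega
    rcases this with h | h | h | h
    · refine ⟨(⟨0, by omega⟩, ⟨0, by omega⟩), ?_, ?_, ?_⟩
      · rw [board_adj]; simp only; omega
      · rw [ne_eye]; simp only; omega
      · rw [board_adj]; simp only [eye]; omega
    · refine ⟨(⟨0, by omega⟩, ⟨0, by omega⟩), ?_, ?_, ?_⟩
      · rw [board_adj]; simp only; omega
      · rw [ne_eye]; simp only; omega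
      · rw [board_adj]; simp only [eye]; omega
    · refine ⟨(⟨2, by omega⟩, ⟨0, by omega⟩), ?_, ?_, ?_⟩
      · rw [board_adj]; simp only; omega
      · rw [ne_eye]; simp only; omega
      · rw [board_adj]; simp only [eye]; omega
    · refine ⟨(⟨0, by omega⟩, ⟨2, by omega⟩), ?_, ?_, ?_⟩
      · rw [board_adj]; simp only; omega
      · rw [ne_eye]; simp only; omega
      · rw [board_adj]; simp only [eye]; omega
  bdry_wall := by
    intro v hv
    rw [kap_iff, ne_eye]
    omega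
  a := (⟨2, by omega⟩, ⟨0, by omega⟩)
  b := (⟨3, by omega⟩, ⟨0, by omega⟩)
  z := (⟨0, by omega⟩, ⟨2, by omega⟩)
  ha := by
    rw [kap_iff, ne_mrk, ne_eye, board_adj]
    simp only [eye]
    omega
  hb := by
    rw [kap_iff, ne_mrk, ne_eye, board_adj]
    simp only [eye]
    omega
  hz := by
    rw [kap_iff, ne_mrk, ne_eye, board_adj]
    simp only [eye]
    omega
  hab := by
    rw [Ne, pt_eq]
    simp only
    omega
  haz := by
    rw [Ne, pt_eq]
    simp only
    omega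
  hbz := by
    rw [Ne, pt_eq]
    simp only
    omega

end Pool.Agent.helper12.Go
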