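import Pool.Agent.helper12.GoClear

set_option autoImplicit false

namespace Pool.Agent.helper12.Go

open Relation

/-- A cell: content graph `K` on `D`, embedded by `κ` in the cell graph `H` on `C`; `p` is the
eye, `m` the marker, the other points are the wall. -/
structure CellData (D C : Type) where
  K : SimpleGraph D
  H : SimpleGraph C
  κ : D → C
  p : C
  m : C
  bdry : C → Prop
  κ_inj : Function.Injective κ
  κ_adj : ∀ a b, K.Adj a b → H.Adj (κ a) (κ b)
  κ_p : ∀ d, κ d ≠ p
  κ_m : ∀ d, κ d ≠ m
  p_ne_m : p ≠ m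
  nbr_wall : ∀ u, H.Adj u p → u ≠ m ∧ ∀ d, κ d ≠ u
  nbr_ne : ∃ u, H.Adj u p
  wall_conn : ∀ v, (v ≠ p ∧ v ≠ m ∧ ∀ d, κ d ≠ v) → ∃ u, ReflTransGen (fun a b => H.Adj a b ∧
    (a ≠ p ∧ a ≠ m ∧ ∀ d, κ d ≠ a) ∧ (b ≠ p ∧ b ≠ m ∧ ∀ d, κ d ≠ b)) v u ∧ H.Adj u p
  m_adj : ∃ u, (u ≠ p ∧ u ≠ m ∧ ∀ d, κ d ≠ u) ∧ H.Adj m u
  conn : ∀ A : Set C, A.Nonempty → p ∉ A → (∀ a ∈ A, ∀ u, H.Adj a u → u ≠ p → u ∈ A) →
    ∀ u, u ≠ p → u ∈ A
  nbr_free : ∀ u, H.Adj u p → ∃ z, H.Adj u z ∧ z ≠ p ∧ ¬ H.Adj z p
  bdry_wall : ∀ v, bdry v → v ≠ p ∧ ∀ d, κ d ≠ v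
  a : C
  b : C
  z : C
  ha : (a ≠ p ∧ a ≠ m ∧ ∀ d, κ d ≠ a) ∧ ¬ H.Adj a p
  hb : (b ≠ p ∧ b ≠ m ∧ ∀ d, κ d ≠ b) ∧ ¬ H.Adj b p
  hz : (z ≠ p ∧ z ≠ m ∧ ∀ d, κ d ≠ z) ∧ ¬ H.Adj z p
  hab : a ≠ b
  haz : a ≠ z
  hbz : b ≠ z

namespace CellData

variable {D C : Type} (X : CellData D C)

/-- wall points -/
def Wall (v : C) : Prop := v ≠ X.p ∧ v ≠ X.m ∧ ∀ d, X.κ d ≠ v

open Classical in
/-- the state of a cell storing the content `y` -/
noncomputable def word (y : Position D) : Position C := fun v =>
  if h : ∃ d, X.κ d = v then y h.choose else if v = X.p ∨ v = X.m then none else some false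

theorem word_κ (y : Position D) (d : D) : X.word y (X.κ d) = y d := by
  have h : ∃ d', X.κ d' = X.κ d := ⟨d, rfl⟩
  unfold word
  rw [dif_pos h, X.κ_inj h.choose_spec]

theorem word_p (y : Position D) : X.word y X.p = none := by
  unfold word
  rw [dif_neg (by rintro ⟨d, hd⟩; exact X.κ_p d hd), if_pos (Or.inl rfl)]

theorem word_m (y : Position D) : X.word y X.m = none := by
  unfold word
  rw [dif_neg (by rintro ⟨d, hd⟩; exact X.κ_m d hd), if_pos (Or.inr rfl)]

theorem word_wall (y : Position D) {v : C} (h : X.Wall v) : X.word y v = some false := by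
  unfold word
  rw [dif_neg (by rintro ⟨d, hd⟩; exact h.2.2 d hd), if_neg]
  rintro (h1 | h1)
  · exact h.1 h1
  · exact h.2.1 h1

theorem cases_pt (v : C) : (∃ d, X.κ d = v) ∨ v = X.p ∨ v = X.m ∨ X.Wall v := by
  by_cases h1 : ∃ d, X.κ d = v
  · exact Or.inl h1
  · by_cases h2 : v = X.p
    · exact Or.inr (Or.inl h2)
    · by_cases h3 : v = X.m
      · exact Or.inr (Or.inr (Or.inl h3))
      · exact Or.inr (Or.inr (Or.inr ⟨h2, h3, fun d hd => h1 ⟨d, hd⟩⟩))

theorem word_injective : Function.Injective X.word := by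
  intro y y' h
  funext d
  rw [← X.word_κ y d, ← X.word_κ y' d, h]

theorem nbr_isWall {u : C} (h : X.H.Adj u X.p) : X.Wall u :=
  ⟨X.H.ne_of_adj h, (X.nbr_wall u h).1, (X.nbr_wall u h).2⟩

/-- a position whose wall is white -/
theorem wall_anch {P : Position C} (hw : ∀ v, X.Wall v → P v = some false) {v : C}
    (hv : X.Wall v) : Anch X.H X.p P v := by
  obtain ⟨u, h1, h2⟩ := X.wall_conn v hv
  refine ⟨hw v hv, u, rtg_mono ?_ h1, h2⟩
  rintro a b ⟨h3, h4, h5⟩
  exact ⟨h3, by rw [hw a h4, hw b h5]⟩

theorem m_anch {P : Position C} (hw : ∀ v, X.Wall v → P v = some false)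
    (hm : P X.m = some false) : Anch X.H X.p P X.m := by
  obtain ⟨u, h1, h2⟩ := X.m_adj
  obtain ⟨h3, w, h4, h5⟩ := X.wall_anch hw h1
  exact ⟨hm, w, ReflTransGen.head ⟨h2, by rw [hm, h3]⟩ h4, h5⟩

theorem legal_of {y : Position D} (hy : Legal X.K y) {P : Position C}
    (hκ : ∀ d, P (X.κ d) = y d) (hw : ∀ v, X.Wall v → P v = some false) (hp : P X.p = none)
    (hm : P X.m = none ∨ P X.m = some false) : Legal X.H P := by
  intro v hv
  rcases X.cases_pt v with ⟨d, rfl⟩ | rfl | rfl | h
  · rw [hκ] at hv
    obtain ⟨u, w, h1, h2, h3⟩ := hy d hv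
    refine ⟨X.κ u, X.κ w, ?_, X.κ_adj _ _ h2, by rw [hκ]; exact h3⟩
    clear h2 h3 hv
    induction h1 with
    | refl => exact ReflTransGen.refl
    | tail _ h5 ih => exact ih.tail ⟨X.κ_adj _ _ h5.1, by rw [hκ, hκ]; exact h5.2⟩
  · exact absurd hp hv
  · exact (X.m_anch hw (hm.resolve_left hv)).lib hp
  · exact (X.wall_anch hw h).lib hp

theorem word_legal {y : Position D} (hy : Legal X.K y) : Legal X.H (X.word y) :=
  X.legal_of hy (X.word_κ y) (fun _ h => X.word_wall y h) (X.word_p y) (Or.inl (X.word_m y))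

/-! ### The pieces of a transition -/

open Classical in
/-- only the eye is black -/
noncomputable def E0 : Position C := fun v => if v = X.p then some true else none

open Classical in
noncomputable def E3 (a0 : C) : Position C := fun v =>
  if v = X.p then some true else if X.H.Adj v X.p ∧ v ≠ a0 then some false else none

open Classical in
noncomputable def E4 : Position C := fun v => if X.H.Adj v X.p then some false else none

theorem E0_p : X.E0 X.p = some true := by simp [E0]
theorem E0_of_ne {v : C} (h : v ≠ X.p) : X.E0 v = none := by simp [E0, h]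

theorem E0_legal : Legal X.H X.E0 := by
  intro v hv
  by_cases h : v = X.p
  · subst h
    obtain ⟨u, hu⟩ := X.nbr_ne
    exact HasLiberty.of_adj hu.symm (X.E0_of_ne (X.H.ne_of_adj hu))
  · exact absurd (X.E0_of_ne h) hv

theorem place_allWhite [DecidableEq C] :
    place X.H (allWhite X.p) true X.p = X.E0 := by
  rw [place_eq]
  have hfull : ∀ v, Function.update (allWhite X.p) X.p (some true) v ≠ none := by
    intro v
    by_cases h : v = X.p
    · subst h; simp
    · rw [Function.update_of_ne h]; simp [allWhite, h]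
  have h1 : removeDead X.H (!true) (Function.update (allWhite X.p) X.p (some true)) = X.E0 := by
    funext v
    by_cases h : v = X.p
    · subst h
      rw [removeDead_of_ne (by simp)]
      simp [E0]
    · rw [X.E0_of_ne h]
      apply removeDead_dead
      · rw [Function.update_of_ne h]; simp [allWhite, h]
      · rintro ⟨u, w, -, -, h3⟩
        exact hfull w h3
  rw [h1, removeDead_of_legal X.E0_legal]

theorem E3_p (a0 : C) : X.E3 a0 X.p = some true := by simp [E3]
theorem E3_nbr {a0 v : C} (h : X.H.Adj v X.p) (h' : v ≠ a0) : X.E3 a0 v = some false := by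
  have : v ≠ X.p := X.H.ne_of_adj h
  simp [E3, this, h, h']
theorem E3_none {a0 v : C} (h : v ≠ X.p) (h' : ¬ (X.H.Adj v X.p ∧ v ≠ a0)) :
    X.E3 a0 v = none := by
  unfold E3
  rw [if_neg h, if_neg h']

theorem E3_legal {a0 : C} (ha0 : X.H.Adj a0 X.p) : Legal X.H (X.E3 a0) := by
  intro v hv
  by_cases h : v = X.p
  · subst h
    exact HasLiberty.of_adj ha0.symm (X.E3_none (X.H.ne_of_adj ha0) (fun h => h.2 rfl))
  · by_cases h' : X.H.Adj v X.p ∧ v ≠ a0
    · obtain ⟨w, h1, h2, h3⟩ := X.nbr_free v h'.1
      exact HasLiberty.of_adj h1 (X.E3_none h2 (fun h => h3 h.1))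
    · exact absurd (X.E3_none h h') hv

theorem E4_nbr {v : C} (h : X.H.Adj v X.p) : X.E4 v = some false := by simp [E4, h]
theorem E4_none {v : C} (h : ¬ X.H.Adj v X.p) : X.E4 v = none := by simp [E4, h]

theorem E4_legal : Legal X.H X.E4 := by
  intro v hv
  by_cases h : X.H.Adj v X.p
  · exact HasLiberty.of_adj h (X.E4_none (X.H.loopless.irrefl _))
  · exact absurd (X.E4_none h) hv

theorem place_E3 {a0 : C} (ha0 : X.H.Adj a0 X.p) : place X.H (X.E3 a0) false a0 = X.E4 := by
  classical
  rw [place_eq]
  have hap : a0 ≠ X.p := X.H.ne_of_adj ha0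
  set F := Function.update (X.E3 a0) a0 (some false) with hF
  have hFn : ∀ v, X.H.Adj v X.p → F v = some false := by
    intro v hv
    by_cases h : v = a0
    · subst h; simp [hF]
    · rw [hF, Function.update_of_ne h]; exact X.E3_nbr hv h
  have hFp : F X.p = some true := by
    rw [hF, Function.update_of_ne hap.symm]; exact X.E3_p a0
  have hFo : ∀ v, v ≠ X.p → ¬ X.H.Adj v X.p → F v = none := by
    intro v h1 h2
    have h3 : v ≠ a0 := by rintro rfl; exact h2 ha0
    rw [hF, Function.update_of_ne h3]
    exact X.E3_none h1 (fun h => h2 h.1)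
  have h1 : removeDead X.H (!false) F = X.E4 := by
    funext v
    by_cases h : v = X.p
    · subst h
      rw [X.E4_none (X.H.loopless.irrefl _)]
      apply removeDead_dead hFp
      rintro ⟨u, w, h2, h3, h4⟩
      have hu : u = X.p := by
        rcases ReflTransGen.cases_head h2 with h5 | ⟨c, h5, -⟩
        · exact h5.symm
        · have := h5.2
          rw [hFp, hFn c h5.1.symm] at this
          exact absurd this (by simp)
      subst hu
      rw [hFn w h3.symm] at h4
      exact absurd h4 (by simp)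
    · by_cases h' : X.H.Adj v X.p
      · rw [X.E4_nbr h', removeDead_of_ne (by rw [hFn v h']; simp), hFn v h']
      · rw [X.E4_none h']
        exact removeDead_of_none (hFo v h h')
  rw [h1, removeDead_of_legal X.E4_legal]

/-- from the position with a black stone at the eye to the position with white neighbours only -/
theorem seg3 [Fintype C] : ∃ l, Ok X.H X.E0 l ∧ final X.H X.E0 l = X.E4 ∧
    (X.E0 :: trace X.H X.E0 l).Nodup ∧ (∀ mv ∈ l, mv.1 = false) ∧
    ∃ l', trace X.H X.E0 l = l' ++ [X.E4] ∧
      ∀ S ∈ X.E0 :: l', S X.p = some true ∧ S X.m = none := by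
  classical
  obtain ⟨a0, ha0⟩ := X.nbr_ne
  let vs : List C := (Finset.univ.filter (fun v => X.H.Adj v X.p ∧ v ≠ a0)).toList
  have hvs : ∀ v, v ∈ vs ↔ X.H.Adj v X.p ∧ v ≠ a0 := by
    intro v; simp [vs]
  have hsub : SubPos X.E0 (X.E3 a0) := by
    intro v
    by_cases h : v = X.p
    · right; rw [h, X.E0_p, X.E3_p]
    · left; exact X.E0_of_ne h
  obtain ⟨h1, h2, h3, h4⟩ := fill_spec (X.E3_legal ha0) vs X.E0 hsub
    (Finset.nodup_toList _) (by
      intro v hv
      rw [hvs] at hv
      refine ⟨X.E0_of_ne (X.H.ne_of_adj hv.1), ?_⟩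
      rw [X.E3_nbr hv.1 hv.2]; simp)
  have h5 : final X.H X.E0 (fillMoves (X.E3 a0) vs) = X.E3 a0 := by
    rw [h2]
    funext v
    by_cases h : v ∈ vs
    · simp [h]
    · rw [if_neg h]
      by_cases h' : v = X.p
      · rw [h', X.E0_p, X.E3_p]
      · rw [X.E0_of_ne h', X.E3_none h' (fun h'' => h ((hvs v).2 h''))]
  have htr : ∀ S ∈ X.E0 :: trace X.H X.E0 (fillMoves (X.E3 a0) vs),
      S X.p = some true ∧ S X.m = none := by
    intro S hS
    rcases List.mem_cons.1 hS with rfl | hS
    · exact ⟨X.E0_p, X.E0_of_ne X.p_ne_m.symm⟩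
    · obtain ⟨-, -, h6⟩ := h4 S hS
      refine ⟨?_, ?_⟩
      · rw [h6 X.p, X.E0_p]
        rw [hvs]
        exact fun h => X.H.loopless.irrefl _ h.1
      · rw [h6 X.m, X.E0_of_ne X.p_ne_m.symm]
        rw [hvs]
        exact fun h => (X.nbr_wall X.m h.1).1 rfl
  refine ⟨fillMoves (X.E3 a0) vs ++ [(false, a0)], ?_, ?_, ?_, ?_, _, ?_, htr⟩
  · rw [ok_append, h5]
    exact ⟨h1, X.E3_none (X.H.ne_of_adj ha0) (fun h => h.2 rfl), trivial⟩
  · rw [final_append, h5]
    simp [X.place_E3 ha0]
  · rw [trace_append, h5]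
    simp only [trace_cons, trace_nil, X.place_E3 ha0]
    rw [← List.cons_append, List.nodup_append]
    refine ⟨h3, by simp, ?_⟩
    intro S hS T hT h
    rw [List.mem_singleton.1 hT] at h
    have := (htr S hS).1
    rw [h, X.E4_none (X.H.loopless.irrefl _)] at this
    exact absurd this (by simp)
  · intro mv hmv
    rcases List.mem_append.1 hmv with h | h
    · obtain ⟨v, hv, rfl⟩ := List.mem_map.1 h
      rw [hvs] at hv
      simp [X.E3_nbr hv.1 hv.2]
    · rw [List.mem_singleton.1 h]
  · rw [trace_append, h5]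
    simp [X.place_E3 ha0]

/-- a list of points with a given beginning used to rebuild a word -/
theorem seg5 [Fintype C] {y : Position D} (hy : Legal X.K y) :
    ∃ rest : List C, ∀ s : List C, (s = [X.a, X.b] ∨ s = [X.b, X.a]) →
      Ok X.H X.E4 (fillMoves (X.word y) (s ++ rest) ++ [(false, X.z)]) ∧
      final X.H X.E4 (fillMoves (X.word y) (s ++ rest) ++ [(false, X.z)]) = X.word y ∧
      (X.E4 :: trace X.H X.E4 (fillMoves (X.word y) (s ++ rest))).Nodup ∧
      trace X.H X.E4 (fillMoves (X.word y) (s ++ rest) ++ [(false, X.z)]) =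
        trace X.H X.E4 (fillMoves (X.word y) (s ++ rest)) ++ [X.word y] ∧
      (∀ S ∈ X.E4 :: trace X.H X.E4 (fillMoves (X.word y) (s ++ rest)),
        S X.p = none ∧ S X.m = none ∧ S X.z = none) := by
  classical
  let rest : List C := (Finset.univ.filter (fun v => X.word y v ≠ none ∧ ¬ X.H.Adj v X.p ∧
    v ≠ X.a ∧ v ≠ X.b ∧ v ≠ X.z)).toList
  have hrest : ∀ v, v ∈ rest ↔ X.word y v ≠ none ∧ ¬ X.H.Adj v X.p ∧
      v ≠ X.a ∧ v ≠ X.b ∧ v ≠ X.z := by
    intro v; simp [rest]
  refine ⟨rest, ?_⟩
  intro s hs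
  have hab := X.hab
  have hmem : ∀ v, v ∈ s ++ rest ↔ (v = X.a ∨ v = X.b ∨ v ∈ rest) := by
    intro v
    rcases hs with rfl | rfl
    · simp
    · simp; tauto
  have hmem' : ∀ v, v ∈ s ++ rest ↔ (X.word y v ≠ none ∧ ¬ X.H.Adj v X.p ∧ v ≠ X.z) := by
    intro v
    rw [hmem, hrest]
    constructor
    · rintro (rfl | rfl | h)
      · exact ⟨by rw [X.word_wall y X.ha.1]; simp, X.ha.2, X.haz⟩
      · exact ⟨by rw [X.word_wall y X.hb.1]; simp, X.hb.2, X.hbz⟩
      · exact ⟨h.1, h.2.1, h.2.2.2.2⟩
    · rintro ⟨h1, h2, h3⟩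
      by_cases h4 : v = X.a
      · exact Or.inl h4
      · by_cases h5 : v = X.b
        · exact Or.inr (Or.inl h5)
        · exact Or.inr (Or.inr ⟨h1, h2, h4, h5, h3⟩)
  have hnd : (s ++ rest).Nodup := by
    have hr : rest.Nodup := Finset.nodup_toList _
    have h1 : X.a ∉ rest := fun h => ((hrest _).1 h).2.2.1 rfl
    have h2 : X.b ∉ rest := fun h => ((hrest _).1 h).2.2.2.1 rfl
    rcases hs with rfl | rfl
    · simp [hr, h1, h2, hab]
    · simp [hr, h1, h2, hab.symm]
  have hsub : SubPos X.E4 (X.word y) := by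
    intro v
    by_cases h : X.H.Adj v X.p
    · right; rw [X.E4_nbr h, X.word_wall y (X.nbr_isWall h)]
    · left; exact X.E4_none h
  obtain ⟨h1, h2, h3, h4⟩ := fill_spec (X.word_legal hy) (s ++ rest) X.E4 hsub hnd (by
    intro v hv
    rw [hmem'] at hv
    exact ⟨X.E4_none hv.2.1, hv.1⟩)
  have hzn : X.z ∉ s ++ rest := by
    rw [hmem']
    exact fun h => h.2.2 rfl
  have hfz : final X.H X.E4 (fillMoves (X.word y) (s ++ rest)) X.z = none := by
    rw [h2]
    simp only [if_neg hzn]
    exact X.E4_none X.hz.2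
  have hupd : Function.update (final X.H X.E4 (fillMoves (X.word y) (s ++ rest))) X.z
      (some false) = X.word y := by
    funext v
    by_cases hv : v = X.z
    · subst hv
      simp [X.word_wall y X.hz.1]
    · rw [Function.update_of_ne hv, h2]
      by_cases h5 : v ∈ s ++ rest
      · simp only [if_pos h5]
      · simp only [if_neg h5]
        by_cases h6 : X.H.Adj v X.p
        · rw [X.E4_nbr h6, X.word_wall y (X.nbr_isWall h6)]
        · rw [X.E4_none h6]
          by_contra h7
          exact h5 ((hmem' v).2 ⟨fun h => h7 h.symm, h6, hv⟩)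
  have hpl : place X.H (final X.H X.E4 (fillMoves (X.word y) (s ++ rest))) false X.z
      = X.word y := by
    rw [place_of_legal (by rw [hupd]; exact X.word_legal hy), hupd]
  refine ⟨?_, ?_, h3, ?_, ?_⟩
  · rw [ok_append]
    exact ⟨h1, hfz, trivial⟩
  · rw [final_append]
    simp [hpl]
  · rw [trace_append]
    simp [hpl]
  · intro S hS
    rcases List.mem_cons.1 hS with rfl | hS
    · exact ⟨X.E4_none (X.H.loopless.irrefl _), X.E4_none (fun h => (X.nbr_wall _ h).1 rfl),
        X.E4_none X.hz.2⟩
    · obtain ⟨-, -, h6⟩ := h4 S hS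
      refine ⟨?_, ?_, ?_⟩
      · rw [h6 X.p (by rw [hmem']; exact fun h => h.1 (X.word_p y))]
        exact X.E4_none (X.H.loopless.irrefl _)
      · rw [h6 X.m (by rw [hmem']; exact fun h => h.1 (X.word_m y))]
        exact X.E4_none (fun h => (X.nbr_wall _ h).1 rfl)
      · rw [h6 X.z hzn]
        exact X.E4_none X.hz.2

theorem trace_reach {G : SimpleGraph C} {p : C} (l : List (Bool × C)) (P : Position C)
    (hok : Ok G P l) (hl : ∀ mv ∈ l, mv.2 ≠ p) :
    ∀ S ∈ trace G P l, ReflTransGen (Mv G p) P S := by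
  induction l generalizing P with
  | nil => intro S hS; simp at hS
  | cons mv l ih =>
    intro S hS
    have h1 : Mv G p P (place G P mv.1 mv.2) := ⟨mv.1, mv.2, hl mv (by simp), hok.1, rfl⟩
    rcases List.mem_cons.1 hS with rfl | hS
    · exact ReflTransGen.single h1
    · exact ReflTransGen.head h1 (ih _ hok.2 (fun mv' h => hl mv' (List.mem_cons_of_mem _ h)) S hS)

/-- Phase 1: fill the marker and turn every point but the eye white. -/
theorem seg1 [Fintype C] [DecidableEq C] {y : Position D} (hy : Legal X.K y) :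
    ∃ l P, place X.H (X.word y) false X.m = P ∧ Ok X.H P l ∧
      final X.H P l = allWhite X.p ∧ (P :: trace X.H P l).Nodup ∧
      (∀ mv ∈ l, ¬ X.bdry mv.2) ∧ (∀ S ∈ P :: trace X.H P l, S X.m = some false) := by
  set P := Function.update (X.word y) X.m (some false) with hP
  have hPw : ∀ v, X.Wall v → P v = some false := by
    intro v hv
    rw [hP, Function.update_of_ne hv.2.1]
    exact X.word_wall y hv
  have hPp : P X.p = none := by
    rw [hP, Function.update_of_ne X.p_ne_m]; exact X.word_p y
  have hPm : P X.m = some false := by simp [hP]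
  have hPleg : Legal X.H P := by
    refine X.legal_of hy ?_ hPw hPp (Or.inr hPm)
    intro d
    rw [hP, Function.update_of_ne (X.κ_m d), X.word_κ]
  have hpl : place X.H (X.word y) false X.m = P := place_of_legal hPleg
  have hcl : ReflTransGen (Mv X.H X.p) P (allWhite X.p) :=
    clear X.conn hPleg hPp (fun u hu => hPw u (X.nbr_isWall hu)) X.nbr_ne
  have hcl' : ReflTransGen (fun A B => ∃ c v, (v ≠ X.p ∧ ¬ X.bdry v) ∧ A v = none ∧
      B = place X.H A c v) P (allWhite X.p) := by
    have hgen : ∀ Q, ReflTransGen (Mv X.H X.p) P Q → ReflTransGen (fun A B => ∃ c v,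
        (v ≠ X.p ∧ ¬ X.bdry v) ∧ A v = none ∧ B = place X.H A c v) P Q := by
      intro Q hQ
      induction hQ with
      | refl => exact ReflTransGen.refl
      | tail h1 h2 ih =>
        refine ih.tail ?_
        obtain ⟨c, v, h3, h4, h5⟩ := h2
        refine ⟨c, v, ⟨h3, ?_⟩, h4, h5⟩
        intro hb
        obtain ⟨-, -, h6⟩ := reach_inv h1 hPleg hPp
        obtain ⟨h7, h8⟩ := X.bdry_wall v hb
        have h9 : Anch X.H X.p P v := by
          by_cases hvm : v = X.m
          · subst hvm; exact X.m_anch hPw hPm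
          · exact X.wall_anch hPw ⟨h7, hvm, h8⟩
        rw [(h6 v h9).1] at h4
        exact absurd h4 (by simp)
    exact hgen _ hcl
  obtain ⟨l, h1, h2, h3, h4⟩ := exists_simple (Mok := fun _ v => v ≠ X.p ∧ ¬ X.bdry v) hcl'
  refine ⟨l, P, hpl, h1, h2, h3, fun mv h => (h4 mv h).2, ?_⟩
  intro S hS
  rcases List.mem_cons.1 hS with rfl | hS
  · exact hPm
  · have h5 := trace_reach l P h1 (fun mv h => (h4 mv h).1) S hS
    exact ((reach_inv h5 hPleg hPp).2.2 _ (X.m_anch hPw hPm)).1

/-- Main local statement: a cell can pass from the word `y` to the word `y'` in two different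
ways, all intermediate states not being words. -/
theorem transition [Fintype C] {y y' : Position D} (hy : Legal X.K y) (hy' : Legal X.K y')
    (hne : y ≠ y') :
    ∃ l : Bool → List (Bool × C), l false ≠ l true ∧
      (l false).map Prod.fst = (l true).map Prod.fst ∧
      ∀ ε, Ok X.H (X.word y) (l ε) ∧ final X.H (X.word y) (l ε) = X.word y' ∧
        (X.word y :: trace X.H (X.word y) (l ε)).Nodup ∧
        (∀ S ∈ trace X.H (X.word y) (l ε), S = X.word y' ∨ ∀ y'', S ≠ X.word y'') ∧
        (∀ mv ∈ l ε, X.bdry mv.2 → mv.1 = false) := by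
  classical
  obtain ⟨l1, P, hP, h11, h12, h13, h14, h15⟩ := X.seg1 hy
  obtain ⟨l3, h31, h32, h33, h34, l3', h35, h36⟩ := X.seg3
  obtain ⟨rest, hseg5⟩ := X.seg5 hy'
  let s : Bool → List C := fun ε => if ε then [X.a, X.b] else [X.b, X.a]
  have hs : ∀ ε, s ε = [X.a, X.b] ∨ s ε = [X.b, X.a] := by
    intro ε; cases ε <;> simp [s]
  let l5 : Bool → List (Bool × C) := fun ε => fillMoves (X.word y') (s ε ++ rest)
  let l : Bool → List (Bool × C) := fun ε =>
    (false, X.m) :: (l1 ++ ((true, X.p) :: (l3 ++ (l5 ε ++ [(false, X.z)]))))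
  have hfin : ∀ ε, final X.H (X.word y) (l ε) = X.word y' := by
    intro ε
    obtain ⟨h51, h52, h53, h54, h55⟩ := hseg5 (s ε) (hs ε)
    simp only [l, final_cons, final_append, hP, h12, X.place_allWhite, h32]
    rw [final_append] at h52
    exact h52
  have htr : ∀ ε, trace X.H (X.word y) (l ε) = (P :: trace X.H P l1) ++
      ((X.E0 :: l3') ++ ((X.E4 :: trace X.H X.E4 (l5 ε)) ++ [X.word y'])) := by
    intro ε
    obtain ⟨h51, h52, h53, h54, h55⟩ := hseg5 (s ε) (hs ε)
    simp only [l, trace_cons, trace_append, hP, h12, X.place_allWhite, h32, h35]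
    rw [trace_append] at h54
    simp only [trace_cons, trace_nil] at h54
    simp only [List.cons_append, List.append_assoc, List.nil_append, trace_nil]
    rw [show trace X.H X.E4 (l5 ε) ++ [place X.H (final X.H X.E4 (l5 ε)) false X.z] =
      trace X.H X.E4 (l5 ε) ++ [X.word y'] from h54]
  refine ⟨l, ?_, ?_, ?_⟩
  · intro h
    simp only [l, l5, s, fillMoves] at h
    simp at h
    exact X.hab h.1.2.symm
  · simp only [l, l5, s, fillMoves]
    simp [X.word_wall y' X.ha.1, X.word_wall y' X.hb.1]
  · intro ε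
    obtain ⟨h51, h52, h53, h54, h55⟩ := hseg5 (s ε) (hs ε)
    refine ⟨?_, hfin ε, ?_, ?_, ?_⟩
    · refine ⟨X.word_m y, ?_⟩
      show Ok X.H (place X.H (X.word y) false X.m) _
      rw [hP, ok_append, h12]
      refine ⟨h11, by simp [allWhite], ?_⟩
      show Ok X.H (place X.H (allWhite X.p) true X.p) _
      rw [X.place_allWhite, ok_append, h32]
      exact ⟨h31, h51⟩
    · rw [htr ε]
      have h33' : (X.E0 :: l3').Nodup := by
        rw [h35] at h33
        rw [← List.cons_append, List.nodup_append] at h33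
        exact h33.1
      have c1 : ∀ S ∈ P :: trace X.H P l1, S X.m = some false := h15
      have c2 : ∀ S ∈ X.E0 :: l3', S X.p = some true ∧ S X.m = none := h36
      have c3 : ∀ S ∈ X.E4 :: trace X.H X.E4 (l5 ε), S X.p = none ∧ S X.m = none ∧ S X.z = none :=
        h55
      have w1 := X.word_p y
      have w2 := X.word_m y
      have w3 := X.word_wall y X.hz.1
      have w1' := X.word_p y'
      have w2' := X.word_m y'
      have w3' := X.word_wall y' X.hz.1
      have d0 : X.word y ≠ X.word y' := fun h => hne (X.word_injective h)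
      rw [List.nodup_cons]
      refine ⟨?_, ?_⟩
      · intro hmem
        rcases List.mem_append.1 hmem with h | h
        · have := c1 _ h
          rw [w2] at this; exact absurd this (by simp)
        · rcases List.mem_append.1 h with h | h
          · have := (c2 _ h).1
            rw [w1] at this; exact absurd this (by simp)
          · rcases List.mem_append.1 h with h | h
            · have := (c3 _ h).2.2
              rw [w3] at this; exact absurd this (by simp)
            · exact d0 (List.mem_singleton.1 h)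
      · rw [List.nodup_append]
        refine ⟨h13, ?_, ?_⟩
        · rw [List.nodup_append]
          refine ⟨h33', ?_, ?_⟩
          · rw [List.nodup_append]
            refine ⟨h53, by simp, ?_⟩
            intro S hS T hT h
            subst h
            rw [List.mem_singleton.1 hT] at hS
            have := (c3 _ hS).2.2
            rw [w3'] at this; exact absurd this (by simp)
          · intro S hS T hT h
            subst h
            rcases List.mem_append.1 hT with h | h
            · have h1 := (c2 _ hS).1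
              rw [(c3 _ h).1] at h1; exact absurd h1 (by simp)
            · rw [List.mem_singleton.1 h] at hS
              have h1 := (c2 _ hS).1
              rw [w1'] at h1; exact absurd h1 (by simp)
        · intro S hS T hT h
          subst h
          have h1 := c1 _ hS
          rcases List.mem_append.1 hT with h | h
          · rw [(c2 _ h).2] at h1; exact absurd h1 (by simp)
          · rcases List.mem_append.1 h with h | h
            · rw [(c3 _ h).2.1] at h1; exact absurd h1 (by simp)
            · rw [List.mem_singleton.1 h, w2'] at h1; exact absurd h1 (by simp)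
    · intro S hS
      rw [htr ε] at hS
      rcases List.mem_append.1 hS with h | h
      · right
        rintro y'' rfl
        have := h15 _ h
        rw [X.word_m] at this; exact absurd this (by simp)
      · rcases List.mem_append.1 h with h | h
        · right
          rintro y'' rfl
          have := (h36 _ h).1
          rw [X.word_p] at this; exact absurd this (by simp)
        · rcases List.mem_append.1 h with h | h
          · right
            rintro y'' rfl
            have := (h55 _ h).2.2
            rw [X.word_wall _ X.hz.1] at this; exact absurd this (by simp)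
          · left; exact List.mem_singleton.1 h
    · intro mv hmv hb
      rcases List.mem_cons.1 hmv with rfl | h
      · rfl
      · rcases List.mem_append.1 h with h | h
        · exact absurd hb (h14 mv h)
        · rcases List.mem_cons.1 h with rfl | h
          · exact absurd rfl (X.bdry_wall _ hb).1
          · rcases List.mem_append.1 h with h | h
            · exact h34 mv h
            · rcases List.mem_append.1 h with h | h
              · obtain ⟨v, hv, rfl⟩ := List.mem_map.1 h
                simp only at hb ⊢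
                obtain ⟨h7, h8⟩ := X.bdry_wall v hb
                by_cases hvm : v = X.m
                · subst hvm; rw [X.word_m]; rfl
                · rw [X.word_wall y' ⟨h7, hvm, h8⟩]; rfl
              · rw [List.mem_singleton.1 h]

end CellData

end Pool.Agent.helper12.Go
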