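import Pool.Agent.helper12.GoMoves

set_option autoImplicit false

namespace Pool.Agent.helper12.Go

open Relation

section

variable {C : Type} {H : SimpleGraph C} {p : C}

/-- a white stone connected, through white stones, to a neighbour of the eye `p` -/
def Anch (H : SimpleGraph C) (p : C) (P : Position C) (v : C) : Prop :=
  P v = some false ∧ ∃ u, ReflTransGen (Same H P) v u ∧ H.Adj u p

theorem Anch.lib {P : Position C} (hp : P p = none) {v : C} (h : Anch H p P v) :
    HasLiberty H P v := by
  obtain ⟨-, u, h1, h2⟩ := h
  exact ⟨u, p, h1, h2, hp⟩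

theorem Anch.removeDead {P : Position C} (hp : P p = none) {v : C} (h : Anch H p P v) (c : Bool) :
    Anch H p (removeDead H c P) v := by
  have hl := h.lib hp
  obtain ⟨h0, u, h1, h2⟩ := h
  refine ⟨?_, u, removeDead_path h1 (HasLiberty.of_adj h2 hp), h2⟩
  rw [removeDead_of_lib hl]; exact h0

theorem path_update [DecidableEq C] {P : Position C} {v u q : C} {x : Option Bool}
    (h : ReflTransGen (Same H P) v u) (hv : P v ≠ none) (hq : P q = none) :
    ReflTransGen (Same H (Function.update P q x)) v u := by
  induction h using ReflTransGen.head_induction_on with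
  | refl => exact ReflTransGen.refl
  | head h1 h2 ih =>
    rename_i a b
    have hb : P b ≠ none := by rw [← h1.2]; exact hv
    have haq : a ≠ q := fun h => hv (h ▸ hq)
    have hbq : b ≠ q := fun h => hb (h ▸ hq)
    refine ReflTransGen.head ⟨h1.1, ?_⟩ (ih hb)
    rw [Function.update_of_ne haq, Function.update_of_ne hbq]
    exact h1.2

theorem Anch.update [DecidableEq C] {P : Position C} {v q : C} (h : Anch H p P v)
    (hq : P q = none) (x : Option Bool) : Anch H p (Function.update P q x) v := by
  obtain ⟨h0, u, h1, h2⟩ := h
  have hv : P v ≠ none := by rw [h0]; simp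
  have hvq : v ≠ q := fun h => hv (h ▸ hq)
  exact ⟨by rw [Function.update_of_ne hvq]; exact h0, u, path_update h1 hv hq, h2⟩

theorem Anch.place {P : Position C} {v q : C} (h : Anch H p P v) (hp : P p = none)
    (hq : P q = none) (hqp : q ≠ p) (c : Bool) : Anch H p (place H P c q) v := by
  classical
  rw [place_eq]
  have h1 : Function.update P q (some c) p = none := by
    rw [Function.update_of_ne hqp.symm]; exact hp
  exact ((h.update hq _).removeDead h1 _).removeDead (removeDead_of_none h1) _

theorem place_p {P : Position C} {q : C} (hp : P p = none) (hqp : q ≠ p) (c : Bool) :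
    Go.place H P c q p = none := by
  classical
  rw [place_eq]
  apply removeDead_of_none
  apply removeDead_of_none
  rw [Function.update_of_ne hqp.symm]; exact hp

theorem rtg_mono {α : Type} {r r' : α → α → Prop} (h : ∀ a b, r a b → r' a b) {a b : α}
    (hab : ReflTransGen r a b) : ReflTransGen r' a b := by
  induction hab with
  | refl => exact ReflTransGen.refl
  | tail _ h2 ih => exact ih.tail (h _ _ h2)

theorem path_transfer {P P' : Position C} {c : Bool} {v u : C}
    (h : ReflTransGen (Same H P) v u) (hv : P v = some c) (K : C → Prop) (hKv : K v)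
    (hK : ∀ a b, K a → P a = some c → Same H P a b → K b)
    (hag : ∀ a, K a → P a = some c → P' a = some c) :
    ReflTransGen (Same H P') v u ∧ K u := by
  induction h using ReflTransGen.head_induction_on with
  | refl => exact ⟨ReflTransGen.refl, hKv⟩
  | head h1 h2 ih =>
    rename_i a b
    have hb : P b = some c := by rw [← h1.2]; exact hv
    have hKb := hK a b hKv hv h1
    obtain ⟨h3, h4⟩ := ih hb hKb
    exact ⟨ReflTransGen.head ⟨h1.1, by rw [hag a hKv hv, hag b hKb hb]⟩ h3, h4⟩

/-- one move, not at `p` -/
def Mv (H : SimpleGraph C) (p : C) (A B : Position C) : Prop :=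
  ∃ c v, v ≠ p ∧ A v = none ∧ B = place H A c v

theorem reach_inv {P Q : Position C} (h : ReflTransGen (Mv H p) P Q) (hP : Legal H P)
    (hp : P p = none) : Legal H Q ∧ Q p = none ∧ ∀ v, Anch H p P v → Anch H p Q v := by
  induction h with
  | refl => exact ⟨hP, hp, fun _ h => h⟩
  | tail _ h2 ih =>
    obtain ⟨c, v, hvp, hv, rfl⟩ := h2
    exact ⟨place_legal _ _ _, place_p ih.2.1 hvp c,
      fun u hu => (ih.2.2 u hu).place ih.2.1 hv hvp c⟩

/-- Key lemma: as long as some point other than `p` is not anchored, the set of anchored points
can be enlarged. -/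
theorem grow [Fintype C]
    (hconn : ∀ A : Set C, A.Nonempty → p ∉ A → (∀ a ∈ A, ∀ u, H.Adj a u → u ≠ p → u ∈ A) →
      ∀ u, u ≠ p → u ∈ A)
    {P : Position C} (hleg : Legal H P) (hp : P p = none)
    (hN : ∀ u, H.Adj u p → P u = some false) (hNe : ∃ u, H.Adj u p)
    (hnot : ∃ u, u ≠ p ∧ ¬ Anch H p P u) :
    ∃ Q, ReflTransGen (Mv H p) P Q ∧ ∃ v, Anch H p Q v ∧ ¬ Anch H p P v := by
  classical
  by_contra hno
  push Not at hno
  -- neighbours of p are anchored
  have hNA : ∀ u, H.Adj u p → Anch H p P u := fun u hu => ⟨hN u hu, u, ReflTransGen.refl, hu⟩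
  -- a non-anchored point next to an anchored one
  obtain ⟨u0, hu0p, hu0, a, ha, hau⟩ : ∃ u0, u0 ≠ p ∧ ¬ Anch H p P u0 ∧
      ∃ a, Anch H p P a ∧ H.Adj a u0 := by
    by_contra hcon
    push Not at hcon
    obtain ⟨u, hup, hu⟩ := hnot
    refine hu (hconn {v | Anch H p P v} ?_ ?_ ?_ u hup)
    · obtain ⟨w, hw⟩ := hNe
      exact ⟨w, hNA w hw⟩
    · intro h
      have := h.1
      rw [hp] at this
      exact absurd this (by simp)
    · intro b hb w hbw hwp
      by_contra hw
      exact hcon w hwp hw b hb hbw
  -- u0 stays black
  have hblack : ∀ Q, ReflTransGen (Mv H p) P Q → Q u0 = some true := by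
    intro Q hQ
    obtain ⟨hQleg, hQp, hQA⟩ := reach_inv hQ hleg hp
    have haQ := hQA a ha
    rcases h : Q u0 with _ | ⟨_ | _⟩
    · exfalso
      have hmv : ReflTransGen (Mv H p) P (place H Q false u0) :=
        hQ.tail ⟨false, u0, hu0p, h, rfl⟩
      refine hu0 (hno _ hmv u0 ?_)
      rw [place_eq]
      have h1 : Function.update Q u0 (some false) p = none := by
        rw [Function.update_of_ne hu0p.symm]; exact hQp
      have h2 : Anch H p (Function.update Q u0 (some false)) u0 := by
        obtain ⟨h3, w, h4, h5⟩ := haQ.update h (some false)
        refine ⟨by simp, w, ReflTransGen.head ⟨hau.symm, ?_⟩ h4, h5⟩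
        rw [h3]; simp
      exact (h2.removeDead h1 _).removeDead (removeDead_of_none h1) _
    · exfalso
      refine hu0 (hno _ hQ u0 ?_)
      obtain ⟨h3, w, h4, h5⟩ := haQ
      exact ⟨h, w, ReflTransGen.head ⟨hau.symm, by rw [h3, h]⟩ h4, h5⟩
    · rfl
  -- choose Q minimal
  let e : Position C → ℕ := fun Q => (Finset.univ.filter (fun v => Q v = none)).card
  let w : Position C → ℕ := fun Q => (Finset.univ.filter (fun v => Q v = some false)).card
  let f : Position C → ℕ := fun Q => e Q * (Fintype.card C + 1) + w Q
  obtain ⟨Q, hQ, hmin⟩ := (measure f).wf.has_min {Q | ReflTransGen (Mv H p) P Q}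
    ⟨P, ReflTransGen.refl⟩
  replace hQ : ReflTransGen (Mv H p) P Q := hQ
  replace hmin : ∀ Q', ReflTransGen (Mv H p) P Q' → ¬ f Q' < f Q := fun Q' h => hmin Q' h
  have hwle : ∀ Q' : Position C, w Q' ≤ Fintype.card C := fun Q' => Finset.card_le_univ _
  have hflt1 : ∀ Q' : Position C, e Q' < e Q → f Q' < f Q := by
    intro Q' h
    have h1 := hwle Q'
    have h2 : (e Q' + 1) * (Fintype.card C + 1) ≤ e Q * (Fintype.card C + 1) :=
      Nat.mul_le_mul_right _ h
    simp only [f]
    nlinarith
  have hflt2 : ∀ Q' : Position C, e Q' = e Q → w Q' < w Q → f Q' < f Q := by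
    intro Q' h h'
    simp only [f]
    rw [h]
    omega
  obtain ⟨hQleg, hQp, hQA⟩ := reach_inv hQ hleg hp
  have hQu0 := hblack Q hQ
  obtain ⟨u1, q, hpath, hadj, hq⟩ := hQleg u0 (by rw [hQu0]; simp)
  have hu1 : Q u1 = some true := by rw [← path_colour hpath]; exact hQu0
  have hqp : q ≠ p := by
    rintro rfl
    have := (hQA u1 (hNA u1 hadj)).1
    rw [hu1] at this
    exact absurd this (by simp)
  -- Q1 : black at q
  set Q1 : Position C := Function.update Q q (some true) with hQ1
  have hQ1q : Q1 q = some true := by simp [hQ1]
  have hQ1ne : ∀ v, v ≠ q → Q1 v = Q v := fun v hv => Function.update_of_ne hv _ _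
  set S : Set C := {v | Q1 v = some false ∧ ¬ HasLiberty H Q1 v} with hS
  have hSw : ∀ v ∈ S, v ≠ q ∧ Q v = some false := by
    intro v hv
    have hvq : v ≠ q := by
      rintro rfl
      have := hv.1
      rw [hQ1q] at this
      exact absurd this (by simp)
    exact ⟨hvq, by rw [← hQ1ne v hvq]; exact hv.1⟩
  let QX : Set C → Position C := fun X v =>
    if v ∈ X then some true else if v ∈ S then none else Q v
  have hQXX : ∀ X v, v ∈ X → QX X v = some true := fun X v hv => by simp [QX, hv]
  have hQXS : ∀ X v, v ∉ X → v ∈ S → QX X v = none := fun X v hv hv' => by simp [QX, hv, hv']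
  have hQXo : ∀ X v, v ∉ X → v ∉ S → QX X v = Q v := fun X v hv hv' => by simp [QX, hv, hv']
  have hQ2 : removeDead H false Q1 = QX {q} := by
    funext v
    by_cases hvq : v = q
    · subst hvq
      rw [hQXX {v} v rfl, removeDead_of_ne (by rw [hQ1q]; simp), hQ1q]
    · by_cases hvS : v ∈ S
      · rw [hQXS {q} v hvq hvS]
        exact removeDead_dead hvS.1 hvS.2
      · rw [hQXo {q} v hvq hvS, ← hQ1ne v hvq]
        by_cases hv0 : Q1 v = some false
        · apply removeDead_of_lib
          by_contra hl
          exact hvS ⟨hv0, hl⟩
        · exact removeDead_of_ne hv0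
  by_cases hsu : HasLiberty H (QX {q}) q
  swap
  · -- black at q is suicide: white at q captures u0
    have hmv : ReflTransGen (Mv H p) P (place H Q false q) := hQ.tail ⟨false, q, hqp, hq, rfl⟩
    have h1 := hblack _ hmv
    rw [place_eq] at h1
    have hu0q : u0 ≠ q := by
      rintro rfl
      rw [hQu0] at hq
      exact absurd hq (by simp)
    have h2 : ¬ HasLiberty H (Function.update Q q (some false)) u0 := by
      rintro ⟨x, z, h3, h4, h5⟩
      apply hsu
      rw [← hQ2]
      apply HasLiberty.removeDead
      have hzq : z ≠ q := by
        rintro rfl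
        simp at h5
      have hcol : Function.update Q q (some false) u0 = some true := by
        rw [Function.update_of_ne hu0q]; exact hQu0
      have h6 : ReflTransGen (Same H Q1) u0 x :=
        (path_transfer h3 hcol (fun _ => True) trivial (fun _ _ _ _ _ => trivial) (by
          intro b _ hb
          have hbq : b ≠ q := by
            rintro rfl
            simp at hb
          rw [hQ1ne b hbq]
          rwa [Function.update_of_ne hbq] at hb)).1
      have h7 : ReflTransGen (Same H Q1) u0 u1 := path_update hpath (by rw [hQu0]; simp) hq
      have hu1q : u1 ≠ q := by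
        rintro rfl
        rw [hu1] at hq
        exact absurd hq (by simp)
      have h8 : Same H Q1 q u1 := ⟨hadj.symm, by rw [hQ1q, hQ1ne u1 hu1q, hu1]⟩
      have h9 : HasLiberty H Q1 u0 := by
        refine ⟨x, z, h6, h4, ?_⟩
        rw [hQ1ne z hzq]
        rwa [Function.update_of_ne hzq] at h5
      exact HasLiberty.of_path (ReflTransGen.head h8 (path_symm h7)) h9
    have h3 : removeDead H (!false) (Function.update Q q (some false)) u0 = none := by
      apply removeDead_dead _ h2
      rw [Function.update_of_ne hu0q, hQu0]; rfl
    rw [removeDead_of_none h3] at h1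
    exact absurd h1 (by simp)
  -- black at q is not suicide
  have hXq : ∀ X : Set C, X ⊆ S ∪ {q} → ∀ v, Q v = some true → v ∉ X ∧ v ∉ S := by
    intro X hX v hv
    have hvS : v ∉ S := by
      intro h
      rw [(hSw v h).2] at hv
      exact absurd hv (by simp)
    refine ⟨?_, hvS⟩
    intro h
    rcases hX h with h | h
    · exact hvS h
    · rw [Set.mem_singleton_iff.1 h, hq] at hv
      exact absurd hv (by simp)
  have hlegX : ∀ X : Set C, q ∈ X → X ⊆ S ∪ {q} →
      (∀ x ∈ X, ReflTransGen (fun a b => H.Adj a b ∧ a ∈ X ∧ b ∈ X) q x) →
      HasLiberty H (QX X) q → Legal H (QX X) := by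
    intro X hqX hX hXc hXl v hv
    have hXpath : ∀ x ∈ X, ReflTransGen (Same H (QX X)) q x := by
      intro x hx
      refine rtg_mono ?_ (hXc x hx)
      rintro a b ⟨h1, h2, h3⟩
      exact ⟨h1, by rw [hQXX X a h2, hQXX X b h3]⟩
    by_cases hvX : v ∈ X
    · exact HasLiberty.of_path (path_symm (hXpath v hvX)) hXl
    · by_cases hvS : v ∈ S
      · exact absurd (hQXS X v hvX hvS) hv
      · rw [hQXo X v hvX hvS] at hv
        rcases h : Q v with _ | ⟨_ | _⟩
        · exact absurd h hv
        · -- white stone with a liberty in Q1
          have hvq : v ≠ q := by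
            rintro rfl
            exact hvX hqX
          have hv1 : Q1 v = some false := by rw [hQ1ne v hvq]; exact h
          have hvl : HasLiberty H Q1 v := by
            by_contra hl
            exact hvS ⟨hv1, hl⟩
          obtain ⟨x, z, h1, h2, h3⟩ := hvl
          have hzq : z ≠ q := by
            rintro rfl
            rw [hQ1q] at h3
            exact absurd h3 (by simp)
          have hz : Q z = none := by rw [← hQ1ne z hzq]; exact h3
          have hzS : z ∉ S := by
            intro h4
            rw [(hSw z h4).2] at hz
            exact absurd hz (by simp)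
          have hzX : z ∉ X := by
            intro h4
            rcases hX h4 with h4 | h4
            · exact hzS h4
            · exact hzq h4
          refine ⟨x, z, (path_transfer h1 hv1 (fun a => a ∉ S) hvS ?_ ?_).1, h2, ?_⟩
          · intro a b haS ha hab hbS
            apply haS
            refine ⟨ha, fun hl => hbS.2 ?_⟩
            exact HasLiberty.of_same hab.symm' hl
          · intro a haS ha
            have haq : a ≠ q := by
              rintro rfl
              rw [hQ1q] at ha
              exact absurd ha (by simp)
            have haX : a ∉ X := by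
              intro h4
              rcases hX h4 with h4 | h4
              · exact haS h4
              · exact haq h4
            rw [hQXo X a haX haS, ← hQ1ne a haq]
            exact ha
          · rw [hQXo X z hzX hzS]; exact hz
        · -- black stone
          obtain ⟨x, z, h1, h2, h3⟩ := hQleg v (by rw [h]; simp)
          have h4 : ReflTransGen (Same H (QX X)) v x :=
            (path_transfer h1 h (fun _ => True) trivial (fun _ _ _ _ _ => trivial) (by
              intro a _ ha
              rw [hQXo X a (hXq X hX a ha).1 (hXq X hX a ha).2]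
              exact ha)).1
          have hx : Q x = some true := by rw [← path_colour h1]; exact h
          by_cases hzq : z = q
          · subst hzq
            refine HasLiberty.of_path h4 (HasLiberty.of_same ⟨h2, ?_⟩ hXl)
            rw [hQXo X x (hXq X hX x hx).1 (hXq X hX x hx).2, hx, hQXX X z hqX]
          · have hzS : z ∉ S := by
              intro h5
              rw [(hSw z h5).2] at h3
              exact absurd h3 (by simp)
            have hzX : z ∉ X := by
              intro h5
              rcases hX h5 with h5 | h5
              · exact hzS h5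
              · exact hzq h5
            refine ⟨x, z, h4, h2, ?_⟩
            rw [hQXo X z hzX hzS]; exact h3
  have hleg1 : Legal H (QX {q}) := by
    refine hlegX {q} rfl (fun x hx => Or.inr hx) ?_ hsu
    intro x hx
    rw [Set.mem_singleton_iff.1 hx]
  have hplace1 : place H Q true q = QX {q} := by
    rw [place_eq]
    show removeDead H true (removeDead H false Q1) = _
    rw [hQ2, removeDead_of_legal hleg1]
  have hreach1 : ReflTransGen (Mv H p) P (QX {q}) := hQ.tail ⟨true, q, hqp, hq, hplace1.symm⟩
  by_cases hSe : S = ∅
  · -- no capture: one empty point less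
    apply hmin _ hreach1
    apply hflt1
    apply Finset.card_lt_card
    rw [Finset.ssubset_iff_of_subset]
    · refine ⟨q, by simp [hq], ?_⟩
      simp [hQXX {q} q rfl]
    · intro v hv
      simp only [Finset.mem_filter, Finset.mem_univ, true_and] at hv ⊢
      by_cases hvq : v = q
      · rw [hvq]; exact hq
      · rw [hQXo {q} v hvq (by rw [hSe]; simp)] at hv
        exact hv
  · -- capture: refill the captured region
    have hnext : ∀ X : Set C, q ∈ X → ∀ s, s ∈ S → s ∉ X → ∃ y ∈ S, y ∉ X ∧ ∃ x ∈ X, H.Adj y x := by
      intro X hqX s hs hsX
      obtain ⟨x, z, h1, h2, h3⟩ := hQleg s (by rw [(hSw s hs).2]; simp)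
      have hzq : z = q := by
        by_contra hzq
        apply hs.2
        refine ⟨x, z, path_update h1 (by rw [(hSw s hs).2]; simp) hq, h2, ?_⟩
        rw [hQ1ne z hzq]; exact h3
      subst hzq
      clear h3
      induction h1 using ReflTransGen.head_induction_on with
      | refl => exact ⟨x, hs, hsX, z, hqX, h2⟩
      | head h4 h5 ih =>
        rename_i b c
        by_cases hcX : c ∈ X
        · exact ⟨b, hs, hsX, c, hcX, h4.1⟩
        · have hcS : c ∈ S := ?_
          · exact ih hcX hcS
          have hbq := hSw b hs
          have hcc : Q c = some false := by rw [← h4.2]; exact hbq.2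
          have hcq : c ≠ z := by
            rintro rfl
            exact hcX hqX
          have hsame : Same H Q1 b c := ⟨h4.1, by rw [hQ1ne b hbq.1, hQ1ne c hcq]; exact h4.2⟩
          refine ⟨by rw [hQ1ne c hcq]; exact hcc, fun hl => hs.2 (HasLiberty.of_same hsame hl)⟩
    have key : ∀ k : ℕ, ∀ X : Set C, q ∈ X → X ⊆ S ∪ {q} →
        (∀ x ∈ X, ReflTransGen (fun a b => H.Adj a b ∧ a ∈ X ∧ b ∈ X) q x) →
        ReflTransGen (Mv H p) P (QX X) → (S \ X).ncard = k + 1 → False := by
      intro k
      induction k with
      | zero =>
        intro X hqX hX hXc hreach hcard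
        obtain ⟨r, hr⟩ := Set.ncard_eq_one.1 hcard
        have hrSX : r ∈ S \ X := by rw [hr]; rfl
        apply hmin _ hreach
        apply hflt2
        · -- number of empty points
          have h1 : Finset.univ.filter (fun v => QX X v = none) =
              insert r ((Finset.univ.filter (fun v => Q v = none)).erase q) := by
            ext v
            simp only [Finset.mem_filter, Finset.mem_univ, true_and, Finset.mem_insert,
              Finset.mem_erase]
            by_cases hvX : v ∈ X
            · rw [hQXX X v hvX]
              constructor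
              · intro h; exact absurd h (by simp)
              · rintro (h | h)
                · rw [h] at hvX; exact absurd hvX hrSX.2
                · exfalso
                  rcases hX hvX with h2 | h2
                  · rw [(hSw v h2).2] at h
                    exact absurd h.2 (by simp)
                  · exact h.1 h2
            · by_cases hvS : v ∈ S
              · rw [hQXS X v hvX hvS]
                have : v ∈ S \ X := ⟨hvS, hvX⟩
                rw [hr] at this
                simp [Set.mem_singleton_iff.1 this]
              · rw [hQXo X v hvX hvS]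
                have hvq : v ≠ q := fun h => hvX (h ▸ hqX)
                constructor
                · intro h; exact Or.inr ⟨hvq, h⟩
                · rintro (h | h)
                  · rw [h] at hvS; exact absurd hrSX.1 hvS
                  · exact h.2
          show (Finset.univ.filter (fun v => QX X v = none)).card = _
          rw [h1, Finset.card_insert_of_notMem, Finset.card_erase_of_mem]
          · have : 0 < (Finset.univ.filter (fun v => Q v = none)).card :=
              Finset.card_pos.2 ⟨q, by simp [hq]⟩
            simp only [e]
            omega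
          · simp [hq]
          · simp only [Finset.mem_erase, Finset.mem_filter, Finset.mem_univ, true_and, not_and]
            intro _ h
            rw [(hSw r hrSX.1).2] at h
            exact absurd h (by simp)
        · -- number of white stones
          apply Finset.card_lt_card
          rw [Finset.ssubset_iff_of_subset]
          · refine ⟨r, by simp [(hSw r hrSX.1).2], ?_⟩
            simp [hQXS X r hrSX.2 hrSX.1]
          · intro v hv
            simp only [Finset.mem_filter, Finset.mem_univ, true_and] at hv ⊢
            by_cases hvX : v ∈ X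
            · rw [hQXX X v hvX] at hv; exact absurd hv (by simp)
            · by_cases hvS : v ∈ S
              · rw [hQXS X v hvX hvS] at hv; exact absurd hv (by simp)
              · rw [hQXo X v hvX hvS] at hv; exact hv
      | succ k ih =>
        intro X hqX hX hXc hreach hcard
        have hne : (S \ X).Nonempty := by
          apply Set.nonempty_of_ncard_ne_zero
          omega
        obtain ⟨s, hs⟩ := hne
        obtain ⟨y, hyS, hyX, x, hxX, hyx⟩ := hnext X hqX s hs.1 hs.2
        have hcard' : (S \ insert y X).ncard = k + 1 := by
          have h1 : S \ insert y X = (S \ X) \ {y} := by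
            ext v; simp only [Set.mem_sdiff, Set.mem_insert_iff, Set.mem_singleton_iff]; tauto
          rw [h1, Set.ncard_sdiff_singleton_of_mem (show y ∈ S \ X from ⟨hyS, hyX⟩)]
          omega
        have hX' : insert y X ⊆ S ∪ {q} := by
          intro v hv
          rcases hv with rfl | hv
          · exact Or.inl hyS
          · exact hX hv
        have hXc' : ∀ x ∈ insert y X,
            ReflTransGen (fun a b => H.Adj a b ∧ a ∈ insert y X ∧ b ∈ insert y X) q x := by
          have hold : ∀ x ∈ X,
              ReflTransGen (fun a b => H.Adj a b ∧ a ∈ insert y X ∧ b ∈ insert y X) q x := by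
            intro v hv
            refine rtg_mono ?_ (hXc v hv)
            rintro a b ⟨h1, h2, h3⟩
            exact ⟨h1, Or.inr h2, Or.inr h3⟩
          intro v hv
          rcases hv with rfl | hv
          · exact (hold x hxX).tail ⟨hyx.symm, Or.inr hxX, Or.inl rfl⟩
          · exact hold v hv
        have hl' : HasLiberty H (QX (insert y X)) q := by
          have hne' : (S \ insert y X).Nonempty := by
            apply Set.nonempty_of_ncard_ne_zero
            omega
          obtain ⟨s', hs'⟩ := hne'
          obtain ⟨y', hy'S, hy'X, x', hx'X, hyx'⟩ := hnext (insert y X) (Or.inr hqX) s' hs'.1 hs'.2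
          refine ⟨x', y', ?_, hyx'.symm, hQXS _ _ hy'X hy'S⟩
          refine rtg_mono ?_ (hXc' x' hx'X)
          rintro a b ⟨h1, h2, h3⟩
          exact ⟨h1, by rw [hQXX _ a h2, hQXX _ b h3]⟩
        have hleg' := hlegX (insert y X) (Or.inr hqX) hX' hXc' hl'
        have hupd : Function.update (QX X) y (some true) = QX (insert y X) := by
          funext v
          by_cases hvy : v = y
          · subst hvy; simp [hQXX (insert v X) v (Or.inl rfl)]
          · rw [Function.update_of_ne hvy]
            by_cases hvX : v ∈ X
            · rw [hQXX X v hvX, hQXX _ v (Or.inr hvX)]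
            · have hvX' : v ∉ insert y X := by
                rintro (h | h)
                · exact hvy h
                · exact hvX h
              by_cases hvS : v ∈ S
              · rw [hQXS X v hvX hvS, hQXS _ v hvX' hvS]
              · rw [hQXo X v hvX hvS, hQXo _ v hvX' hvS]
        refine ih (insert y X) (Or.inr hqX) hX' hXc' (hreach.tail ⟨true, y, ?_, ?_, ?_⟩) hcard'
        · rintro rfl
          have := (hSw y hyS).2
          rw [hQp] at this
          exact absurd this (by simp)
        · exact hQXS X y hyX hyS
        · rw [place_of_legal (by rw [hupd]; exact hleg'), hupd]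
    have hfin : (S \ {q}).ncard = ((S \ {q}).ncard - 1) + 1 := by
      have h1 : S \ {q} = S := by
        ext v
        simp only [Set.mem_sdiff, Set.mem_singleton_iff, and_iff_left_iff_imp]
        exact fun hv => (hSw v hv).1
      have h2 : S.Nonempty := Set.nonempty_iff_ne_empty.2 hSe
      have h3 : 0 < S.ncard := (Set.ncard_pos (Set.toFinite S)).2 h2
      rw [h1]
      omega
    refine key _ {q} rfl (fun x hx => Or.inr hx) ?_ hreach1 hfin
    intro x hx
    rw [Set.mem_singleton_iff.1 hx]

/-- the position in which every point but `p` is white -/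
def allWhite (p : C) [DecidableEq C] : Position C := fun v => if v = p then none else some false

/-- Clearing lemma: from a legal position with the eye `p` surrounded by white stones one can
reach, without playing at `p`, the position in which every point but `p` is white. -/
theorem clear [Fintype C] [DecidableEq C]
    (hconn : ∀ A : Set C, A.Nonempty → p ∉ A → (∀ a ∈ A, ∀ u, H.Adj a u → u ≠ p → u ∈ A) →
      ∀ u, u ≠ p → u ∈ A)
    {P : Position C} (hleg : Legal H P) (hp : P p = none)
    (hN : ∀ u, H.Adj u p → P u = some false) (hNe : ∃ u, H.Adj u p) :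
    ReflTransGen (Mv H p) P (allWhite p) := by
  classical
  obtain ⟨n, hn⟩ : ∃ n, n = (Finset.univ.filter (fun v => ¬ Anch H p P v)).card := ⟨_, rfl⟩
  induction n using Nat.strong_induction_on generalizing P with
  | _ n ih =>
    by_cases hnot : ∃ u, u ≠ p ∧ ¬ Anch H p P u
    · obtain ⟨Q, hQ, v, hv, hv'⟩ := grow hconn hleg hp hN hNe hnot
      obtain ⟨h1, h2, h3⟩ := reach_inv hQ hleg hp
      refine hQ.trans (ih _ ?_ h1 h2 ?_ rfl)
      · rw [hn]
        apply Finset.card_lt_card
        rw [Finset.ssubset_iff_of_subset]
        · exact ⟨v, by simp [hv'], by simp [hv]⟩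
        · intro u hu
          simp only [Finset.mem_filter, Finset.mem_univ, true_and] at hu ⊢
          exact fun h => hu (h3 u h)
      · intro u hu
        exact (h3 u ⟨hN u hu, u, ReflTransGen.refl, hu⟩).1
    · push Not at hnot
      have : P = allWhite p := by
        funext u
        by_cases hu : u = p
        · subst hu; simp [allWhite, hp]
        · simp only [allWhite, if_neg hu]
          exact (hnot u hu).1
      rw [this]

end

end Pool.Agent.helper12.Go
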