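import Mathlib

set_option autoImplicit false

/-!
# The game of Go on an `n × n` board (area scoring is irrelevant here)

Definitions used in the statement about the number of Go games: positions, strings and
liberties, legality, the effect of a move (with captures and suicide), positional superko,
and the set of all games.
-/

namespace Pool.Agent.helper12.Go

/-- A position on a set `V` of points: each point is empty (`none`), carries a black stone
(`some true`) or a white stone (`some false`). -/
abbrev Position (V : Type) : Type := V → Option Bool

/-- The string of the stone at `v` has a liberty: there are a point `u`, reached from `v` by a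
path of adjacent points of the same colour as `v` (so `u` lies in the string of `v`), and an
empty point `w` adjacent to `u`. -/
def HasLiberty {V : Type} (G : SimpleGraph V) (P : Position V) (v : V) : Prop :=
  ∃ u w : V, Relation.ReflTransGen (fun a b => G.Adj a b ∧ P a = P b) v u ∧
    G.Adj u w ∧ P w = none

/-- A position is legal if every string has a liberty. -/
def Legal {V : Type} (G : SimpleGraph V) (P : Position V) : Prop :=
  ∀ v, P v ≠ none → HasLiberty G P v

open Classical in
/-- Empty every string of colour `c` that has no liberty. -/
noncomputable def removeDead {V : Type} (G : SimpleGraph V) (c : Bool) (P : Position V) :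
    Position V :=
  fun v => if P v = some c ∧ ¬ HasLiberty G P v then none else P v

open Classical in
/-- The position after the player of colour `c` moves at `v`: colour `v`, then empty every
opponent string that has no liberty, then empty every own string that has no liberty. -/
noncomputable def place {V : Type} (G : SimpleGraph V) (P : Position V) (c : Bool) (v : V) :
    Position V :=
  removeDead G c (removeDead G (!c) (Function.update P v (some c)))

/-- `PlaysOut G hist P c passed g`: from the current position `P`, reached after the earlier
positions `hist`, with the player of colour `c` to move and `passed` telling whether the last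
turn was a pass, the list `g` of turns (`none` is a pass, `some v` is a move at `v`) is a
possible remainder of a game. A move must be at an empty point and must not produce a position
that occurred earlier in the game; two consecutive passes end the game. -/
def PlaysOut {V : Type} (G : SimpleGraph V) :
    List (Position V) → Position V → Bool → Bool → List (Option V) → Prop
  | _, _, _, _, [] => False
  | hist, P, c, false, none :: g => PlaysOut G hist P (!c) true g
  | _, _, _, true, none :: g => g = []
  | hist, P, c, _, some v :: g =>
      P v = none ∧ place G P c v ∉ P :: hist ∧ PlaysOut G (P :: hist) (place G P c v) (!c) false g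

/-- The `n × n` board: two points are adjacent when they agree in one coordinate and differ by
`1` in the other. -/
def board (n : ℕ) : SimpleGraph (Fin n × Fin n) where
  Adj p q := (p.1 = q.1 ∧ (p.2.val + 1 = q.2.val ∨ q.2.val + 1 = p.2.val)) ∨
    (p.2 = q.2 ∧ (p.1.val + 1 = q.1.val ∨ q.1.val + 1 = p.1.val))
  symm := ⟨by
    rintro p q (⟨h, h'⟩ | ⟨h, h'⟩)
    · exact Or.inl ⟨h.symm, h'.symm⟩
    · exact Or.inr ⟨h.symm, h'.symm⟩⟩
  loopless := ⟨by
    rintro p (⟨-, h⟩ | ⟨-, h⟩) <;> omega⟩

/-- A game on the `n × n` board: the list of its turns, starting from the empty board with
black (`true`) to move and ending with the first two consecutive passes. -/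
def IsGame (n : ℕ) (g : List (Option (Fin n × Fin n))) : Prop :=
  PlaysOut (board n) [] (fun _ => none) true false g

/-- `N(n)`: the number of games on the `n × n` board. -/
noncomputable def gameCount (n : ℕ) : ℕ := Set.ncard {g | IsGame n g}

/-- `L(n, n)`: the number of legal positions on the `n × n` board. -/
noncomputable def legalCount (n : ℕ) : ℕ := Set.ncard {P | Legal (board n) P}

end Pool.Agent.helper12.Go
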