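import Pool.Agent.helper12.GoLayout

set_option autoImplicit false

namespace Pool.Agent.helper12.Go

open Relation

section enc

variable {V : Type} {G : SimpleGraph V}

/-- The list of turns realising a list of coloured moves, `t` being to move: passes are inserted
when the other player has to move; two passes are added at the end. -/
def enc : Bool → List (Bool × V) → List (Option V)
  | _, [] => [none, none]
  | t, m :: l => if m.1 = t then some m.2 :: enc (!t) l else none :: some m.2 :: enc (!m.1) l

theorem enc_plays (l : List (Bool × V)) : ∀ (hist : List (Position V)) (P : Position V) (t : Bool),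
    Ok G P l → (P :: trace G P l).Nodup → (∀ S ∈ trace G P l, S ∉ hist) →
    PlaysOut G hist P t false (enc t l) := by
  induction l with
  | nil =>
    intro hist P t _ _ _
    simp [enc, PlaysOut]
  | cons m l ih =>
    intro hist P t hok hnd hh
    obtain ⟨c, v⟩ := m
    have h1 := List.nodup_cons.1 hnd
    rw [trace_cons] at h1 hh
    have key : ∀ s, s = c → (P v = none ∧ place G P s v ∉ P :: hist ∧
        PlaysOut G (P :: hist) (place G P s v) (!s) false (enc (!s) l)) := by
      rintro s rfl
      refine ⟨hok.1, ?_, ?_⟩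
      · intro h
        rcases List.mem_cons.1 h with h | h
        · exact h1.1 (by rw [h]; simp)
        · exact hh _ (by simp) h
      · refine ih _ _ _ hok.2 h1.2 ?_
        intro S hS h
        rcases List.mem_cons.1 h with h | h
        · subst h
          exact h1.1 (List.mem_cons_of_mem _ hS)
        · exact hh _ (List.mem_cons_of_mem _ hS) h
    by_cases hct : c = t
    · subst hct
      have e : enc c ((c, v) :: l) = some v :: enc (!c) l := by simp [enc]
      rw [e]
      exact key c rfl
    · have e : enc t ((c, v) :: l) = none :: some v :: enc (!c) l := by simp [enc, hct]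
      have ht : (!t) = c := by cases c <;> cases t <;> simp_all
      rw [e]
      show P v = none ∧ place G P (!t) v ∉ P :: hist ∧
        PlaysOut G (P :: hist) (place G P (!t) v) (!(!t)) false (enc (!c) l)
      rw [ht]
      exact key c rfl

theorem enc_injective (l : List (Bool × V)) : ∀ (l' : List (Bool × V)) (t : Bool),
    enc t l = enc t l' → l = l' := by
  induction l with
  | nil =>
    intro l' t h
    rcases l' with _ | ⟨⟨c, v⟩, l'⟩
    · rfl
    · exfalso
      by_cases hct : c = t <;> simp [enc, hct] at h
  | cons m l ih =>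
    intro l' t h
    obtain ⟨c, v⟩ := m
    rcases l' with _ | ⟨⟨c', v'⟩, l'⟩
    · exfalso
      by_cases hct : c = t <;> simp [enc, hct] at h
    · by_cases hct : c = t <;> by_cases hct' : c' = t
      · simp only [enc, hct, hct', if_true, List.cons.injEq, Option.some.injEq] at h
        rw [hct, hct', h.1, ih _ _ h.2]
      · simp [enc, hct, hct'] at h
      · simp [enc, hct, hct'] at h
      · have hcc : c = c' := by cases c <;> cases c' <;> cases t <;> simp_all
        simp only [enc, hct, hct', if_false, List.cons.injEq, Option.some.injEq, true_and] at h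
        rw [hcc] at h ⊢
        rw [h.1, ih _ _ h.2]

end enc

section assembly

variable {V I : Type} {C D : I → Type} {G : SimpleGraph V}

/-- A schedule: a sequence of assignments of contents to the cells, changing one cell at a time,
never repeating an assignment, nor using twice the same line. -/
structure Schedule (I : Type) (Y : I → Type) (T : ℕ) where
  W : ℕ → ∀ i, Y i
  ι : ℕ → I
  step : ∀ τ < T, ∀ j, j ≠ ι τ → W (τ + 1) j = W τ j
  step_ne : ∀ τ < T, W τ (ι τ) ≠ W (τ + 1) (ι τ)
  inj : ∀ τ ≤ T, ∀ σ ≤ T, W τ = W σ → τ = σ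
  line : ∀ τ < T, ∀ σ < T, ι τ = ι σ → (∀ j, j ≠ ι τ → W τ j = W σ j) → τ = σ

/-- the contents of the cells -/
abbrev Cont (X : ∀ i, CellData (D i) (C i)) (i : I) : Type :=
  {y : Position (D i) // Legal (X i).K y}

variable (X : ∀ i, CellData (D i) (C i))
  (L : Layout V I C G (fun i => (X i).H) (fun i => (X i).bdry))

/-- the states of the cells storing the contents `W` -/
noncomputable def words (W : ∀ i, Cont X i) : ∀ i, Position (C i) :=
  fun i => (X i).word (W i).1

theorem words_injective : Function.Injective (words X) := by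
  intro W W' h
  funext i
  exact Subtype.ext ((X i).word_injective (congrFun h i))

theorem words_safe (W : ∀ i, Cont X i) (i : I) :
    Safe (X i).bdry (words X W i) := by
  intro u hu
  obtain ⟨h1, h2⟩ := (X i).bdry_wall u hu
  by_cases h3 : u = (X i).m
  · subst h3; show (X i).word _ _ ≠ _; rw [(X i).word_m]; simp
  · show (X i).word _ _ ≠ _; rw [(X i).word_wall _ ⟨h1, h3, h2⟩]; simp

theorem words_legal (W : ∀ i, Cont X i) (i : I) :
    Legal (X i).H (words X W i) := (X i).word_legal (W i).2

theorem glob_legal (S : ∀ i, Position (C i)) (hS : ∀ i, Safe (X i).bdry (S i))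
    (hl : ∀ i, Legal (X i).H (S i)) : Legal G (L.glob S) := by
  intro v hv
  rcases L.cases_pt v with ⟨i, u, rfl⟩ | hr | ⟨h1, h2⟩
  · rw [L.glob_emb] at hv
    exact (L.lib_iff S (hS i)).2 (hl i u hv)
  · exact L.ring_hasLib S hr
  · exact absurd (L.glob_moat S h1 h2) hv

/-- the two local ways to pass from the content `y` to the content `y'` -/
noncomputable def way {D C : Type} (X : CellData D C) [Fintype C]
    (y y' : {y : Position D // Legal X.K y}) (h : y ≠ y') :
    Bool → List (Bool × C) :=
  (X.transition y.2 y'.2 (fun h' => h (Subtype.ext h'))).choose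

theorem way_spec {D C : Type} (X : CellData D C) [Fintype C]
    (y y' : {y : Position D // Legal X.K y}) (h : y ≠ y') :
    way X y y' h false ≠ way X y y' h true ∧
      (way X y y' h false).map Prod.fst = (way X y y' h true).map Prod.fst ∧
      ∀ ε, Ok X.H (X.word y.1) (way X y y' h ε) ∧
        final X.H (X.word y.1) (way X y y' h ε) = X.word y'.1 ∧
        (X.word y.1 :: trace X.H (X.word y.1) (way X y y' h ε)).Nodup ∧
        (∀ S ∈ trace X.H (X.word y.1) (way X y y' h ε), S = X.word y'.1 ∨ ∀ y'', S ≠ X.word y'') ∧
        (∀ mv ∈ way X y y' h ε, X.bdry mv.2 → mv.1 = false) :=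
  (X.transition y.2 y'.2 (fun h' => h (Subtype.ext h'))).choose_spec

open Classical in
/-- the global moves of the `τ`-th transition -/
noncomputable def seg [∀ i, Fintype (C i)] {T : ℕ} (Sch : Schedule I (Cont X) T)
    (τ : ℕ) (ε : Bool) : List (Bool × V) :=
  if h : τ < T then
    (way (X (Sch.ι τ)) (Sch.W τ (Sch.ι τ)) (Sch.W (τ + 1) (Sch.ι τ)) (Sch.step_ne τ h) ε).map
      (fun mv => (mv.1, L.emb (Sch.ι τ) mv.2))
  else []

/-- the coloured moves of the whole play -/
noncomputable def wholePlay [∀ i, Fintype (C i)] {T : ℕ}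
    (Sch : Schedule I (Cont X) T) (l0 : List (Bool × V)) :
    ℕ → (ℕ → Bool) → List (Bool × V)
  | 0, _ => l0
  | n + 1, ε => wholePlay Sch l0 n ε ++ seg X L Sch n (ε n)

theorem seg_inj [∀ i, Fintype (C i)] {T : ℕ} (Sch : Schedule I (Cont X) T)
    {τ : ℕ} (hτ : τ < T) {ε ε' : Bool} (h : seg X L Sch τ ε = seg X L Sch τ ε') : ε = ε' := by
  unfold seg at h
  rw [dif_pos hτ, dif_pos hτ] at h
  have hinj : Function.Injective
      (fun mv : Bool × C (Sch.ι τ) => (mv.1, L.emb (Sch.ι τ) mv.2)) := by
    rintro ⟨c, v⟩ ⟨c', v'⟩ h
    simp only [Prod.mk.injEq] at h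
    rw [h.1, L.emb_injective _ h.2]
  have h1 := List.map_injective_iff.2 hinj h
  have h2 := (way_spec (X (Sch.ι τ)) _ _ (Sch.step_ne τ hτ)).1
  cases ε <;> cases ε'
  · rfl
  · exact absurd h1 h2
  · exact absurd h1.symm h2
  · rfl

theorem seg_length [∀ i, Fintype (C i)] {T : ℕ} (Sch : Schedule I (Cont X) T)
    (τ : ℕ) (ε ε' : Bool) : (seg X L Sch τ ε).length = (seg X L Sch τ ε').length := by
  unfold seg
  split_ifs with hτ
  · rw [List.length_map, List.length_map]
    have h2 := congrArg List.length (way_spec (X (Sch.ι τ)) _ _ (Sch.step_ne τ hτ)).2.1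
    rw [List.length_map, List.length_map] at h2
    cases ε <;> cases ε'
    · rfl
    · exact h2
    · exact h2.symm
    · rfl
  · rfl

theorem wholePlay_inj [∀ i, Fintype (C i)] {T : ℕ} (Sch : Schedule I (Cont X) T)
    (l0 : List (Bool × V)) (n : ℕ) (hn : n ≤ T) (ε ε' : ℕ → Bool) :
    (wholePlay X L Sch l0 n ε).length = (wholePlay X L Sch l0 n ε').length ∧
    (wholePlay X L Sch l0 n ε = wholePlay X L Sch l0 n ε' → ∀ τ < n, ε τ = ε' τ) := by
  induction n with
  | zero => exact ⟨rfl, fun _ τ h => absurd h (Nat.not_lt_zero _)⟩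
  | succ n ih =>
    obtain ⟨h1, h2⟩ := ih (by omega)
    refine ⟨?_, ?_⟩
    · simp only [wholePlay, List.length_append, h1, seg_length X L Sch n (ε n) (ε' n)]
    · intro h τ hτ
      simp only [wholePlay] at h
      obtain ⟨h3, h4⟩ := List.append_inj h h1
      rcases Nat.lt_succ_iff_lt_or_eq.1 hτ with h5 | h5
      · exact h2 h3 τ h5
      · subst h5
        exact seg_inj X L Sch (by omega) h4

open Classical in
/-- Main invariant of the whole play. -/
theorem wholePlay_spec [∀ i, Fintype (C i)] {T : ℕ}
    (Sch : Schedule I (Cont X) T)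
    (l0 : List (Bool × V)) (P0 : Position V) (r0 : V) (hr0 : L.ring r0)
    (hok0 : Ok G P0 l0) (hfin0 : final G P0 l0 = L.glob (words X (Sch.W 0)))
    (hnd0 : (P0 :: trace G P0 l0).Nodup)
    (htr0 : ∀ S ∈ P0 :: trace G P0 l0, S r0 = none ∨ S = L.glob (words X (Sch.W 0)))
    (n : ℕ) (hn : n ≤ T) (ε : ℕ → Bool) :
    Ok G P0 (wholePlay X L Sch l0 n ε) ∧
    final G P0 (wholePlay X L Sch l0 n ε) = L.glob (words X (Sch.W n)) ∧
    (P0 :: trace G P0 (wholePlay X L Sch l0 n ε)).Nodup ∧
    ∀ S ∈ P0 :: trace G P0 (wholePlay X L Sch l0 n ε), S r0 = none ∨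
      S = L.glob (words X (Sch.W 0)) ∨
      ∃ σ < n, ∃ z, S = L.glob (Function.update (words X (Sch.W σ)) (Sch.ι σ) z) ∧
        (z = (X (Sch.ι σ)).word (Sch.W (σ + 1) (Sch.ι σ)).1 ∨
          ∀ y, z ≠ (X (Sch.ι σ)).word y) := by
  induction n with
  | zero =>
    refine ⟨hok0, hfin0, hnd0, ?_⟩
    intro S hS
    rcases htr0 S hS with h | h
    · exact Or.inl h
    · exact Or.inr (Or.inl h)
  | succ n ih =>
    obtain ⟨h1, h2, h3, h4⟩ := ih (by omega)
    have hnT : n < T := by omega
    obtain ⟨-, -, h5⟩ := way_spec (X (Sch.ι n)) _ _ (Sch.step_ne n hnT)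
    obtain ⟨h6, h7, h8, h9, h10⟩ := h5 (ε n)
    have hseg : seg X L Sch n (ε n) =
        (way (X (Sch.ι n)) (Sch.W n (Sch.ι n)) (Sch.W (n + 1) (Sch.ι n))
          (Sch.step_ne n hnT) (ε n)).map
          (fun mv => (mv.1, L.emb (Sch.ι n) mv.2)) := by
      unfold seg
      rw [dif_pos hnT]
    obtain ⟨g1, g2, g3⟩ := L.play_glob (Sch.ι n) _ h10 (words X (Sch.W n))
      (words_safe X (Sch.W n)) (words_legal X (Sch.W n)) h6
    rw [← hseg] at g1 g2 g3
    have hwgen : ∀ σ < T, Function.update (words X (Sch.W σ)) (Sch.ι σ)
        ((X (Sch.ι σ)).word (Sch.W (σ + 1) (Sch.ι σ)).1) = words X (Sch.W (σ + 1)) := by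
      intro σ hσ
      funext j
      by_cases hj : j = Sch.ι σ
      · subst hj; rw [Function.update_self]; rfl
      · rw [Function.update_of_ne hj]
        show (X j).word (Sch.W σ j).1 = (X j).word (Sch.W (σ + 1) j).1
        rw [Sch.step σ hσ j hj]
    have hw := hwgen n hnT
    have hupdinj : Function.Injective
        (fun z => L.glob (Function.update (words X (Sch.W n)) (Sch.ι n) z)) := by
      intro z z' h
      have := congrFun (L.glob_injective h) (Sch.ι n)
      rwa [Function.update_self, Function.update_self] at this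
    have e : wholePlay X L Sch l0 (n + 1) ε = wholePlay X L Sch l0 n ε ++ seg X L Sch n (ε n) := rfl
    -- new positions
    have hnew : ∀ S ∈ trace G (L.glob (words X (Sch.W n))) (seg X L Sch n (ε n)),
        ∃ z, S = L.glob (Function.update (words X (Sch.W n)) (Sch.ι n) z) ∧
        (z = (X (Sch.ι n)).word (Sch.W (n + 1) (Sch.ι n)).1 ∨
          ∀ y, z ≠ (X (Sch.ι n)).word y) := by
      intro S hS
      rw [g2] at hS
      obtain ⟨z, hz, rfl⟩ := List.mem_map.1 hS
      exact ⟨z, rfl, h9 z hz⟩
    refine ⟨?_, ?_, ?_, ?_⟩
    · rw [e, ok_append, h2]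
      exact ⟨h1, g1⟩
    · have h7' : final (X (Sch.ι n)).H (words X (Sch.W n) (Sch.ι n))
          (way (X (Sch.ι n)) (Sch.W n (Sch.ι n)) (Sch.W (n + 1) (Sch.ι n))
            (Sch.step_ne n hnT) (ε n)) =
          (X (Sch.ι n)).word (Sch.W (n + 1) (Sch.ι n)).1 := h7
      rw [e, final_append, h2, g3, h7', hw]
    · rw [e, trace_append, h2, ← List.cons_append, List.nodup_append]
      refine ⟨h3, ?_, ?_⟩
      · rw [g2]
        exact (List.nodup_map_iff hupdinj).2 (List.nodup_cons.1 h8).2
      · intro S hS S' hS' hSS
        subst hSS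
        obtain ⟨z, hz, hz'⟩ := hnew S hS'
        rcases h4 S hS with h | h | ⟨σ, hσ, z', hz1, hz2⟩
        · rw [hz, L.glob_ring _ hr0] at h
          exact absurd h (by simp)
        · rw [hz] at h
          have h11 := L.glob_injective h
          rcases hz' with rfl | hz'
          · rw [hw] at h11
            have := Sch.inj (n + 1) hn 0 (Nat.zero_le _) (words_injective X h11)
            omega
          · have h12 := congrFun h11 (Sch.ι n)
            rw [Function.update_self] at h12
            exact hz' _ h12
        · rw [hz] at hz1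
          have h11 := L.glob_injective hz1
          have hwσ := hwgen σ (by omega)
          rcases hz' with rfl | hz'
          · rcases hz2 with rfl | hz2
            · rw [hw, hwσ] at h11
              have := Sch.inj (n + 1) hn (σ + 1) (by omega) (words_injective X h11)
              omega
            · rw [hw] at h11
              have h12 := congrFun h11 (Sch.ι σ)
              rw [Function.update_self] at h12
              exact hz2 _ h12.symm
          · rcases hz2 with rfl | hz2
            · rw [hwσ] at h11
              have h12 := congrFun h11 (Sch.ι n)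
              rw [Function.update_self] at h12
              exact hz' _ h12
            · by_cases hι : Sch.ι n = Sch.ι σ
              · have := Sch.line n hnT σ (by omega) hι (by
                  intro j hj
                  have h12 := congrFun h11 j
                  rw [Function.update_of_ne hj, Function.update_of_ne (by rw [← hι]; exact hj)]
                    at h12
                  exact Subtype.ext ((X j).word_injective h12))
                omega
              · have h12 := congrFun h11 (Sch.ι n)
                rw [Function.update_self, Function.update_of_ne hι] at h12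
                exact hz' _ h12
    · intro S hS
      rw [e, trace_append, h2, ← List.cons_append] at hS
      rcases List.mem_append.1 hS with h | h
      · rcases h4 S h with h | h | ⟨σ, hσ, z', hz1, hz2⟩
        · exact Or.inl h
        · exact Or.inr (Or.inl h)
        · exact Or.inr (Or.inr ⟨σ, by omega, z', hz1, hz2⟩)
      · obtain ⟨z, hz, hz'⟩ := hnew S h
        exact Or.inr (Or.inr ⟨n, by omega, z, hz, hz'⟩)

/-- A schedule of length `T` yields `2 ^ T` games. -/
theorem games_ge [Fintype V] [∀ i, Fintype (C i)] {T : ℕ}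
    (Sch : Schedule I (Cont X) T) (hring : ∃ v, L.ring v)
    (hfinite : {g : List (Option V) | PlaysOut G [] (fun _ => none) true false g}.Finite) :
    2 ^ T ≤ {g : List (Option V) | PlaysOut G [] (fun _ => none) true false g}.ncard := by
  classical
  obtain ⟨r0, hr0⟩ := hring
  -- initial part
  set Q := L.glob (words X (Sch.W 0)) with hQ
  have hQleg : Legal G Q := glob_legal X L _ (words_safe X _) (words_legal X _)
  have hQr : Q r0 = some true := L.glob_ring _ hr0
  let vs : List V := (Finset.univ.filter (fun v => Q v ≠ none ∧ v ≠ r0)).toList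
  have hvs : ∀ v, v ∈ vs ↔ Q v ≠ none ∧ v ≠ r0 := by intro v; simp [vs]
  obtain ⟨k1, k2, k3, k4⟩ := fill_spec hQleg vs (fun _ => none) (fun _ => Or.inl rfl)
    (Finset.nodup_toList _) (fun v hv => ⟨rfl, ((hvs v).1 hv).1⟩)
  have hr0vs : r0 ∉ vs := fun h => ((hvs r0).1 h).2 rfl
  have hfr : final G (fun _ => none) (fillMoves Q vs) r0 = none := by
    rw [k2]
    simp only [if_neg hr0vs]
  have hupd : Function.update (final G (fun _ => none) (fillMoves Q vs)) r0 (some true) = Q := by
    funext v
    by_cases hv : v = r0
    · subst hv; rw [Function.update_self, hQr]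
    · rw [Function.update_of_ne hv, k2]
      by_cases h : v ∈ vs
      · simp only [if_pos h]
      · simp only [if_neg h]
        by_contra h'
        exact h ((hvs v).2 ⟨fun h'' => h' h''.symm, hv⟩)
  have hpl : place G (final G (fun _ => none) (fillMoves Q vs)) true r0 = Q := by
    rw [place_of_legal (by rw [hupd]; exact hQleg), hupd]
  let l0 : List (Bool × V) := fillMoves Q vs ++ [(true, r0)]
  have hok0 : Ok G (fun _ => none) l0 := by
    rw [ok_append]
    exact ⟨k1, hfr, trivial⟩
  have hfin0 : final G (fun _ => none) l0 = Q := by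
    rw [final_append]; simp [hpl]
  have htr : trace G (fun _ => none) l0 = trace G (fun _ => none) (fillMoves Q vs) ++ [Q] := by
    rw [trace_append]; simp [hpl]
  have hpart : ∀ S ∈ (fun _ => none) :: trace G (fun _ => none) (fillMoves Q vs), S r0 = none := by
    intro S hS
    rcases List.mem_cons.1 hS with rfl | hS
    · rfl
    · rw [(k4 S hS).2.2 r0 hr0vs]
  have hnd0 : ((fun _ => none) :: trace G (fun _ => none) l0).Nodup := by
    rw [htr, ← List.cons_append, List.nodup_append]
    refine ⟨k3, by simp, ?_⟩
    intro S hS S' hS' h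
    rw [List.mem_singleton.1 hS'] at h
    have := hpart S hS
    rw [h, hQr] at this
    exact absurd this (by simp)
  have htr0 : ∀ S ∈ (fun _ => none) :: trace G (fun _ => none) l0, S r0 = none ∨
      S = L.glob (words X (Sch.W 0)) := by
    intro S hS
    rw [htr, ← List.cons_append] at hS
    rcases List.mem_append.1 hS with h | h
    · exact Or.inl (hpart S h)
    · exact Or.inr (List.mem_singleton.1 h)
  -- the games
  let ext : (Fin T → Bool) → ℕ → Bool := fun ε n => if h : n < T then ε ⟨n, h⟩ else false
  let F : (Fin T → Bool) → List (Option V) := fun ε => enc true (wholePlay X L Sch l0 T (ext ε))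
  have hF : ∀ ε, F ε ∈ {g : List (Option V) | PlaysOut G [] (fun _ => none) true false g} := by
    intro ε
    obtain ⟨m1, m2, m3, m4⟩ := wholePlay_spec X L Sch l0 (fun _ => none) r0 hr0 hok0 hfin0 hnd0
      htr0 T le_rfl (ext ε)
    exact enc_plays _ _ _ _ m1 m3 (by simp)
  have hinj : Function.Injective F := by
    intro ε ε' h
    have h1 := enc_injective _ _ _ h
    have h2 := (wholePlay_inj X L Sch l0 T le_rfl (ext ε) (ext ε')).2 h1
    funext n
    have := h2 n n.2
    simpa [ext] using this
  calc 2 ^ T = (Set.univ : Set (Fin T → Bool)).ncard := by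
        rw [Set.ncard_univ, Nat.card_eq_fintype_card]; simp
    _ ≤ _ := Set.ncard_le_ncard_of_injOn F (fun ε _ => hF ε) hinj.injOn hfinite

end assembly

end Pool.Agent.helper12.Go
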