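import Pool.Agent.helper12.GoCell

set_option autoImplicit false

namespace Pool.Agent.helper12.Go

open Relation

/-- A family (indexed by `I`) of pairwise separated cells, with cell graphs `H i` on `C i`, in the
board graph `G`, each surrounded by ring points, each ring point having a neighbour in the moat. -/
structure Layout (V I : Type) (C : I → Type) (G : SimpleGraph V) (H : ∀ i, SimpleGraph (C i))
    (bdry : ∀ i, C i → Prop) where
  emb : ∀ i, C i → V
  kind : V → Option (Σ i, C i)
  ring : V → Prop
  kind_emb : ∀ i u, kind (emb i u) = some ⟨i, u⟩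
  emb_kind : ∀ v i u, kind v = some ⟨i, u⟩ → emb i u = v
  ring_kind : ∀ v, ring v → kind v = none
  adj_iff : ∀ i u u', G.Adj (emb i u) (emb i u') ↔ (H i).Adj u u'
  nbr : ∀ i u v, G.Adj (emb i u) v → (∃ u', v = emb i u') ∨ (ring v ∧ bdry i u)
  ring_lib : ∀ v, ring v → ∃ w, G.Adj v w ∧ kind w = none ∧ ¬ ring w

/-- no black stone on the boundary of the cell -/
def Safe {C : Type} (bdry : C → Prop) (P : Position C) : Prop := ∀ u, bdry u → P u ≠ some true

theorem safe_removeDead {C : Type} {H : SimpleGraph C} {bdry : C → Prop} {P : Position C}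
    (h : Safe bdry P) (c : Bool) :
    Safe bdry (removeDead H c P) := by
  intro u hu
  rcases removeDead_eq_or (G := H) (c := c) (P := P) u with h1 | h1
  · rw [h1]; simp
  · rw [h1]; exact h u hu

theorem safe_update {C : Type} {bdry : C → Prop} [DecidableEq C] {P : Position C}
    (h : Safe bdry P) {c : Bool} {v : C}
    (hc : bdry v → c = false) : Safe bdry (Function.update P v (some c)) := by
  intro u hu
  by_cases huv : u = v
  · subst huv
    rw [Function.update_self, hc hu]
    simp
  · rw [Function.update_of_ne huv]; exact h u hu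

theorem safe_place {C : Type} {H : SimpleGraph C} {bdry : C → Prop} {P : Position C}
    (h : Safe bdry P) {c : Bool} {v : C}
    (hc : bdry v → c = false) : Safe bdry (place H P c v) := by
  classical
  rw [place_eq]
  exact safe_removeDead (safe_removeDead (safe_update h hc) _) _

namespace Layout

variable {V I : Type} {C : I → Type} {G : SimpleGraph V} {H : ∀ i, SimpleGraph (C i)}
  {bdry : ∀ i, C i → Prop} (L : Layout V I C G H bdry)

open Classical in
/-- the global position assembled from the states of the cells -/
noncomputable def glob (S : ∀ i, Position (C i)) : Position V := fun v =>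
  match L.kind v with
  | some iu => S iu.1 iu.2
  | none => if L.ring v then some true else none

theorem glob_emb (S : ∀ i, Position (C i)) (i : I) (u : C i) : L.glob S (L.emb i u) = S i u := by
  unfold glob
  rw [L.kind_emb]

theorem glob_ring (S : ∀ i, Position (C i)) {v : V} (h : L.ring v) :
    L.glob S v = some true := by
  unfold glob
  rw [L.ring_kind v h]
  simp [h]

theorem glob_moat (S : ∀ i, Position (C i)) {v : V} (h : L.kind v = none) (h' : ¬ L.ring v) :
    L.glob S v = none := by
  unfold glob
  rw [h]
  simp [h']

theorem emb_injective (i : I) : Function.Injective (L.emb i) := by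
  intro u u' h
  have h1 := L.kind_emb i u
  rw [h, L.kind_emb] at h1
  have h2 := Option.some.inj h1
  simpa using h2.symm

theorem glob_injective : Function.Injective L.glob := by
  intro S S' h
  funext i u
  rw [← L.glob_emb S i u, ← L.glob_emb S' i u, h]

theorem cases_pt (v : V) : (∃ i u, v = L.emb i u) ∨ L.ring v ∨ (L.kind v = none ∧ ¬ L.ring v) := by
  rcases h : L.kind v with _ | ⟨i, u⟩
  · by_cases h' : L.ring v
    · exact Or.inr (Or.inl h')
    · exact Or.inr (Or.inr ⟨rfl, h'⟩)
  · exact Or.inl ⟨i, u, (L.emb_kind v i u h).symm⟩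

theorem ring_hasLib (S : ∀ i, Position (C i)) {v : V} (h : L.ring v) :
    HasLiberty G (L.glob S) v := by
  obtain ⟨w, h1, h2, h3⟩ := L.ring_lib v h
  exact HasLiberty.of_adj h1 (L.glob_moat S h2 h3)

theorem lib_iff (S : ∀ i, Position (C i)) {i : I} (hS : Safe (bdry i) (S i)) {u : C i} :
    HasLiberty G (L.glob S) (L.emb i u) ↔ HasLiberty (H i) (S i) u := by
  constructor
  · rintro ⟨x, w, h1, h2, h3⟩
    have key : ∃ x', x = L.emb i x' ∧ ReflTransGen (Same (H i) (S i)) u x' := by
      clear h2 h3
      induction h1 with
      | refl => exact ⟨u, rfl, ReflTransGen.refl⟩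
      | @tail b c _ h5 ih =>
        obtain ⟨b', rfl, hb'⟩ := ih
        rcases L.nbr i b' c h5.1 with ⟨c', rfl⟩ | ⟨hr, hb⟩
        · refine ⟨c', rfl, hb'.tail ⟨(L.adj_iff i b' c').1 h5.1, ?_⟩⟩
          have := h5.2
          rwa [L.glob_emb, L.glob_emb] at this
        · exfalso
          have := h5.2
          rw [L.glob_emb, L.glob_ring S hr] at this
          exact hS b' hb this
    obtain ⟨x', rfl, hx'⟩ := key
    rcases L.nbr i x' w h2 with ⟨w', rfl⟩ | ⟨hr, -⟩
    · exact ⟨x', w', hx', (L.adj_iff i x' w').1 h2, by rwa [L.glob_emb] at h3⟩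
    · rw [L.glob_ring S hr] at h3
      exact absurd h3 (by simp)
  · rintro ⟨x, w, h1, h2, h3⟩
    refine ⟨L.emb i x, L.emb i w, ?_, (L.adj_iff i x w).2 h2, by rw [L.glob_emb]; exact h3⟩
    clear h2 h3
    induction h1 with
    | refl => exact ReflTransGen.refl
    | tail _ h5 ih =>
      refine ih.tail ⟨(L.adj_iff i _ _).2 h5.1, ?_⟩
      rw [L.glob_emb, L.glob_emb]
      exact h5.2

theorem removeDead_glob (S : ∀ i, Position (C i)) (hS : ∀ i, Safe (bdry i) (S i)) (c : Bool) :
    removeDead G c (L.glob S) = L.glob (fun i => removeDead (H i) c (S i)) := by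
  funext v
  rcases L.cases_pt v with ⟨i, u, rfl⟩ | hr | ⟨h1, h2⟩
  · rw [L.glob_emb]
    unfold removeDead
    rw [L.glob_emb, L.lib_iff S (hS i)]
  · rw [L.glob_ring _ hr, removeDead_of_lib (L.ring_hasLib S hr), L.glob_ring _ hr]
  · rw [L.glob_moat _ h1 h2, removeDead_of_none (L.glob_moat _ h1 h2)]

theorem emb_index {i j : I} {u : C i} {w : C j} (h : L.emb i u = L.emb j w) : i = j := by
  have h1 := L.kind_emb i u
  rw [h, L.kind_emb] at h1
  exact (congrArg Sigma.fst (Option.some.inj h1)).symm

open Classical in
theorem update_glob (S : ∀ i, Position (C i)) (i : I) (u : C i) (x : Option Bool) :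
    Function.update (L.glob S) (L.emb i u) x =
      L.glob (Function.update S i (Function.update (S i) u x)) := by
  funext v
  rcases L.cases_pt v with ⟨j, w, rfl⟩ | hr | ⟨h1, h2⟩
  · rw [L.glob_emb]
    by_cases hji : j = i
    · subst hji
      rw [Function.update_self]
      by_cases hwu : w = u
      · subst hwu; simp
      · rw [Function.update_of_ne (fun h => hwu (L.emb_injective j h)), L.glob_emb,
          Function.update_of_ne hwu]
    · rw [Function.update_of_ne hji, Function.update_of_ne, L.glob_emb]
      intro h
      exact hji (L.emb_index h)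
  · rw [Function.update_of_ne, L.glob_ring _ hr, L.glob_ring _ hr]
    rintro rfl
    have := L.ring_kind _ hr
    rw [L.kind_emb] at this
    exact absurd this (by simp)
  · rw [Function.update_of_ne, L.glob_moat _ h1 h2, L.glob_moat _ h1 h2]
    rintro rfl
    rw [L.kind_emb] at h1
    exact absurd h1 (by simp)

open Classical in
theorem place_glob (S : ∀ i, Position (C i)) (hS : ∀ i, Safe (bdry i) (S i))
    (hl : ∀ i, Legal (H i) (S i)) (i : I) (u : C i) (c : Bool) (hc : bdry i u → c = false) :
    place G (L.glob S) c (L.emb i u) =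
      L.glob (Function.update S i (place (H i) (S i) c u)) := by
  rw [place_eq, place_eq, L.update_glob]
  set S1 := Function.update S i (Function.update (S i) u (some c)) with hS1
  have h1 : ∀ j, Safe (bdry j) (S1 j) := by
    intro j
    by_cases hj : j = i
    · subst hj
      rw [hS1, Function.update_self]
      exact safe_update (hS j) hc
    · rw [hS1, Function.update_of_ne hj]; exact hS j
  rw [L.removeDead_glob S1 h1, L.removeDead_glob _ (fun j => safe_removeDead (h1 j) _)]
  congr 1
  funext j
  by_cases hj : j = i
  · subst hj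
    rw [Function.update_self, hS1, Function.update_self]
  · rw [Function.update_of_ne hj, hS1, Function.update_of_ne hj, removeDead_of_legal (hl j),
      removeDead_of_legal (hl j)]

open Classical in
/-- playing a list of local moves in cell `i` -/
theorem play_glob (i : I) (l : List (Bool × C i)) (hc : ∀ mv ∈ l, bdry i mv.2 → mv.1 = false)
    (S : ∀ i, Position (C i)) (hS : ∀ j, Safe (bdry j) (S j)) (hl : ∀ j, Legal (H j) (S j))
    (hok : Ok (H i) (S i) l) :
    Ok G (L.glob S) (l.map (fun mv => (mv.1, L.emb i mv.2))) ∧
    trace G (L.glob S) (l.map (fun mv => (mv.1, L.emb i mv.2))) =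
      (trace (H i) (S i) l).map (fun z => L.glob (Function.update S i z)) ∧
    final G (L.glob S) (l.map (fun mv => (mv.1, L.emb i mv.2))) =
      L.glob (Function.update S i (final (H i) (S i) l)) := by
  induction l generalizing S with
  | nil => simp
  | cons mv l ih =>
    have hpl := L.place_glob S hS hl i mv.2 mv.1 (hc mv (by simp))
    set S' := Function.update S i (place (H i) (S i) mv.1 mv.2) with hS'
    have hS'i : S' i = place (H i) (S i) mv.1 mv.2 := by rw [hS', Function.update_self]
    have h1 : ∀ j, Safe (bdry j) (S' j) := by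
      intro j
      by_cases hj : j = i
      · subst hj; rw [hS'i]; exact safe_place (hS j) (hc mv (by simp))
      · rw [hS', Function.update_of_ne hj]; exact hS j
    have h2 : ∀ j, Legal (H j) (S' j) := by
      intro j
      by_cases hj : j = i
      · subst hj; rw [hS'i]; exact place_legal _ _ _
      · rw [hS', Function.update_of_ne hj]; exact hl j
    obtain ⟨h3, h4, h5⟩ := ih (fun mv' h => hc mv' (List.mem_cons_of_mem _ h)) S' h1 h2
      (by rw [hS'i]; exact hok.2)
    have hupd : ∀ z, Function.update S' i z = Function.update S i z := by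
      intro z; rw [hS', Function.update_idem]
    refine ⟨?_, ?_, ?_⟩
    · rw [List.map_cons, ok_cons]
      refine ⟨by rw [L.glob_emb]; exact hok.1, ?_⟩
      rw [hpl]; exact h3
    · rw [List.map_cons, trace_cons, hpl, h4, trace_cons, List.map_cons, hS'i]
      simp only [hupd]
      rw [hS']
    · rw [List.map_cons, final_cons, hpl, h5, final_cons, hS'i, hupd]

end Layout

end Pool.Agent.helper12.Go
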