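import Pool.Agent.helper12.GoBoardCell

set_option autoImplicit false

namespace Pool.Agent.helper12.Go

open Relation

/-- the square with corner `(X, Y)` and side `m` -/
def sq (X Y m : ℕ) : Set (ℕ × ℕ) := {p | X ≤ p.1 ∧ p.1 < X + m ∧ Y ≤ p.2 ∧ p.2 < Y + m}

theorem mem_sq {X Y m x y : ℕ} : (x, y) ∈ sq X Y m ↔ X ≤ x ∧ x < X + m ∧ Y ≤ y ∧ y < Y + m :=
  Iff.rfl

/-- disjoint squares in the `n × n` board, the `i`-th of side `b i + 7` -/
structure Sqs (n : ℕ) (I : Type) where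
  X : I → ℕ
  Y : I → ℕ
  b : I → ℕ
  hb : ∀ i, 1 ≤ b i
  hX : ∀ i, X i + b i + 7 ≤ n
  hY : ∀ i, Y i + b i + 7 ≤ n
  disj : ∀ i j p, p ∈ sq (X i) (Y i) (b i + 7) → p ∈ sq (X j) (Y j) (b j + 7) → i = j

namespace Sqs

variable {n : ℕ} {I : Type} (S : Sqs n I)

/-- the embedding of the `i`-th cell -/
def emb (i : I) (u : Fin (S.b i + 3) × Fin (S.b i + 3)) : Fin n × Fin n :=
  (⟨S.X i + 2 + u.1.val, by have := S.hX i; omega⟩, ⟨S.Y i + 2 + u.2.val, by have := S.hY i; omega⟩)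

theorem emb_fst (i : I) (u : Fin (S.b i + 3) × Fin (S.b i + 3)) :
    (S.emb i u).1.val = S.X i + 2 + u.1.val := rfl

theorem emb_snd (i : I) (u : Fin (S.b i + 3) × Fin (S.b i + 3)) :
    (S.emb i u).2.val = S.Y i + 2 + u.2.val := rfl

/-- the coordinates -/
def co (v : Fin n × Fin n) : ℕ × ℕ := (v.1.val, v.2.val)

/-- the ring of the `i`-th square -/
def ringAt (i : I) (v : Fin n × Fin n) : Prop :=
  (S.X i + 1 ≤ v.1.val ∧ v.1.val < S.X i + S.b i + 6 ∧ S.Y i + 1 ≤ v.2.val ∧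
    v.2.val < S.Y i + S.b i + 6) ∧
  ¬ (S.X i + 2 ≤ v.1.val ∧ v.1.val < S.X i + S.b i + 5 ∧ S.Y i + 2 ≤ v.2.val ∧
    v.2.val < S.Y i + S.b i + 5)

open Classical in
/-- the cell and local point -/
noncomputable def kind (v : Fin n × Fin n) : Option (Σ i, Fin (S.b i + 3) × Fin (S.b i + 3)) :=
  if h : ∃ iu : Σ i, Fin (S.b i + 3) × Fin (S.b i + 3), S.emb iu.1 iu.2 = v then some h.choose
  else none

theorem emb_mem (i : I) (u : Fin (S.b i + 3) × Fin (S.b i + 3)) :
    co (S.emb i u) ∈ sq (S.X i) (S.Y i) (S.b i + 7) := by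
  unfold co
  rw [mem_sq, emb_fst, emb_snd]
  omega

theorem emb_sigma (iu ju : Σ i, Fin (S.b i + 3) × Fin (S.b i + 3))
    (h : S.emb iu.1 iu.2 = S.emb ju.1 ju.2) : iu = ju := by
  obtain ⟨i, u⟩ := iu
  obtain ⟨j, w⟩ := ju
  have hij : i = j := S.disj i j _ (S.emb_mem i u) (by
    have := S.emb_mem j w
    simp only at h
    rw [← h] at this
    exact this)
  subst hij
  simp only at h
  rw [pt_eq, emb_fst, emb_snd, emb_fst, emb_snd] at h
  have : u = w := by
    rw [pt_eq]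
    omega
  rw [this]

theorem kind_emb (i : I) (u : Fin (S.b i + 3) × Fin (S.b i + 3)) :
    S.kind (S.emb i u) = some ⟨i, u⟩ := by
  have h : ∃ iu : Σ i, Fin (S.b i + 3) × Fin (S.b i + 3), S.emb iu.1 iu.2 = S.emb i u :=
    ⟨⟨i, u⟩, rfl⟩
  unfold kind
  rw [dif_pos h, S.emb_sigma h.choose ⟨i, u⟩ h.choose_spec]

theorem emb_kind (v : Fin n × Fin n) (i : I) (u : Fin (S.b i + 3) × Fin (S.b i + 3))
    (h : S.kind v = some ⟨i, u⟩) : S.emb i u = v := by
  unfold kind at h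
  split_ifs at h with h1
  have h2 := h1.choose_spec
  rw [Option.some.inj h] at h2
  exact h2

theorem kind_none (v : Fin n × Fin n) (i : I) (hv : co v ∈ sq (S.X i) (S.Y i) (S.b i + 7))
    (hn : ¬ (S.X i + 2 ≤ v.1.val ∧ v.1.val < S.X i + S.b i + 5 ∧ S.Y i + 2 ≤ v.2.val ∧
    v.2.val < S.Y i + S.b i + 5)) : S.kind v = none := by
  rcases h : S.kind v with _ | ⟨j, u⟩
  · rfl
  · exfalso
    have h1 := S.emb_kind v j u h
    subst h1
    have hij : i = j := S.disj i j _ hv (S.emb_mem j u)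
    subst hij
    rw [emb_fst, emb_snd] at hn
    omega

theorem ringAt_mem (i : I) (v : Fin n × Fin n) (h : S.ringAt i v) :
    co v ∈ sq (S.X i) (S.Y i) (S.b i + 7) := by
  unfold ringAt at h
  unfold co
  rw [mem_sq]
  omega

theorem not_ring (v : Fin n × Fin n) (i : I) (hv : co v ∈ sq (S.X i) (S.Y i) (S.b i + 7))
    (hn : ¬ S.ringAt i v) : ¬ ∃ j, S.ringAt j v := by
  rintro ⟨j, hj⟩
  have hij : i = j := S.disj i j _ hv (S.ringAt_mem j v hj)
  subst hij
  exact hn hj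

/-- the layout given by disjoint squares -/
noncomputable def layout : Layout (Fin n × Fin n) I (fun i => Fin (S.b i + 3) × Fin (S.b i + 3))
    (board n) (fun i => (boardCell (S.b i) (S.hb i)).H)
    (fun i => (boardCell (S.b i) (S.hb i)).bdry) where
  emb := S.emb
  kind := S.kind
  ring v := ∃ i, S.ringAt i v
  kind_emb := S.kind_emb
  emb_kind := S.emb_kind
  ring_kind := by
    rintro v ⟨i, hi⟩
    exact S.kind_none v i (S.ringAt_mem i v hi) hi.2
  adj_iff := by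
    intro i u u'
    show _ ↔ (board (S.b i + 3)).Adj u u'
    rw [board_adj, board_adj, emb_fst, emb_snd, emb_fst, emb_snd]
    omega
  nbr := by
    intro i u v h
    have hX := S.hX i
    have hY := S.hY i
    have h1 := u.1.isLt
    have h2 := u.2.isLt
    rw [board_adj, emb_fst, emb_snd] at h
    by_cases hc : S.X i + 2 ≤ v.1.val ∧ v.1.val < S.X i + S.b i + 5 ∧ S.Y i + 2 ≤ v.2.val ∧
        v.2.val < S.Y i + S.b i + 5
    · left
      refine ⟨(⟨v.1.val - (S.X i + 2), by omega⟩, ⟨v.2.val - (S.Y i + 2), by omega⟩), ?_⟩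
      rw [pt_eq, emb_fst, emb_snd]
      simp only
      omega
    · right
      refine ⟨⟨i, ?_⟩, ?_⟩
      · refine ⟨?_, hc⟩
        omega
      · show u.1.val = 0 ∨ u.2.val = 0 ∨ u.1.val = S.b i + 2 ∨ u.2.val = S.b i + 2
        omega
  ring_lib := by
    rintro v ⟨i, hi⟩
    have hX := S.hX i
    have hY := S.hY i
    have h1 := v.1.isLt
    have h2 := v.2.isLt
    unfold ringAt at hi
    have key : ∀ w : Fin n × Fin n, (w.1.val = S.X i ∨ w.1.val = S.X i + S.b i + 6 ∨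
        w.2.val = S.Y i ∨ w.2.val = S.Y i + S.b i + 6) →
        co w ∈ sq (S.X i) (S.Y i) (S.b i + 7) → S.kind w = none ∧ ¬ ∃ j, S.ringAt j w := by
      intro w hw hw'
      refine ⟨S.kind_none w i hw' (by omega), S.not_ring w i hw' ?_⟩
      unfold ringAt
      omega
    have hcase : v.1.val = S.X i + 1 ∨ v.1.val = S.X i + S.b i + 5 ∨ v.2.val = S.Y i + 1 ∨
        v.2.val = S.Y i + S.b i + 5 := by omega
    rcases hcase with h | h | h | h
    · refine ⟨(⟨S.X i, by omega⟩, v.2), ?_, key _ (Or.inl rfl) ?_⟩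
      · rw [board_adj]; simp only; grind
      · unfold co; rw [mem_sq]; simp only; omega
    · refine ⟨(⟨S.X i + S.b i + 6, by omega⟩, v.2), ?_, key _ (Or.inr (Or.inl rfl)) ?_⟩
      · rw [board_adj]; simp only; grind
      · unfold co; rw [mem_sq]; simp only; omega
    · refine ⟨(v.1, ⟨S.Y i, by omega⟩), ?_, key _ (Or.inr (Or.inr (Or.inl rfl))) ?_⟩
      · rw [board_adj]; simp only; grind
      · unfold co; rw [mem_sq]; simp only; omega
    · refine ⟨(v.1, ⟨S.Y i + S.b i + 6, by omega⟩), ?_, key _ (Or.inr (Or.inr (Or.inr rfl))) ?_⟩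
      · rw [board_adj]; simp only; grind
      · unfold co; rw [mem_sq]; simp only; omega

end Sqs

/-- the legal positions on the `b × b` board -/
abbrev LegalPos (b : ℕ) : Type := {y : Position (Fin b × Fin b) // Legal (board b) y}

/-- There is a schedule through `N` words, the cells being placed in disjoint squares in the
region `R`. -/
def Tour (R : Set (ℕ × ℕ)) (N : ℕ) : Prop :=
  ∃ (I : Type) (X Y b : I → ℕ) (T : ℕ) (_ : Schedule I (fun i => LegalPos (b i)) T),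
    N = T + 1 ∧ (∀ i, 1 ≤ b i) ∧ (∀ i, sq (X i) (Y i) (b i + 7) ⊆ R) ∧
    (∀ i j p, p ∈ sq (X i) (Y i) (b i + 7) → p ∈ sq (X j) (Y j) (b j + 7) → i = j)

theorem Tour.mono {R R' : Set (ℕ × ℕ)} (h : R ⊆ R') {N : ℕ} (hT : Tour R N) : Tour R' N := by
  obtain ⟨I, X, Y, b, T, S, h1, h2, h3, h4⟩ := hT
  exact ⟨I, X, Y, b, T, S, h1, h2, fun i => (h3 i).trans h, h4⟩

theorem exists_enum {Z : Type} [Finite Z] {s : ℕ} (hs : s ≤ Nat.card Z) (h1 : 1 ≤ s) :
    ∃ y : ℕ → Z, ∀ k < s, ∀ l < s, y k = y l → k = l := by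
  have e := Finite.equivFin Z
  have hpos : 0 < Nat.card Z := by omega
  refine ⟨fun k => if h : k < Nat.card Z then e.symm ⟨k, h⟩ else e.symm ⟨0, hpos⟩, ?_⟩
  intro k hk l hl h
  simp only [dif_pos (lt_of_lt_of_le hk hs), dif_pos (lt_of_lt_of_le hl hs)] at h
  simpa using e.symm.injective h

theorem card_legalPos (b : ℕ) : Nat.card (LegalPos b) = legalCount b := by
  unfold legalCount
  rw [← Nat.card_coe_set_eq]
  rfl

/-- two equal cells -/
theorem tour_base {b s X1 Y1 X2 Y2 : ℕ} (hb : 1 ≤ b) (hs1 : 1 ≤ s) (hs : s ≤ legalCount b)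
    (hd : ∀ p, p ∈ sq X1 Y1 (b + 7) → p ∈ sq X2 Y2 (b + 7) → False) :
    Tour (sq X1 Y1 (b + 7) ∪ sq X2 Y2 (b + 7)) (2 * (s - 1) + 1) := by
  rw [← card_legalPos] at hs
  obtain ⟨y, hy⟩ := exists_enum hs hs1
  refine ⟨Bool, fun i => if i then X1 else X2, fun i => if i then Y1 else Y2, fun _ => b, _,
    Schedule.base y s hy, rfl, fun _ => hb, ?_, ?_⟩
  · rintro (_ | _)
    · exact Set.subset_union_right
    · exact Set.subset_union_left
  · rintro (_ | _) (_ | _) p h1 h2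
    · rfl
    · exact (hd p h2 h1).elim
    · exact (hd p h1 h2).elim
    · rfl

/-- one more cell -/
theorem tour_add {R : Set (ℕ × ℕ)} {N b s X0 Y0 : ℕ} (hT : Tour R N) (hb : 1 ≤ b) (hs1 : 1 ≤ s)
    (hs : s ≤ legalCount b) (hsN : s ≤ N) (hd : ∀ p, p ∈ sq X0 Y0 (b + 7) → p ∈ R → False) :
    ∃ N', Tour (R ∪ sq X0 Y0 (b + 7)) N' ∧ s * N ≤ 2 * N' := by
  obtain ⟨I, X, Y, b', T, S, rfl, h2, h3, h4⟩ := hT
  rw [← card_legalPos] at hs
  obtain ⟨y, hy⟩ := exists_enum hs hs1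
  have hge := zR_ge hsN
  have hpos : 0 < zR (T + 1) s := by
    rcases Nat.eq_zero_or_pos (zR (T + 1) s) with h | h
    · rw [h] at hge
      have : 0 < s * (T + 1) := Nat.mul_pos (by omega) (Nat.succ_pos T)
      omega
    · exact h
  refine ⟨zR (T + 1) s, ?_, hge⟩
  let bb : Option I → ℕ := fun o => match o with | none => b | some i => b' i
  let XX : Option I → ℕ := fun o => match o with | none => X0 | some i => X i
  let YY : Option I → ℕ := fun o => match o with | none => Y0 | some i => Y i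
  have hYY : (OptY (LegalPos b) (fun i => LegalPos (b' i)) : Option I → Type) =
      fun o => LegalPos (bb o) := by
    funext o
    rcases o with _ | i <;> rfl
  have Sch := Schedule.add S y s hy hsN
  rw [hYY] at Sch
  refine ⟨Option I, XX, YY, bb, _, Sch, by omega, ?_, ?_, ?_⟩
  · rintro (_ | i)
    · exact hb
    · exact h2 i
  · rintro (_ | i)
    · exact Set.subset_union_right
    · exact (h3 i).trans Set.subset_union_left
  · rintro (_ | i) (_ | j) p h5 h6
    · rfl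
    · exact (hd p h5 (h3 j h6)).elim
    · exact (hd p h6 (h3 i h5)).elim
    · rw [h4 i j p h5 h6]

/-- A tour in the `n × n` board gives games. -/
theorem tour_games {R : Set (ℕ × ℕ)} {N n : ℕ} (hT : Tour R N)
    (hR : ∀ p ∈ R, p.1 < n ∧ p.2 < n) (hfinite : {g | IsGame n g}.Finite) :
    2 ^ (N - 1) ≤ gameCount n := by
  obtain ⟨I, X, Y, b, T, S, rfl, h2, h3, h4⟩ := hT
  have hX : ∀ i, X i + b i + 7 ≤ n := by
    intro i
    have := hR _ (h3 i (show (X i + b i + 6, Y i) ∈ sq (X i) (Y i) (b i + 7) by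
      rw [mem_sq]; omega))
    have h5 := this.1
    simp only at h5
    omega
  have hY : ∀ i, Y i + b i + 7 ≤ n := by
    intro i
    have := hR _ (h3 i (show (X i, Y i + b i + 6) ∈ sq (X i) (Y i) (b i + 7) by
      rw [mem_sq]; omega))
    have h5 := this.2
    simp only at h5
    omega
  let Q : Sqs n I := ⟨X, Y, b, h2, hX, hY, h4⟩
  refine games_ge (fun i => boardCell (b i) (h2 i)) Q.layout S ?_ hfinite
  have i := S.ι 0
  have h5 := hX i
  have h6 := hY i
  refine ⟨(⟨X i + 1, by omega⟩, ⟨Y i + 1, by omega⟩), i, ?_, ?_⟩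
  · show X i + 1 ≤ X i + 1 ∧ X i + 1 < X i + b i + 6 ∧ Y i + 1 ≤ Y i + 1 ∧ Y i + 1 < Y i + b i + 6
    omega
  · show ¬ (X i + 2 ≤ X i + 1 ∧ X i + 1 < X i + b i + 5 ∧ Y i + 2 ≤ Y i + 1 ∧
      Y i + 1 < Y i + b i + 5)
    omega

end Pool.Agent.helper12.Go
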