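import Pool.Agent.helper12.GoUpper
import Pool.Agent.helper12.GoPlace

set_option autoImplicit false

namespace Pool.Agent.helper12.Go

open Relation

section blocks

variable {b k : ℕ}

/-- the point `(x, y)` of the block `(i, j)` -/
def bpt (_hb : 0 < b) (ij : Fin k × Fin k) (u : Fin b × Fin b) : Fin (k * b) × Fin (k * b) :=
  (⟨ij.1.val * b + u.1.val, by
      have h1 := ij.1.isLt
      have h2 := u.1.isLt
      calc ij.1.val * b + u.1.val < ij.1.val * b + b := by omega
        _ = (ij.1.val + 1) * b := by ring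
        _ ≤ k * b := Nat.mul_le_mul_right _ h1⟩,
   ⟨ij.2.val * b + u.2.val, by
      have h1 := ij.2.isLt
      have h2 := u.2.isLt
      calc ij.2.val * b + u.2.val < ij.2.val * b + b := by omega
        _ = (ij.2.val + 1) * b := by ring
        _ ≤ k * b := Nat.mul_le_mul_right _ h1⟩)

/-- the block of a point -/
def blk (_hb : 0 < b) (v : Fin (k * b) × Fin (k * b)) : Fin k × Fin k :=
  (⟨v.1.val / b, Nat.div_lt_of_lt_mul (lt_of_lt_of_eq v.1.isLt (Nat.mul_comm _ _))⟩,
   ⟨v.2.val / b, Nat.div_lt_of_lt_mul (lt_of_lt_of_eq v.2.isLt (Nat.mul_comm _ _))⟩)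

/-- the local coordinates of a point -/
def loc (hb : 0 < b) (v : Fin (k * b) × Fin (k * b)) : Fin b × Fin b :=
  (⟨v.1.val % b, Nat.mod_lt _ hb⟩, ⟨v.2.val % b, Nat.mod_lt _ hb⟩)

theorem bpt_blk_loc (hb : 0 < b) (v : Fin (k * b) × Fin (k * b)) :
    bpt hb (blk hb v) (loc hb v) = v := by
  rw [pt_eq]
  unfold bpt blk loc
  simp only
  constructor
  · rw [Nat.mul_comm]; exact Nat.div_add_mod _ _
  · rw [Nat.mul_comm]; exact Nat.div_add_mod _ _

theorem blk_bpt (hb : 0 < b) (ij : Fin k × Fin k) (u : Fin b × Fin b) :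
    blk hb (bpt hb ij u) = ij := by
  rw [Prod.ext_iff, Fin.ext_iff, Fin.ext_iff]
  unfold bpt blk
  simp only
  constructor
  · rw [Nat.mul_comm, Nat.mul_add_div hb, Nat.div_eq_of_lt u.1.isLt, Nat.add_zero]
  · rw [Nat.mul_comm, Nat.mul_add_div hb, Nat.div_eq_of_lt u.2.isLt, Nat.add_zero]

theorem loc_bpt (hb : 0 < b) (ij : Fin k × Fin k) (u : Fin b × Fin b) :
    loc hb (bpt hb ij u) = u := by
  rw [Prod.ext_iff, Fin.ext_iff, Fin.ext_iff]
  unfold bpt loc
  simp only
  constructor
  · rw [Nat.mul_comm, Nat.mul_add_mod, Nat.mod_eq_of_lt u.1.isLt]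
  · rw [Nat.mul_comm, Nat.mul_add_mod, Nat.mod_eq_of_lt u.2.isLt]

theorem bpt_adj (hb : 0 < b) (ij : Fin k × Fin k) (u w : Fin b × Fin b) :
    (board (k * b)).Adj (bpt hb ij u) (bpt hb ij w) ↔ (board b).Adj u w := by
  rw [board_adj, board_adj]
  unfold bpt
  simp only
  omega

/-- Gluing legal positions gives a legal position. -/
theorem glue_legal (hb : 0 < b) (f : Fin k × Fin k → LegalPos b) :
    Legal (board (k * b)) (fun v => (f (blk hb v)).1 (loc hb v)) := by
  intro v hv
  obtain ⟨u, w, h1, h2, h3⟩ := (f (blk hb v)).2 (loc hb v) hv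
  have hval : ∀ x, (fun v => (f (blk hb v)).1 (loc hb v)) (bpt hb (blk hb v) x) =
      (f (blk hb v)).1 x := by
    intro x
    simp only [blk_bpt, loc_bpt]
  refine ⟨bpt hb (blk hb v) u, bpt hb (blk hb v) w, ?_, (bpt_adj hb _ _ _).2 h2, ?_⟩
  · have key : ∀ x, ReflTransGen (fun a c => (board b).Adj a c ∧
        (f (blk hb v)).1 a = (f (blk hb v)).1 c) (loc hb v) x →
        ReflTransGen (fun a c => (board (k * b)).Adj a c ∧
        (fun v => (f (blk hb v)).1 (loc hb v)) a = (fun v => (f (blk hb v)).1 (loc hb v)) c) v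
        (bpt hb (blk hb v) x) := by
      intro x hx
      induction hx with
      | refl => rw [bpt_blk_loc]
      | tail _ h5 ih =>
        refine ih.tail ⟨(bpt_adj hb _ _ _).2 h5.1, ?_⟩
        rw [hval, hval]
        exact h5.2
    exact key u h1
  · rw [hval]; exact h3

theorem legal_super (hb : 0 < b) : legalCount b ^ (k ^ 2) ≤ legalCount (k * b) := by
  rw [← card_legalPos, ← card_legalPos]
  have h : Nat.card (Fin k × Fin k → LegalPos b) ≤ Nat.card (LegalPos (k * b)) := by
    refine Nat.card_le_card_of_injective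
      (fun f => (⟨fun v => (f (blk hb v)).1 (loc hb v), glue_legal hb f⟩ : LegalPos (k * b))) ?_
    intro f g h
    have h' := congrArg Subtype.val h
    funext ij
    apply Subtype.ext
    funext u
    have h2 := congrFun h' (bpt hb ij u)
    simpa only [blk_bpt, loc_bpt] using h2
  rw [Nat.card_fun] at h
  simpa [sq, pow_two] using h

/-- the restriction of a position to a block, surrounded by empty points -/
def restr (hb : 0 < b) (P : Position (Fin (k * b) × Fin (k * b))) (ij : Fin k × Fin k) :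
    Position (Fin (b + 2) × Fin (b + 2)) := fun u =>
  if h : 1 ≤ u.1.val ∧ u.1.val < b + 1 ∧ 1 ≤ u.2.val ∧ u.2.val < b + 1 then
    P (bpt hb ij (⟨u.1.val - 1, by omega⟩, ⟨u.2.val - 1, by omega⟩)) else none

/-- the inner points of the enlarged block -/
def inn (u : Fin b × Fin b) : Fin (b + 2) × Fin (b + 2) :=
  (⟨u.1.val + 1, by omega⟩, ⟨u.2.val + 1, by omega⟩)

theorem restr_inn (hb : 0 < b) (P : Position (Fin (k * b) × Fin (k * b))) (ij : Fin k × Fin k)
    (u : Fin b × Fin b) : restr hb P ij (inn u) = P (bpt hb ij u) := by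
  unfold restr
  have h1 := u.1.isLt
  have h2 := u.2.isLt
  rw [dif_pos (by unfold inn; simp only; omega)]
  rfl

theorem inn_or {u : Fin (b + 2) × Fin (b + 2)} :
    (∃ u', u = inn u') ∨ ∀ (hb : 0 < b) (P : Position (Fin (k * b) × Fin (k * b)))
      (ij : Fin k × Fin k), restr hb P ij u = none := by
  by_cases h : 1 ≤ u.1.val ∧ u.1.val < b + 1 ∧ 1 ≤ u.2.val ∧ u.2.val < b + 1
  · left
    refine ⟨(⟨u.1.val - 1, by omega⟩, ⟨u.2.val - 1, by omega⟩), ?_⟩
    rw [pt_eq]
    unfold inn
    simp only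
    omega
  · right
    intro hb P ij
    unfold restr
    rw [dif_neg h]

/-- a neighbour of a point of the block is in the block, or there is an empty border neighbour -/
theorem restr_step (hb : 0 < b) (P : Position (Fin (k * b) × Fin (k * b))) (ij : Fin k × Fin k)
    (u : Fin b × Fin b) (v : Fin (k * b) × Fin (k * b))
    (h : (board (k * b)).Adj (bpt hb ij u) v) :
    (∃ w, v = bpt hb ij w ∧ (board (b + 2)).Adj (inn u) (inn w)) ∨
      ∃ w, (board (b + 2)).Adj (inn u) w ∧ restr hb P ij w = none := by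
  have h1 := u.1.isLt
  have h2 := u.2.isLt
  rw [board_adj] at h
  unfold bpt at h
  simp only at h
  by_cases hc : ij.1.val * b ≤ v.1.val ∧ v.1.val < ij.1.val * b + b ∧ ij.2.val * b ≤ v.2.val ∧
      v.2.val < ij.2.val * b + b
  · left
    refine ⟨(⟨v.1.val - ij.1.val * b, by omega⟩, ⟨v.2.val - ij.2.val * b, by omega⟩), ?_, ?_⟩
    · rw [pt_eq]; unfold bpt; simp only; omega
    · rw [board_adj]; unfold inn; simp only; omega
  · right
    have hout : ∀ w : Fin (b + 2) × Fin (b + 2), (w.1.val = 0 ∨ w.1.val = b + 1 ∨ w.2.val = 0 ∨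
        w.2.val = b + 1) → restr hb P ij w = none := by
      intro w hw
      unfold restr
      rw [dif_neg (by omega)]
    have hcase : u.1.val = 0 ∨ u.1.val + 1 = b ∨ u.2.val = 0 ∨ u.2.val + 1 = b := by omega
    rcases hcase with h3 | h3 | h3 | h3
    · refine ⟨(⟨0, by omega⟩, ⟨u.2.val + 1, by omega⟩), ?_, hout _ (Or.inl rfl)⟩
      rw [board_adj]; unfold inn; simp only; grind
    · refine ⟨(⟨b + 1, by omega⟩, ⟨u.2.val + 1, by omega⟩), ?_, hout _ (Or.inr (Or.inl rfl))⟩
      rw [board_adj]; unfold inn; simp only; grind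
    · refine ⟨(⟨u.1.val + 1, by omega⟩, ⟨0, by omega⟩), ?_,
        hout _ (Or.inr (Or.inr (Or.inl rfl)))⟩
      rw [board_adj]; unfold inn; simp only; grind
    · refine ⟨(⟨u.1.val + 1, by omega⟩, ⟨b + 1, by omega⟩), ?_,
        hout _ (Or.inr (Or.inr (Or.inr rfl)))⟩
      rw [board_adj]; unfold inn; simp only; grind

theorem restr_legal (hb : 0 < b) {P : Position (Fin (k * b) × Fin (k * b))}
    (hP : Legal (board (k * b)) P) (ij : Fin k × Fin k) :
    Legal (board (b + 2)) (restr hb P ij) := by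
  intro u hu
  rcases inn_or (k := k) (u := u) with ⟨u', rfl⟩ | h
  swap
  · exact absurd (h hb P ij) hu
  rw [restr_inn] at hu
  obtain ⟨x, w, h1, h2, h3⟩ := hP _ hu
  clear hu
  have key : ∀ y, ReflTransGen (fun a c => (board (k * b)).Adj a c ∧ P a = P c) y x →
      ∀ u', y = bpt hb ij u' → HasLiberty (board (b + 2)) (restr hb P ij) (inn u') := by
    intro y hy
    induction hy using ReflTransGen.head_induction_on with
    | refl =>
      rintro u' rfl
      rcases restr_step hb P ij u' w h2 with ⟨w', rfl, h4⟩ | ⟨w', h4, h5⟩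
      · exact HasLiberty.of_adj h4 (by rw [restr_inn]; exact h3)
      · exact HasLiberty.of_adj h4 h5
    | head h6 _ ih =>
      rintro u' rfl
      rcases restr_step hb P ij u' _ h6.1 with ⟨w', h7, h4⟩ | ⟨w', h4, h5⟩
      · refine HasLiberty.of_same ⟨h4, ?_⟩ (ih w' h7)
        rw [restr_inn, restr_inn, ← h7]
        exact h6.2
      · exact HasLiberty.of_adj h4 h5
  exact key _ h1 _ rfl

theorem legal_sub (hb : 0 < b) : legalCount (k * b) ≤ legalCount (b + 2) ^ (k ^ 2) := by
  rw [← card_legalPos, ← card_legalPos]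
  have h : Nat.card (LegalPos (k * b)) ≤ Nat.card (Fin k × Fin k → LegalPos (b + 2)) := by
    refine Nat.card_le_card_of_injective
      (fun P => fun ij => (⟨restr hb P.1 ij, restr_legal hb P.2 ij⟩ : LegalPos (b + 2))) ?_
    intro P Q h
    apply Subtype.ext
    funext v
    have h1 := congrFun (congrArg Subtype.val (congrFun h (blk hb v))) (inn (loc hb v))
    simp only [restr_inn, bpt_blk_loc] at h1
    exact h1
  rw [Nat.card_fun] at h
  simpa [sq, pow_two] using h

end blocks

end Pool.Agent.helper12.Go
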