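import Pool.Agent.helper12.GoBasic

set_option autoImplicit false

namespace Pool.Agent.helper12.Go

open Relation

variable {V : Type} {G : SimpleGraph V}

/-- the positions after each of the moves of a list of coloured moves -/
noncomputable def trace (G : SimpleGraph V) : Position V → List (Bool × V) → List (Position V)
  | _, [] => []
  | P, m :: l => place G P m.1 m.2 :: trace G (place G P m.1 m.2) l

/-- each move is played at an empty point -/
def Ok (G : SimpleGraph V) : Position V → List (Bool × V) → Prop
  | _, [] => True
  | P, m :: l => P m.2 = none ∧ Ok G (place G P m.1 m.2) l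

/-- the final position -/
noncomputable def final (G : SimpleGraph V) : Position V → List (Bool × V) → Position V
  | P, [] => P
  | P, m :: l => final G (place G P m.1 m.2) l

@[simp] theorem trace_nil (P : Position V) : trace G P [] = [] := rfl
@[simp] theorem trace_cons (P : Position V) (m : Bool × V) (l : List (Bool × V)) :
    trace G P (m :: l) = place G P m.1 m.2 :: trace G (place G P m.1 m.2) l := rfl
@[simp] theorem ok_nil (P : Position V) : Ok G P [] := trivial
@[simp] theorem ok_cons (P : Position V) (m : Bool × V) (l : List (Bool × V)) :
    Ok G P (m :: l) ↔ P m.2 = none ∧ Ok G (place G P m.1 m.2) l := Iff.rfl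
@[simp] theorem final_nil (P : Position V) : final G P [] = P := rfl
@[simp] theorem final_cons (P : Position V) (m : Bool × V) (l : List (Bool × V)) :
    final G P (m :: l) = final G (place G P m.1 m.2) l := rfl

theorem trace_append (P : Position V) (l l' : List (Bool × V)) :
    trace G P (l ++ l') = trace G P l ++ trace G (final G P l) l' := by
  induction l generalizing P with
  | nil => rfl
  | cons m l ih => simp [ih]

theorem ok_append (P : Position V) (l l' : List (Bool × V)) :
    Ok G P (l ++ l') ↔ Ok G P l ∧ Ok G (final G P l) l' := by
  induction l generalizing P with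
  | nil => simp
  | cons m l ih => simp [ih, and_assoc]

theorem final_append (P : Position V) (l l' : List (Bool × V)) :
    final G P (l ++ l') = final G (final G P l) l' := by
  induction l generalizing P with
  | nil => rfl
  | cons m l ih => simp [ih]

theorem final_mem_trace (P : Position V) (l : List (Bool × V)) (h : l ≠ []) :
    final G P l ∈ trace G P l := by
  induction l generalizing P with
  | nil => exact absurd rfl h
  | cons m l ih =>
    rcases l with _ | ⟨m', l⟩
    · simp
    · rw [final_cons, trace_cons]
      exact List.mem_cons_of_mem _ (ih _ (by simp))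

theorem trace_split (P S : Position V) (l : List (Bool × V)) (h : S ∈ P :: trace G P l) :
    ∃ l1 l2, l = l1 ++ l2 ∧ final G P l1 = S := by
  induction l generalizing P with
  | nil =>
    simp at h
    exact ⟨[], [], rfl, h.symm⟩
  | cons m l ih =>
    rcases List.mem_cons.1 h with h | h
    · exact ⟨[], m :: l, rfl, h.symm⟩
    · rw [trace_cons] at h
      obtain ⟨l1, l2, h1, h2⟩ := ih (place G P m.1 m.2) h
      exact ⟨m :: l1, l2, by rw [h1]; rfl, by rw [final_cons]; exact h2⟩

/-- every reachable position is reached through a list of moves never repeating a position -/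
theorem exists_simple {Mok : Bool → V → Prop} {P Q : Position V}
    (h : ReflTransGen (fun A B => ∃ c v, Mok c v ∧ A v = none ∧ B = place G A c v) P Q) :
    ∃ l, Ok G P l ∧ final G P l = Q ∧ (P :: trace G P l).Nodup ∧ (∀ m ∈ l, Mok m.1 m.2) := by
  induction h using ReflTransGen.head_induction_on with
  | refl => exact ⟨[], trivial, rfl, by simp, by simp⟩
  | head h1 h2 ih =>
    rename_i A B
    obtain ⟨c, v, hM, hv, rfl⟩ := h1
    obtain ⟨l, h3, h4, h5, h6⟩ := ih
    by_cases hmem : A ∈ place G A c v :: trace G (place G A c v) l
    · obtain ⟨l1, l2, h7, h8⟩ := trace_split _ _ _ hmem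
      subst h7
      rw [ok_append, h8] at h3
      rw [final_append, h8] at h4
      rw [trace_append, h8] at h5
      refine ⟨l2, h3.2, h4, ?_, fun m hm => h6 m (List.mem_append_right _ hm)⟩
      rcases l1 with _ | ⟨m1, l1⟩
      · simp only [final_nil] at h8
        rw [trace_nil, List.nil_append] at h5
        rw [h8] at h5
        exact h5
      · have h9 : A ∈ trace G (place G A c v) (m1 :: l1) := by
          have := final_mem_trace (G := G) (place G A c v) (m1 :: l1) (List.cons_ne_nil _ _)
          rw [h8] at this
          exact this
        have h10 := (List.nodup_cons.1 h5).2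
        rw [List.nodup_append] at h10
        rw [List.nodup_cons]
        exact ⟨fun h11 => h10.2.2 A h9 A h11 rfl, h10.2.1⟩
    · refine ⟨(c, v) :: l, ⟨hv, h3⟩, h4, ?_, ?_⟩
      · rw [trace_cons, List.nodup_cons]
        exact ⟨hmem, h5⟩
      · intro m hm
        rcases List.mem_cons.1 hm with rfl | hm
        · exact hM
        · exact h6 m hm

/-! ### Filling a sub-position of a legal position -/

theorem SubPos.update [DecidableEq V] {P Q : Position V} (h : SubPos P Q) (v : V) :
    SubPos (Function.update P v (Q v)) Q := by
  intro u
  by_cases hu : u = v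
  · subst hu; right; simp
  · rw [Function.update_of_ne hu]; exact h u

/-- the list of moves putting the stones of `Q` at the points of `vs` -/
def fillMoves (Q : Position V) (vs : List V) : List (Bool × V) :=
  vs.map (fun v => ((Q v).getD false, v))

theorem fill_spec [DecidableEq V] {Q : Position V} (hQ : Legal G Q) :
    ∀ (vs : List V) (P : Position V), SubPos P Q → vs.Nodup →
      (∀ v ∈ vs, P v = none ∧ Q v ≠ none) →
      Ok G P (fillMoves Q vs) ∧
      final G P (fillMoves Q vs) = (fun v => if v ∈ vs then Q v else P v) ∧
      (P :: trace G P (fillMoves Q vs)).Nodup ∧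
      ∀ S ∈ trace G P (fillMoves Q vs), SubPos S Q ∧ SubPos P S ∧ (∀ u, u ∉ vs → S u = P u) := by
  intro vs
  induction vs with
  | nil =>
    intro P hP _ _
    refine ⟨trivial, ?_, by simp [fillMoves], by simp [fillMoves]⟩
    funext v; simp [fillMoves]
  | cons v vs ih =>
    intro P hP hnd hv
    have hv0 := hv v (by simp)
    have hcol : some ((Q v).getD false) = Q v := by
      obtain ⟨d, hd⟩ := Option.ne_none_iff_exists'.1 hv0.2
      rw [hd]; rfl
    have hsub : SubPos (Function.update P v (Q v)) Q := hP.update v
    have hpl : place G P ((Q v).getD false) v = Function.update P v (Q v) := by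
      have : Function.update P v (some ((Q v).getD false)) = Function.update P v (Q v) := by
        rw [hcol]
      rw [place_of_legal, this]
      rw [this]
      exact hsub.legal hQ
    have hnd' := List.nodup_cons.1 hnd
    have hrest : ∀ u ∈ vs, Function.update P v (Q v) u = none ∧ Q u ≠ none := by
      intro u hu
      have huv : u ≠ v := fun h => hnd'.1 (h ▸ hu)
      rw [Function.update_of_ne huv]
      exact hv u (List.mem_cons_of_mem _ hu)
    obtain ⟨h1, h2, h3, h4⟩ := ih (Function.update P v (Q v)) hsub hnd'.2 hrest
    have e : fillMoves Q (v :: vs) = ((Q v).getD false, v) :: fillMoves Q vs := rfl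
    rw [e]
    have hfirst : ∀ S ∈ Function.update P v (Q v) ::
        trace G (Function.update P v (Q v)) (fillMoves Q vs), S v = Q v := by
      intro S hS
      rcases List.mem_cons.1 hS with rfl | hS
      · simp
      · rw [(h4 S hS).2.2 v hnd'.1]; simp
    refine ⟨⟨hv0.1, by rw [hpl]; exact h1⟩, ?_, ?_, ?_⟩
    · rw [final_cons, hpl, h2]
      funext u
      by_cases huv : u = v
      · subst huv; simp [hnd'.1]
      · simp [huv]
    · rw [trace_cons, hpl, List.nodup_cons]
      refine ⟨?_, h3⟩
      intro hmem
      have := hfirst P hmem
      rw [hv0.1] at this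
      exact hv0.2 this.symm
    · intro S hS
      rw [trace_cons, hpl] at hS
      refine ⟨?_, ?_, ?_⟩
      · rcases List.mem_cons.1 hS with rfl | hS
        · exact hsub
        · exact (h4 S hS).1
      · intro u
        by_cases huv : u = v
        · subst huv; exact Or.inl hv0.1
        · rcases List.mem_cons.1 hS with rfl | hS
          · right; rw [Function.update_of_ne huv]
          · have := (h4 S hS).2.1 u
            rwa [Function.update_of_ne huv] at this
      · intro u hu
        have huv : u ≠ v := fun h => hu (h ▸ List.mem_cons_self)
        have hu' : u ∉ vs := fun h => hu (List.mem_cons_of_mem _ h)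
        rcases List.mem_cons.1 hS with rfl | hS
        · exact Function.update_of_ne huv _ _
        · rw [(h4 S hS).2.2 u hu', Function.update_of_ne huv]

end Pool.Agent.helper12.Go
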