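import Pool.Agent.helper12.GoLegal

set_option autoImplicit false

namespace Pool.Agent.helper12.Go

open Relation

/-! ### Lower bound for the number of legal positions on the `3 × 3` board -/

/-- the neighbours of a set of points, the point `(x, y)` being the bit `3 x + y` -/
def nbm (x : ℕ) : ℕ :=
  (x <<< 3) ||| (x >>> 3) ||| ((x &&& 219) <<< 1) ||| ((x &&& 438) >>> 1)

/-- one step of the flood -/
def fl (C x : ℕ) : ℕ := x ||| (nbm x &&& C)

/-- the flood in the set `C` from the points adjacent to `E` -/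
def fl5 (C E : ℕ) : ℕ := fl C (fl C (fl C (fl C (fl C (C &&& nbm E)))))

/-- the check of legality -/
def chk (B W : ℕ) : Bool :=
  ((B &&& W) == 0) && (fl5 B (511 ^^^ (B ||| W)) == B) && (fl5 W (511 ^^^ (B ||| W)) == W)

/-- the number of pairs passing the check -/
def cntPos : ℕ → ℕ → ℕ → ℕ
  | 0, B, W => (chk B W).toNat
  | k + 1, B, W => cntPos k B W + cntPos k (B + 2 ^ k) W + cntPos k B (W + 2 ^ k)

theorem cntPos_eq : cntPos 9 0 0 = 12675 := by decide +kernel

/-- the index of a point -/
def idx (v : Fin 3 × Fin 3) : ℕ := 3 * v.1.val + v.2.val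

theorem nbm_spec {x : ℕ} (hx : x < 512) (v : Fin 3 × Fin 3) (h : (nbm x).testBit (idx v) = true) :
    ∃ u, (board 3).Adj v u ∧ x.testBit (idx u) = true := by
  have hbig : ∀ i, 9 ≤ i → x.testBit i = false := by
    intro i hi
    exact Nat.testBit_lt_two_pow (lt_of_lt_of_le hx (by
      calc 512 = 2 ^ 9 := by norm_num
        _ ≤ 2 ^ i := Nat.pow_le_pow_right (by norm_num) hi))
  unfold nbm at h
  simp only [Nat.testBit_or, Nat.testBit_shiftLeft, Nat.testBit_shiftRight, Nat.testBit_and,
    Bool.or_eq_true, Bool.and_eq_true, decide_eq_true_eq] at h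
  obtain ⟨⟨a, ha⟩, ⟨c, hc⟩⟩ := v
  simp only [idx] at h
  rcases h with ((⟨h1, h2⟩ | h2) | ⟨h1, h2, h3⟩) | ⟨h2, h3⟩
  · refine ⟨(⟨a - 1, by omega⟩, ⟨c, hc⟩), ?_, ?_⟩
    · rw [board_adj]; simp only; grind
    · simp only [idx]
      rw [show 3 * (a - 1) + c = 3 * a + c - 3 by omega]
      exact h2
  · by_cases ha2 : a < 2
    · refine ⟨(⟨a + 1, by omega⟩, ⟨c, hc⟩), ?_, ?_⟩
      · rw [board_adj]; simp only; grind
      · simp only [idx]
        rw [show 3 * (a + 1) + c = 3 + (3 * a + c) by omega]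
        exact h2
    · rw [hbig _ (by omega)] at h2
      exact absurd h2 (by simp)
  · have hc0 : c ≠ 0 := by
      rintro rfl
      interval_cases a
      · omega
      · exact absurd h3 (by decide)
      · exact absurd h3 (by decide)
    refine ⟨(⟨a, ha⟩, ⟨c - 1, by omega⟩), ?_, ?_⟩
    · rw [board_adj]; simp only; grind
    · simp only [idx]
      rw [show 3 * a + (c - 1) = 3 * a + c - 1 by omega]
      exact h2
  · have hc2 : c ≠ 2 := by
      rintro rfl
      interval_cases a
      · exact absurd h3 (by decide)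
      · exact absurd h3 (by decide)
      · exact absurd h3 (by decide)
    refine ⟨(⟨a, ha⟩, ⟨c + 1, by omega⟩), ?_, ?_⟩
    · rw [board_adj]; simp only; grind
    · simp only [idx]
      rw [show 3 * a + (c + 1) = 1 + (3 * a + c) by omega]
      exact h2

/-- the position given by the masks -/
def posOf (B W : ℕ) : Position (Fin 3 × Fin 3) := fun v =>
  if B.testBit (idx v) = true then some true else if W.testBit (idx v) = true then some false
  else none

theorem and_le_lt {C x : ℕ} (hC : C < 512) : (x &&& C) < 512 := lt_of_le_of_lt Nat.and_le_right hC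

theorem fl_spec {P : Position (Fin 3 × Fin 3)} {c : Bool} {C : ℕ} (hC : C < 512)
    (hPC : ∀ v, C.testBit (idx v) = true → P v = some c) {y : ℕ} (hy : y < 512)
    (h : ∀ v, y.testBit (idx v) = true → P v = some c ∧ HasLiberty (board 3) P v) :
    fl C y < 512 ∧
      ∀ v, (fl C y).testBit (idx v) = true → P v = some c ∧ HasLiberty (board 3) P v := by
  refine ⟨?_, ?_⟩
  · unfold fl
    have h1 : y < 2 ^ 9 := hy
    have h2 : nbm y &&& C < 2 ^ 9 := and_le_lt hC
    exact Nat.or_lt_two_pow h1 h2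
  · intro v hv
    unfold fl at hv
    rw [Nat.testBit_or, Bool.or_eq_true] at hv
    rcases hv with hv | hv
    · exact h v hv
    · rw [Nat.testBit_and, Bool.and_eq_true] at hv
      obtain ⟨u, h1, h2⟩ := nbm_spec hy v hv.1
      obtain ⟨h3, h4⟩ := h u h2
      have h5 := hPC v hv.2
      exact ⟨h5, HasLiberty.of_same ⟨h1, by rw [h5, h3]⟩ h4⟩

theorem fl5_spec {P : Position (Fin 3 × Fin 3)} {c : Bool} {C E : ℕ} (hC : C < 512) (hE : E < 512)
    (hPC : ∀ v, C.testBit (idx v) = true → P v = some c)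
    (hPE : ∀ v, E.testBit (idx v) = true → P v = none) :
    ∀ v, (fl5 C E).testBit (idx v) = true → P v = some c ∧ HasLiberty (board 3) P v := by
  have h0 : ∀ v, (C &&& nbm E).testBit (idx v) = true →
      P v = some c ∧ HasLiberty (board 3) P v := by
    intro v hv
    rw [Nat.testBit_and, Bool.and_eq_true] at hv
    obtain ⟨u, h1, h2⟩ := nbm_spec hE v hv.2
    exact ⟨hPC v hv.1, HasLiberty.of_adj h1 (hPE u h2)⟩
  have hb : C &&& nbm E < 512 := lt_of_le_of_lt Nat.and_le_left hC
  obtain ⟨b1, h1⟩ := fl_spec hC hPC hb h0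
  obtain ⟨b2, h2⟩ := fl_spec hC hPC b1 h1
  obtain ⟨b3, h3⟩ := fl_spec hC hPC b2 h2
  obtain ⟨b4, h4⟩ := fl_spec hC hPC b3 h3
  obtain ⟨b5, h5⟩ := fl_spec hC hPC b4 h4
  exact h5

theorem chk_disj {B W : ℕ} (h : chk B W = true) (i : ℕ) :
    ¬ (B.testBit i = true ∧ W.testBit i = true) := by
  rintro ⟨h1, h2⟩
  unfold chk at h
  simp only [Bool.and_eq_true, beq_iff_eq] at h
  have h3 : (B &&& W).testBit i = true := by rw [Nat.testBit_and, h1, h2]; rfl
  rw [h.1.1] at h3
  simp at h3

theorem chk_legal {B W : ℕ} (hB : B < 512) (hW : W < 512) (h : chk B W = true) :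
    Legal (board 3) (posOf B W) := by
  have hd := chk_disj h
  unfold chk at h
  simp only [Bool.and_eq_true, beq_iff_eq] at h
  have hE : 511 ^^^ (B ||| W) < 512 := by
    have h1 : 511 < 2 ^ 9 := by norm_num
    have h2 : B ||| W < 2 ^ 9 := Nat.or_lt_two_pow hB hW
    exact Nat.xor_lt_two_pow h1 h2
  have hPE : ∀ v, (511 ^^^ (B ||| W)).testBit (idx v) = true → posOf B W v = none := by
    intro v hv
    have hi : (511 : ℕ).testBit (idx v) = true := by
      have h511 : (511 : ℕ) = 2 ^ 9 - 1 := by norm_num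
      have hv1 := v.1.isLt
      have hv2 := v.2.isLt
      rw [h511, Nat.testBit_two_pow_sub_one, decide_eq_true_eq]
      unfold idx
      omega
    rw [Nat.testBit_xor, hi, Nat.testBit_or] at hv
    unfold posOf
    cases h1 : B.testBit (idx v) <;> cases h2 : W.testBit (idx v) <;> simp_all
  have hPB : ∀ v, B.testBit (idx v) = true → posOf B W v = some true := by
    intro v hv
    unfold posOf
    rw [if_pos hv]
  have hPW : ∀ v, W.testBit (idx v) = true → posOf B W v = some false := by
    intro v hv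
    unfold posOf
    rw [if_neg (fun h' => hd _ ⟨h', hv⟩), if_pos hv]
  intro v hv
  by_cases h1 : B.testBit (idx v) = true
  · rw [← h.1.2] at h1
    exact (fl5_spec hB hE hPB hPE v h1).2
  · by_cases h2 : W.testBit (idx v) = true
    · rw [← h.2] at h2
      exact (fl5_spec hW hE hPW hPE v h2).2
    · exfalso
      apply hv
      unfold posOf
      rw [if_neg h1, if_neg h2]

/-- the pairs passing the check -/
def FP : ℕ → ℕ → ℕ → Finset (ℕ × ℕ)
  | 0, B, W => if chk B W = true then {(B, W)} else ∅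
  | k + 1, B, W => (FP k B W ∪ FP k (B + 2 ^ k) W) ∪ FP k B (W + 2 ^ k)

theorem FP_mem (k : ℕ) : ∀ (B W : ℕ) (q : ℕ × ℕ), q ∈ FP k B W →
    B ≤ q.1 ∧ q.1 < B + 2 ^ k ∧ W ≤ q.2 ∧ q.2 < W + 2 ^ k ∧ chk q.1 q.2 = true := by
  induction k with
  | zero =>
    intro B W q hq
    unfold FP at hq
    split_ifs at hq with h
    · rw [Finset.mem_singleton] at hq
      subst hq
      exact ⟨le_rfl, by simp, le_rfl, by simp, h⟩
    · exact absurd hq (Finset.notMem_empty _)
  | succ k ih =>
    intro B W q hq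
    unfold FP at hq
    rw [Finset.mem_union, Finset.mem_union] at hq
    have h2 : 2 ^ (k + 1) = 2 ^ k + 2 ^ k := by ring
    have h3 : 0 < 2 ^ k := by positivity
    rcases hq with (hq | hq) | hq
    · obtain ⟨a1, a2, a3, a4, a5⟩ := ih _ _ _ hq
      exact ⟨a1, by omega, a3, by omega, a5⟩
    · obtain ⟨a1, a2, a3, a4, a5⟩ := ih _ _ _ hq
      exact ⟨by omega, by omega, a3, by omega, a5⟩
    · obtain ⟨a1, a2, a3, a4, a5⟩ := ih _ _ _ hq
      exact ⟨by omega, by omega, by omega, by omega, a5⟩

theorem FP_card (k : ℕ) : ∀ (B W : ℕ), (FP k B W).card = cntPos k B W := by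
  induction k with
  | zero =>
    intro B W
    unfold FP cntPos
    cases h : chk B W <;> simp
  | succ k ih =>
    intro B W
    unfold FP cntPos
    rw [Finset.card_union_of_disjoint, Finset.card_union_of_disjoint, ih, ih, ih]
    · rw [Finset.disjoint_left]
      intro q h1 h2
      have h3 := FP_mem k _ _ q h1
      have h4 := FP_mem k _ _ q h2
      omega
    · rw [Finset.disjoint_left]
      intro q h1 h2
      rw [Finset.mem_union] at h1
      have h4 := FP_mem k _ _ q h2
      rcases h1 with h1 | h1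
      · have h3 := FP_mem k _ _ q h1
        omega
      · have h3 := FP_mem k _ _ q h1
        omega

theorem idx_surj (i : ℕ) (hi : i < 9) : ∃ v, idx v = i := by
  refine ⟨(⟨i / 3, by omega⟩, ⟨i % 3, by omega⟩), ?_⟩
  unfold idx
  simp only
  omega

theorem cntPos_le (k : ℕ) (hk : k = 9) : cntPos k 0 0 ≤ legalCount 3 := by
  rw [← FP_card, ← Set.ncard_coe_finset]
  unfold legalCount
  refine Set.ncard_le_ncard_of_injOn (fun q : ℕ × ℕ => posOf q.1 q.2) ?_ ?_ legal_finite
  · intro q hq
    obtain ⟨-, a2, -, a4, a5⟩ := FP_mem k 0 0 q (by simpa using hq)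
    rw [hk] at a2 a4
    exact chk_legal (by omega) (by omega) a5
  · intro q hq q' hq' h
    obtain ⟨-, a2, -, a4, a5⟩ := FP_mem k 0 0 q (by simpa using hq)
    obtain ⟨-, b2, -, b4, b5⟩ := FP_mem k 0 0 q' (by simpa using hq')
    rw [hk] at a2 a4 b2 b4
    have hbig : ∀ x : ℕ, x < 0 + 2 ^ 9 → ∀ i, 9 ≤ i → x.testBit i = false := by
      intro x hx i hi
      exact Nat.testBit_lt_two_pow (lt_of_lt_of_le (by simpa using hx)
        (Nat.pow_le_pow_right (by norm_num) hi))
    have key : ∀ i, q.1.testBit i = q'.1.testBit i ∧ q.2.testBit i = q'.2.testBit i := by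
      intro i
      by_cases hi : i < 9
      · obtain ⟨v, rfl⟩ := idx_surj i hi
        have h1 : posOf q.1 q.2 v = posOf q'.1 q'.2 v := congrFun h v
        have d1 := chk_disj a5 (idx v)
        have d2 := chk_disj b5 (idx v)
        unfold posOf at h1
        cases e1 : q.1.testBit (idx v) <;> cases e2 : q.2.testBit (idx v) <;>
          cases e3 : q'.1.testBit (idx v) <;> cases e4 : q'.2.testBit (idx v) <;> simp_all
      · rw [hbig _ a2 i (by omega), hbig _ b2 i (by omega), hbig _ a4 i (by omega),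
          hbig _ b4 i (by omega)]
        exact ⟨rfl, rfl⟩
    exact Prod.ext (Nat.eq_of_testBit_eq (fun i => (key i).1))
      (Nat.eq_of_testBit_eq (fun i => (key i).2))

theorem legalCount_three : 12675 ≤ legalCount 3 := by
  have h := cntPos_le 9 rfl
  rwa [cntPos_eq] at h

/-! ### Upper bound through `3 × 3` blocks -/

/-- the `3 × 3` patterns whose centre is not a single surrounded stone -/
def Bad3 (f : Position (Fin 3 × Fin 3)) : Prop :=
  ∃ c, f (1, 1) = some c ∧ f (0, 1) = some (!c) ∧ f (1, 0) = some (!c) ∧ f (2, 1) = some (!c) ∧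
    f (1, 2) = some (!c)

theorem not_bad {k : ℕ} {P : Position (Fin (k * 3) × Fin (k * 3))} (hP : Legal (board (k * 3)) P)
    (ij : Fin k × Fin k) : ¬ Bad3 (fun u => P (bpt (by norm_num) ij u)) := by
  rintro ⟨c, h0, h1, h2, h3, h4⟩
  have hnb : ∀ w, (board (k * 3)).Adj (bpt (by norm_num) ij (1, 1)) w → P w = some (!c) := by
    intro w hw
    rw [board_adj] at hw
    have e0 : (bpt (b := 3) (by norm_num) ij (1, 1)).1.val = ij.1.val * 3 + 1 := rfl
    have e1 : (bpt (b := 3) (by norm_num) ij (1, 1)).2.val = ij.2.val * 3 + 1 := rfl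
    rw [e0, e1] at hw
    have hcase : (w.1.val = ij.1.val * 3 + 0 ∧ w.2.val = ij.2.val * 3 + 1) ∨
      (w.1.val = ij.1.val * 3 + 1 ∧ w.2.val = ij.2.val * 3 + 0) ∨
      (w.1.val = ij.1.val * 3 + 2 ∧ w.2.val = ij.2.val * 3 + 1) ∨
      (w.1.val = ij.1.val * 3 + 1 ∧ w.2.val = ij.2.val * 3 + 2) := by omega
    rcases hcase with h | h | h | h
    · have : w = bpt (b := 3) (by norm_num) ij (0, 1) := (pt_eq _ _).2 h
      rw [this]; exact h1
    · have : w = bpt (b := 3) (by norm_num) ij (1, 0) := (pt_eq _ _).2 h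
      rw [this]; exact h2
    · have : w = bpt (b := 3) (by norm_num) ij (2, 1) := (pt_eq _ _).2 h
      rw [this]; exact h3
    · have : w = bpt (b := 3) (by norm_num) ij (1, 2) := (pt_eq _ _).2 h
      rw [this]; exact h4
  have hl := hP (bpt (by norm_num) ij (1, 1)) (by
    have : P (bpt (by norm_num) ij (1, 1)) = some c := h0
    rw [this]; simp)
  obtain ⟨u, w, g1, g2, g3⟩ := hl
  rcases ReflTransGen.cases_head g1 with rfl | ⟨x, g4, -⟩
  · rw [hnb w g2] at g3
    exact absurd g3 (by simp)
  · have g5 := g4.2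
    rw [hnb x g4.1] at g5
    have : P (bpt (by norm_num) ij (1, 1)) = some c := h0
    rw [this] at g5
    cases c <;> simp at g5

/-- the bad pattern with the given colour and corners -/
def badOf (q : Bool × (Bool → Bool → Option Bool)) : Position (Fin 3 × Fin 3) := fun v =>
  if v.1 = 1 then (if v.2 = 1 then some q.1 else some (!q.1))
  else (if v.2 = 1 then some (!q.1) else q.2 (v.1 = 0) (v.2 = 0))

theorem card_good : {f : Position (Fin 3 × Fin 3) | ¬ Bad3 f}.ncard ≤ 19521 := by
  have h1 : (Set.univ : Set (Bool × (Bool → Bool → Option Bool))).ncard ≤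
      {f : Position (Fin 3 × Fin 3) | Bad3 f}.ncard := by
    refine Set.ncard_le_ncard_of_injOn badOf ?_ ?_ (Set.toFinite _)
    · intro q _
      refine ⟨q.1, ?_, ?_, ?_, ?_, ?_⟩ <;> simp [badOf]
    · intro q _ q' _ h
      have h0 := congrFun h (1, 1)
      have h2 := congrFun h (0, 0)
      have h3 := congrFun h (0, 2)
      have h4 := congrFun h (2, 0)
      have h5 := congrFun h (2, 2)
      simp [badOf] at h0 h2 h3 h4 h5
      refine Prod.ext h0 ?_
      funext a c
      cases a <;> cases c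
      · exact h5
      · exact h4
      · exact h3
      · exact h2
  rw [Set.ncard_univ, Nat.card_eq_fintype_card] at h1
  have h2 : Fintype.card (Bool × (Bool → Bool → Option Bool)) = 162 := by simp
  rw [h2] at h1
  have h3 := Set.ncard_add_ncard_compl {f : Position (Fin 3 × Fin 3) | Bad3 f}
  have h4 : Nat.card (Position (Fin 3 × Fin 3)) = 19683 := by
    rw [Nat.card_eq_fintype_card]; simp
  rw [h4] at h3
  have h5 : {f : Position (Fin 3 × Fin 3) | Bad3 f}ᶜ = {f | ¬ Bad3 f} := rfl
  rw [h5] at h3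
  omega

theorem legalCount_three_mul (k : ℕ) : legalCount (k * 3) ≤ 19521 ^ (k ^ 2) := by
  rw [← card_legalPos]
  have h : Nat.card (LegalPos (k * 3)) ≤
      Nat.card (Fin k × Fin k → {f : Position (Fin 3 × Fin 3) // ¬ Bad3 f}) := by
    refine Nat.card_le_card_of_injective
      (fun P => fun ij => (⟨fun u => P.1 (bpt (by norm_num) ij u), not_bad P.2 ij⟩ :
        {f : Position (Fin 3 × Fin 3) // ¬ Bad3 f})) ?_
    intro P Q h
    apply Subtype.ext
    funext v
    have h1 := congrFun (congrArg Subtype.val (congrFun h (blk (by norm_num) v)))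
      (loc (by norm_num) v)
    simp only [bpt_blk_loc] at h1
    exact h1
  rw [Nat.card_fun] at h
  have h2 : Nat.card {f : Position (Fin 3 × Fin 3) // ¬ Bad3 f} ≤ 19521 := card_good
  refine h.trans ?_
  have h3 : Nat.card (Fin k × Fin k) = k ^ 2 := by simp [pow_two]
  rw [h3]
  exact Nat.pow_le_pow_left h2 _

end Pool.Agent.helper12.Go
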