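import Pool.Agent.helper12.GoNum

set_option autoImplicit false

namespace Pool.Agent.helper12.Go

open Relation Filter Topology

/-- `log₂ L(n, n)` -/
noncomputable def ell (n : ℕ) : ℝ := Real.logb 2 (legalCount n)

theorem ell_nonneg (n : ℕ) : 0 ≤ ell n :=
  Real.logb_nonneg (by norm_num) (by exact_mod_cast legalCount_pos n)

theorem ell_super {b k : ℕ} (hb : 0 < b) : (k : ℝ) ^ 2 * ell b ≤ ell (k * b) := by
  have h := legal_super (b := b) (k := k) hb
  have h1 : (0 : ℝ) < legalCount b := by exact_mod_cast legalCount_pos b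
  unfold ell
  rw [show (k : ℝ) ^ 2 = ((k ^ 2 : ℕ) : ℝ) by push_cast; ring, ← Real.logb_pow]
  exact Real.logb_le_logb_of_le (by norm_num) (by positivity) (by exact_mod_cast h)

theorem ell_sub {b k : ℕ} (hb : 0 < b) : ell (k * b) ≤ (k : ℝ) ^ 2 * ell (b + 2) := by
  have h := legal_sub (b := b) (k := k) hb
  have h1 : (0 : ℝ) < legalCount (k * b) := by exact_mod_cast legalCount_pos _
  unfold ell
  rw [show (k : ℝ) ^ 2 = ((k ^ 2 : ℕ) : ℝ) by push_cast; ring, ← Real.logb_pow]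
  exact Real.logb_le_logb_of_le (by norm_num) h1 (by exact_mod_cast h)

theorem ell_le (m : ℕ) : ell m * 9 ≤ (m : ℝ) ^ 2 * Real.logb 2 19521 := by
  rcases Nat.eq_zero_or_pos m with rfl | hm
  · have : legalCount 0 ≤ 19521 ^ (0 ^ 2) := by
      have := legalCount_three_mul 0
      simpa using this
    have h1 : legalCount 0 = 1 := le_antisymm (by simpa using this) (legalCount_pos 0)
    simp [ell, h1]
  · have h1 := ell_super (b := m) (k := 3) hm
    have h2 : ell (3 * m) ≤ (m : ℝ) ^ 2 * Real.logb 2 19521 := by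
      unfold ell
      have h3 := legalCount_three_mul m
      have h4 : (0 : ℝ) < legalCount (m * 3) := by exact_mod_cast legalCount_pos _
      rw [Nat.mul_comm 3 m, show (m : ℝ) ^ 2 = ((m ^ 2 : ℕ) : ℝ) by push_cast; ring,
        ← Real.logb_pow]
      exact Real.logb_le_logb_of_le (by norm_num) h4 (by exact_mod_cast h3)
    push_cast at h1
    linarith

/-- the growth constant -/
noncomputable def lam : ℝ := ⨆ n : ℕ, ell (n + 1) / ((n : ℝ) + 1) ^ 2

theorem lam_bdd : BddAbove (Set.range (fun n : ℕ => ell (n + 1) / ((n : ℝ) + 1) ^ 2)) := by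
  refine ⟨Real.logb 2 19521 / 9, ?_⟩
  rintro x ⟨n, rfl⟩
  have h := ell_le (n + 1)
  push_cast at h
  simp only
  rw [div_le_div_iff₀ (by positivity) (by norm_num)]
  linarith

theorem ell_le_lam (n : ℕ) : ell n ≤ lam * (n : ℝ) ^ 2 := by
  rcases Nat.eq_zero_or_pos n with rfl | hn
  · have := ell_le 0
    simp at this ⊢
    linarith
  · obtain ⟨m, rfl⟩ : ∃ m, n = m + 1 := ⟨n - 1, by omega⟩
    have h := le_ciSup lam_bdd m
    rw [div_le_iff₀ (by positivity)] at h
    push_cast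
    exact h

theorem lam_le : lam ≤ Real.logb 2 19521 / 9 := by
  refine ciSup_le (fun n => ?_)
  have h := ell_le (n + 1)
  push_cast at h
  rw [div_le_div_iff₀ (by positivity) (by norm_num)]
  linarith

theorem lam_ge (c : ℕ) : lam * (c : ℝ) ^ 2 ≤ ell (c + 2) := by
  rcases Nat.eq_zero_or_pos c with rfl | hc
  · simpa using ell_nonneg 2
  · have hc' : (0 : ℝ) < (c : ℝ) ^ 2 := by positivity
    rw [← le_div_iff₀ hc']
    refine ciSup_le (fun n => ?_)
    have h1 := ell_super (b := n + 1) (k := c) (Nat.succ_pos n)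
    have h2 := ell_sub (b := c) (k := n + 1) hc
    rw [Nat.mul_comm] at h2
    push_cast at h2
    rw [div_le_div_iff₀ (by positivity) hc']
    linarith

theorem pow_aux1 : (2 : ℕ) ^ 13626 < 12675 ^ 1000 := by decide +kernel

theorem pow_aux2 : (19521 : ℕ) ^ 1000 < 2 ^ 14256 := by decide +kernel

theorem lam_gt : 1.514 < lam := by
  have h1 := ell_le_lam 3
  have h2 : Real.logb 2 12675 ≤ ell 3 := by
    unfold ell
    exact Real.logb_le_logb_of_le (by norm_num) (by norm_num) (by exact_mod_cast legalCount_three)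
  have h3 : (13.626 : ℝ) < Real.logb 2 12675 := by
    rw [Real.lt_logb_iff_rpow_lt (by norm_num) (by norm_num)]
    have h4 : ((2 : ℝ) ^ (13.626 : ℝ)) ^ (1000 : ℕ) < (12675 : ℝ) ^ (1000 : ℕ) := by
      rw [← Real.rpow_natCast, ← Real.rpow_mul (by norm_num)]
      have : (13.626 : ℝ) * ((1000 : ℕ) : ℝ) = ((13626 : ℕ) : ℝ) := by norm_num
      rw [this, Real.rpow_natCast]
      exact_mod_cast pow_aux1
    exact lt_of_pow_lt_pow_left₀ 1000 (by norm_num) h4
  push_cast at h1
  nlinarith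

theorem lam_lt : lam < 1.584 := by
  have h1 := lam_le
  have h3 : Real.logb 2 19521 < (14.256 : ℝ) := by
    rw [Real.logb_lt_iff_lt_rpow (by norm_num) (by norm_num)]
    have h4 : (19521 : ℝ) ^ (1000 : ℕ) < ((2 : ℝ) ^ (14.256 : ℝ)) ^ (1000 : ℕ) := by
      rw [← Real.rpow_natCast (2 ^ (14.256 : ℝ)), ← Real.rpow_mul (by norm_num)]
      have : (14.256 : ℝ) * ((1000 : ℕ) : ℝ) = ((14256 : ℕ) : ℝ) := by norm_num
      rw [this, Real.rpow_natCast]
      exact_mod_cast pow_aux2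
    exact lt_of_pow_lt_pow_left₀ 1000 (by positivity) h4
  linarith

theorem ell_tendsto : Tendsto (fun n : ℕ => ell n / (n : ℝ) ^ 2) atTop (𝓝 lam) := by
  have h1 : Tendsto (fun n : ℕ => lam * (1 - 2 / (n : ℝ)) ^ 2) atTop (𝓝 (lam * (1 - 0) ^ 2)) := by
    have h0 : Tendsto (fun n : ℕ => 2 / (n : ℝ)) atTop (𝓝 0) :=
      tendsto_const_div_atTop_nhds_zero_nat 2
    exact ((tendsto_const_nhds.sub h0).pow 2).const_mul lam
  rw [sub_zero, one_pow, mul_one] at h1
  refine tendsto_of_tendsto_of_tendsto_of_le_of_le' h1 tendsto_const_nhds ?_ ?_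
  · filter_upwards [eventually_ge_atTop 2] with n hn
    obtain ⟨c, rfl⟩ : ∃ c, n = c + 2 := ⟨n - 2, by omega⟩
    have h2 := lam_ge c
    have hpos : (0 : ℝ) < ((c + 2 : ℕ) : ℝ) := by positivity
    rw [le_div_iff₀ (by positivity)]
    have h3 : (1 - 2 / ((c + 2 : ℕ) : ℝ)) * ((c + 2 : ℕ) : ℝ) = c := by
      field_simp
      push_cast
      ring
    calc lam * (1 - 2 / ((c + 2 : ℕ) : ℝ)) ^ 2 * ((c + 2 : ℕ) : ℝ) ^ 2
        = lam * ((1 - 2 / ((c + 2 : ℕ) : ℝ)) * ((c + 2 : ℕ) : ℝ)) ^ 2 := by ring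
      _ = lam * (c : ℝ) ^ 2 := by rw [h3]
      _ ≤ _ := h2
  · filter_upwards [eventually_ge_atTop 1] with n hn
    have hpos : (0 : ℝ) < (n : ℝ) := by exact_mod_cast hn
    rw [div_le_iff₀ (by positivity)]
    exact ell_le_lam n

/-! ### Building tours -/

/-- adding a sequence of squares -/
theorem add_seq {b s : ℕ} (hb : 1 ≤ b) (hs2 : 2 ≤ s) (hs : s ≤ legalCount b)
    (R : ℕ → Set (ℕ × ℕ)) (X Y : ℕ → ℕ) (c : ℕ)
    (hR : ∀ j < c, R j ∪ sq (X j) (Y j) (b + 7) ⊆ R (j + 1))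
    (hd : ∀ j < c, ∀ p, p ∈ sq (X j) (Y j) (b + 7) → p ∈ R j → False)
    {N : ℕ} (hT : Tour (R 0) N) (hsN : s ≤ N) :
    ∃ N', Tour (R c) N' ∧ s ^ c * N ≤ 2 ^ c * N' ∧ N ≤ N' := by
  induction c with
  | zero => exact ⟨N, hT, by simp, le_rfl⟩
  | succ c ih =>
    obtain ⟨N1, h1, h2, h3⟩ := ih (fun j hj => hR j (by omega)) (fun j hj => hd j (by omega))
    obtain ⟨N2, h4, h5⟩ := tour_add h1 hb (by omega : 1 ≤ s) hs (hsN.trans h3) (hd c (by omega))
    refine ⟨N2, h4.mono (hR c (by omega)), ?_, ?_⟩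
    · calc s ^ (c + 1) * N = s * (s ^ c * N) := by ring
        _ ≤ s * (2 ^ c * N1) := Nat.mul_le_mul_left _ h2
        _ = 2 ^ c * (s * N1) := by ring
        _ ≤ 2 ^ c * (2 * N2) := Nat.mul_le_mul_left _ h5
        _ = 2 ^ (c + 1) * N2 := by ring
    · have : 2 * N1 ≤ 2 * N2 := (Nat.mul_le_mul_right _ hs2).trans h5
      omega

/-- adding a layer of `2 q + 1` squares -/
theorem add_layer {b s k q : ℕ} (hb : 1 ≤ b) (hs2 : 2 ≤ s) (hs : s ≤ legalCount b)
    (hq : q * (b + 7) ≤ k) {N : ℕ} (hT : Tour (sq 0 0 k) N) (hsN : s ≤ N) :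
    ∃ N', Tour (sq 0 0 (k + (b + 7))) N' ∧ s ^ (2 * q + 1) * N ≤ 2 ^ (2 * q + 1) * N' ∧
      N ≤ N' := by
  set m := b + 7 with hm
  -- first strip
  obtain ⟨N1, h1, h2, h3⟩ := add_seq hb hs2 hs
    (fun j => sq 0 0 k ∪ {p | k ≤ p.1 ∧ p.1 < k + m ∧ p.2 < j * m}) (fun _ => k)
    (fun j => j * m) q (by
      intro j hj p hp
      have e : (j + 1) * m = j * m + m := by ring
      simp only [Set.mem_union, sq, Set.mem_ofPred_eq] at hp ⊢
      rw [e]
      rw [← hm] at hp
      omega) (by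
      intro j hj p hp hp'
      have e : (j + 1) * m ≤ q * m := Nat.mul_le_mul_right _ hj
      have e2 : (j + 1) * m = j * m + m := by ring
      simp only [Set.mem_union, sq, Set.mem_ofPred_eq] at hp hp'
      omega) (hT.mono Set.subset_union_left) hsN
  -- second strip
  obtain ⟨N2, h4, h5, h6⟩ := add_seq hb hs2 hs
    (fun j => (sq 0 0 k ∪ {p | k ≤ p.1 ∧ p.1 < k + m ∧ p.2 < q * m}) ∪
      {p | k ≤ p.2 ∧ p.2 < k + m ∧ p.1 < j * m}) (fun j => j * m) (fun _ => k) q (by
      intro j hj p hp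
      have e : (j + 1) * m = j * m + m := by ring
      simp only [Set.mem_union, sq, Set.mem_ofPred_eq] at hp ⊢
      rw [e]
      rw [← hm] at hp
      omega) (by
      intro j hj p hp hp'
      have e : (j + 1) * m ≤ q * m := Nat.mul_le_mul_right _ hj
      have e2 : (j + 1) * m = j * m + m := by ring
      simp only [Set.mem_union, sq, Set.mem_ofPred_eq] at hp hp'
      omega) (h1.mono Set.subset_union_left) (hsN.trans h3)
  -- corner
  obtain ⟨N3, h7, h8⟩ := tour_add (X0 := k) (Y0 := k) h4 hb (by omega : 1 ≤ s) hs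
    (hsN.trans (h3.trans h6)) (by
      intro p hp hp'
      simp only [Set.mem_union, sq, Set.mem_ofPred_eq] at hp hp'
      omega)
  refine ⟨N3, h7.mono ?_, ?_, ?_⟩
  · intro p hp
    simp only [Set.mem_union, sq, Set.mem_ofPred_eq] at hp ⊢
    omega
  · calc s ^ (2 * q + 1) * N = s * (s ^ q * (s ^ q * N)) := by ring
      _ ≤ s * (s ^ q * (2 ^ q * N1)) :=
        Nat.mul_le_mul_left _ (Nat.mul_le_mul_left _ h2)
      _ = s * (2 ^ q * (s ^ q * N1)) := by ring
      _ ≤ s * (2 ^ q * (2 ^ q * N2)) :=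
        Nat.mul_le_mul_left _ (Nat.mul_le_mul_left _ h5)
      _ = 2 ^ q * 2 ^ q * (s * N2) := by ring
      _ ≤ 2 ^ q * 2 ^ q * (2 * N3) := Nat.mul_le_mul_left _ h8
      _ = 2 ^ (2 * q + 1) * N3 := by ring
  · have h9 : 2 * N2 ≤ 2 * N3 := (Nat.mul_le_mul_right _ hs2).trans h8
    omega

theorem seed_tour (j : ℕ) (hj : 2 ≤ j) :
    ∃ N, Tour (sq 0 0 (10 * j)) N ∧ 2 ^ 13 ≤ N ∧ 2 ^ (12 * j ^ 2) ≤ 2 ^ 35 * N := by
  have h3 : 2 ^ 13 ≤ legalCount 3 := le_trans (by norm_num) legalCount_three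
  induction j, hj using Nat.le_induction with
  | base =>
    refine ⟨2 * (2 ^ 13 - 1) + 1, ?_, by norm_num, by norm_num⟩
    have h := tour_base (b := 3) (s := 2 ^ 13) (X1 := 0) (Y1 := 0) (X2 := 10) (Y2 := 0)
      (by norm_num) (by norm_num) h3 (by
        intro p hp hp'
        simp only [sq, Set.mem_ofPred_eq] at hp hp'
        omega)
    refine h.mono ?_
    intro p hp
    simp only [sq, Set.mem_union, Set.mem_ofPred_eq] at hp ⊢
    omega
  | succ j hj ih =>
    obtain ⟨N, h1, h2, h4⟩ := ih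
    obtain ⟨N', h5, h6, h7⟩ := add_layer (b := 3) (s := 2 ^ 13) (k := 10 * j) (q := j)
      (by norm_num) (by norm_num) h3 (by omega) h1 h2
    refine ⟨N', ?_, h2.trans h7, ?_⟩
    · have e : 10 * (j + 1) = 10 * j + (3 + 7) := by ring
      rw [e]; exact h5
    · have e1 : 12 * (j + 1) ^ 2 = 12 * j ^ 2 + 12 * (2 * j + 1) := by ring
      have e2 : (2 ^ 13) ^ (2 * j + 1) = 2 ^ (12 * (2 * j + 1)) * 2 ^ (2 * j + 1) := by
        rw [← pow_mul, ← pow_add]
        congr 1
        ring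
      rw [e1, pow_add]
      rw [e2] at h6
      have h8 : 2 ^ (12 * (2 * j + 1)) * N ≤ N' := by
        have h9 : 2 ^ (2 * j + 1) * (2 ^ (12 * (2 * j + 1)) * N) ≤ 2 ^ (2 * j + 1) * N' := by
          calc _ = 2 ^ (12 * (2 * j + 1)) * 2 ^ (2 * j + 1) * N := by ring
            _ ≤ _ := h6
        exact Nat.le_of_mul_le_mul_left h9 (by positivity)
      calc 2 ^ (12 * j ^ 2) * 2 ^ (12 * (2 * j + 1))
          ≤ 2 ^ 35 * N * 2 ^ (12 * (2 * j + 1)) := Nat.mul_le_mul_right _ h4
        _ = 2 ^ 35 * (2 ^ (12 * (2 * j + 1)) * N) := by ring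
        _ ≤ 2 ^ 35 * N' := Nat.mul_le_mul_left _ h8

/-- there is a tour in the `k × k` square through at least `2 ^ x` words -/
def Good (k : ℕ) (x : ℝ) : Prop := ∃ N, Tour (sq 0 0 k) N ∧ x ≤ Real.logb 2 N ∧ 1 ≤ N

theorem sq_mono {k l : ℕ} (h : k ≤ l) : sq 0 0 k ⊆ sq 0 0 l := by
  intro p hp
  simp only [sq, Set.mem_ofPred_eq] at hp ⊢
  omega

theorem Good.mono {k l : ℕ} {x : ℝ} (h : k ≤ l) (hG : Good k x) : Good l x := by
  obtain ⟨N, h1, h2, h3⟩ := hG
  exact ⟨N, h1.mono (sq_mono h), h2, h3⟩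

theorem Good.max {k : ℕ} {x y : ℝ} (h1 : Good k x) (h2 : Good k y) : Good k (max x y) := by
  rcases le_total x y with h | h
  · rwa [max_eq_right h]
  · rwa [max_eq_left h]

theorem good_seed (k : ℕ) (hk : 20 ≤ k) : Good k (12 * ((k / 10 : ℕ) : ℝ) ^ 2 - 35) := by
  obtain ⟨N, h1, h2, h3⟩ := seed_tour (k / 10) (by omega)
  refine Good.mono (by omega : 10 * (k / 10) ≤ k) ⟨N, h1, ?_, by omega⟩
  have hN : (0 : ℝ) < N := by
    have : 0 < N := lt_of_lt_of_le (by norm_num) h2
    exact_mod_cast this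
  have h4 : ((2 : ℝ) ^ (12 * (k / 10) ^ 2 : ℕ)) ≤ 2 ^ (35 : ℕ) * N := by exact_mod_cast h3
  have h5 := Real.logb_le_logb_of_le (b := 2) (by norm_num) (by positivity) h4
  rw [Real.logb_pow, Real.logb_self_eq_one (by norm_num), Real.logb_mul (by positivity)
    (by positivity), Real.logb_pow, Real.logb_self_eq_one (by norm_num)] at h5
  push_cast at h5 ⊢
  linarith

theorem good_layer {b k q : ℕ} {x : ℝ} (hb : 1 ≤ b) (hs2 : 2 ≤ legalCount b)
    (hq : q * (b + 7) ≤ k) (hG : Good k x) (hx : ell b ≤ x) :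
    Good (k + (b + 7)) (x + (2 * q + 1) * (ell b - 1)) := by
  obtain ⟨N, h1, h2, h3⟩ := hG
  have hN : (0 : ℝ) < N := by exact_mod_cast h3
  have hL : (0 : ℝ) < legalCount b := by exact_mod_cast legalCount_pos b
  have hsN : legalCount b ≤ N := by
    have h4 : Real.logb 2 (legalCount b) ≤ Real.logb 2 N := hx.trans h2
    have h5 := (Real.logb_le_logb (by norm_num) hL hN).1 h4
    exact_mod_cast h5
  obtain ⟨N', h4, h5, h6⟩ := add_layer hb hs2 le_rfl hq h1 hsN
  refine ⟨N', h4, ?_, h3.trans h6⟩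
  have hN' : (0 : ℝ) < N' := by exact_mod_cast lt_of_lt_of_le h3 h6
  have h7 : (legalCount b : ℝ) ^ (2 * q + 1) * N ≤ 2 ^ (2 * q + 1) * N' := by exact_mod_cast h5
  have h8 := Real.logb_le_logb_of_le (b := 2) (by norm_num) (by positivity) h7
  rw [Real.logb_mul (by positivity) (by positivity), Real.logb_mul (by positivity)
    (by positivity), Real.logb_pow, Real.logb_pow, Real.logb_self_eq_one (by norm_num)] at h8
  unfold ell
  push_cast at h8
  linarith

/-- The main lower bound. -/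
theorem good_main : ∃ C D : ℝ, 0 ≤ C ∧ ∀ n : ℕ, 20 ≤ n →
    Good n (lam * (n : ℝ) ^ 2 - C * n - D) := by
  have hlam0 : 0 < lam := by have := lam_gt; linarith
  have hlam1 := lam_lt
  refine ⟨398 * lam + 21, lam * 200 ^ 2, by positivity, ?_⟩
  intro n
  induction n using Nat.strong_induction_on with
  | _ n ih =>
    intro hn
    have hnpos : (0 : ℝ) < n := by
      have : 0 < n := by omega
      exact_mod_cast this
    have hseed := good_seed n hn
    rcases Nat.lt_or_ge n 200 with hlt | hge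
    · -- small n
      obtain ⟨N, h1, h2, h3⟩ := hseed
      refine ⟨N, h1, ?_, h3⟩
      have h4 : 0 ≤ Real.logb 2 N := Real.logb_nonneg (by norm_num) (by exact_mod_cast h3)
      have h5 : (n : ℝ) ≤ 200 := by exact_mod_cast hlt.le
      have h6 : lam * (n : ℝ) ^ 2 ≤ lam * 200 ^ 2 := by
        apply mul_le_mul_of_nonneg_left _ hlam0.le
        exact pow_le_pow_left₀ hnpos.le h5 2
      have h7 : 0 ≤ (398 * lam + 21) * n := by positivity
      linarith
    · -- large n
      obtain ⟨c, hc⟩ : ∃ c, n / 11 = c + 9 := ⟨n / 11 - 9, by omega⟩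
      have hcn : 11 * (c + 9) ≤ n := by omega
      have hcn' : n < 11 * (c + 9) + 11 := by omega
      set k := n - (c + 9) with hk
      have hkn : k + (c + 2 + 7) = n := by omega
      have hk20 : 20 ≤ k := by omega
      have h1 := ih k (by omega) hk20
      have h2 := h1.max (good_seed k hk20)
      have hq : 10 * (c + 2 + 7) ≤ k := by omega
      have hj : c + 9 ≤ k / 10 := by omega
      have hs2 : 2 ≤ legalCount (c + 2) := by
        by_contra hcon
        have h5 : legalCount (c + 2) = 1 := by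
          have := legalCount_pos (c + 2)
          omega
        have h6 := lam_ge c
        have h7 : ell (c + 2) = 0 := by unfold ell; rw [h5]; simp
        rw [h7] at h6
        have hcpos : (0 : ℝ) < (c : ℝ) := by
          have : 0 < c := by omega
          exact_mod_cast this
        have : 0 < lam * (c : ℝ) ^ 2 := by positivity
        linarith
      have hx : ell (c + 2) ≤ max (lam * (k : ℝ) ^ 2 - (398 * lam + 21) * k - lam * 200 ^ 2)
          (12 * ((k / 10 : ℕ) : ℝ) ^ 2 - 35) := by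
        refine le_trans ?_ (le_max_right _ _)
        have h5 := ell_le_lam (c + 2)
        have h6 : ((c + 2 : ℕ) : ℝ) ^ 2 ≤ ((k / 10 : ℕ) : ℝ) ^ 2 := by
          apply pow_le_pow_left₀ (by positivity)
          exact_mod_cast (by omega : c + 2 ≤ k / 10)
        have h7 : (9 : ℝ) ≤ ((k / 10 : ℕ) : ℝ) := by
          exact_mod_cast (by omega : 9 ≤ k / 10)
        have h8 : lam * ((c + 2 : ℕ) : ℝ) ^ 2 ≤ 2 * ((k / 10 : ℕ) : ℝ) ^ 2 := by
          calc lam * ((c + 2 : ℕ) : ℝ) ^ 2 ≤ 2 * ((c + 2 : ℕ) : ℝ) ^ 2 := by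
                apply mul_le_mul_of_nonneg_right (by linarith) (by positivity)
            _ ≤ _ := by linarith
        nlinarith
      have h3 := good_layer (b := c + 2) (q := 10) (by omega) hs2 hq h2 hx
      rw [hkn] at h3
      obtain ⟨N, g1, g2, g3⟩ := h3
      refine ⟨N, g1, le_trans ?_ g2, g3⟩
      have h4 := lam_ge c
      have h5 := le_max_left (lam * (k : ℝ) ^ 2 - (398 * lam + 21) * k - lam * 200 ^ 2)
        (12 * ((k / 10 : ℕ) : ℝ) ^ 2 - 35)
      have hnk : (n : ℝ) = k + (c + 9) := by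
        have : n = k + (c + 9) := by omega
        rw [this]; push_cast; ring
      have hkc : (k : ℝ) ≤ 10 * (c + 9) + 10 := by
        have : k ≤ 10 * (c + 9) + 10 := by omega
        exact_mod_cast this
      have hkc' : (10 * (c + 9) : ℝ) ≤ k := by
        have : 10 * (c + 9) ≤ k := by omega
        exact_mod_cast this
      have hc0 : (0 : ℝ) ≤ c := by positivity
      push_cast
      rw [hnk]
      -- the loss of the layer
      have key : lam * ((k : ℝ) + (c + 9)) ^ 2 - (398 * lam + 21) * ((k : ℝ) + (c + 9)) -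
          lam * 200 ^ 2 ≤ (lam * (k : ℝ) ^ 2 - (398 * lam + 21) * k - lam * 200 ^ 2) +
          (2 * 10 + 1) * (lam * (c : ℝ) ^ 2 - 1) := by
        have e : (lam * (k : ℝ) ^ 2 - (398 * lam + 21) * k - lam * 200 ^ 2) +
          (2 * 10 + 1) * (lam * (c : ℝ) ^ 2 - 1) -
          (lam * ((k : ℝ) + (c + 9)) ^ 2 - (398 * lam + 21) * ((k : ℝ) + (c + 9)) -
          lam * 200 ^ 2) =
          lam * (2 * (c + 9) * (10 * (c + 9) + 10 - k) + 21 * 81) + 21 * (c + 8) := by ring
        have h6 : 0 ≤ lam * (2 * ((c : ℝ) + 9) * (10 * (c + 9) + 10 - k) + 21 * 81) := by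
          apply mul_nonneg hlam0.le
          have : 0 ≤ 2 * ((c : ℝ) + 9) * (10 * (c + 9) + 10 - k) :=
            mul_nonneg (by positivity) (by linarith)
          linarith
        have h7 : (0 : ℝ) ≤ 21 * ((c : ℝ) + 8) := by positivity
        linarith
      linarith

/-! ### The bounds for the number of games -/

theorem gameCount_lower : ∃ C : ℝ, ∀ n : ℕ, 20 ≤ n → 2 ≤ gameCount n ∧ 1 < Real.logb 2 (gameCount n)
    ∧ lam * (n : ℝ) ^ 2 - C * n ≤ Real.logb 2 (Real.logb 2 (gameCount n)) := by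
  obtain ⟨C, D, hC, hmain⟩ := good_main
  refine ⟨C + |D| + 1, ?_⟩
  intro n hn
  obtain ⟨N, h1, h2, h3⟩ := (hmain n hn).max (good_seed n hn)
  have h4 : (13 : ℝ) ≤ Real.logb 2 N := by
    refine le_trans ?_ ((le_max_right _ _).trans h2)
    have : (2 : ℝ) ≤ ((n / 10 : ℕ) : ℝ) := by exact_mod_cast (by omega : 2 ≤ n / 10)
    nlinarith
  have h5 := (le_max_left _ _).trans h2
  have hN : (0 : ℝ) < N := by exact_mod_cast h3
  have hN2 : (2 : ℝ) ^ (13 : ℝ) ≤ N := (Real.le_logb_iff_rpow_le (by norm_num) hN).1 h4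
  have hN3 : (8192 : ℝ) ≤ N := by
    have : (2 : ℝ) ^ (13 : ℝ) = 8192 := by
      rw [show (13 : ℝ) = ((13 : ℕ) : ℝ) by norm_num, Real.rpow_natCast]; norm_num
    rwa [this] at hN2
  have hN4 : 8192 ≤ N := by exact_mod_cast hN3
  have h6 := tour_games h1 (n := n) (by
    rintro p ⟨-, g2, -, g4⟩
    exact ⟨by omega, by omega⟩) (games_finite n)
  have h7 : (2 : ℝ) ^ (N - 1 : ℕ) ≤ gameCount n := by exact_mod_cast h6
  have h8 : ((N - 1 : ℕ) : ℝ) ≤ Real.logb 2 (gameCount n) := by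
    have h9 := Real.logb_le_logb_of_le (b := 2) (by norm_num) (by positivity) h7
    rwa [Real.logb_pow, Real.logb_self_eq_one (by norm_num), mul_one] at h9
  have h9 : (N : ℝ) / 2 ≤ ((N - 1 : ℕ) : ℝ) := by
    rw [Nat.cast_sub (by omega : 1 ≤ N)]
    push_cast
    linarith
  have h10 : (N : ℝ) / 2 ≤ Real.logb 2 (gameCount n) := h9.trans h8
  refine ⟨?_, by linarith, ?_⟩
  · have : 2 ^ 1 ≤ 2 ^ (N - 1) := Nat.pow_le_pow_right (by norm_num) (by omega)
    omega
  · have h11 := Real.logb_le_logb_of_le (b := 2) (by norm_num) (by positivity) h10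
    rw [Real.logb_div (by positivity) (by norm_num), Real.logb_self_eq_one (by norm_num)] at h11
    have hn1 : (1 : ℝ) ≤ n := by exact_mod_cast (by omega : 1 ≤ n)
    have hD : D ≤ |D| * n := by
      calc D ≤ |D| := le_abs_self D
        _ = |D| * 1 := (mul_one _).symm
        _ ≤ |D| * n := mul_le_mul_of_nonneg_left hn1 (abs_nonneg D)
    have e : (C + |D| + 1) * (n : ℝ) = C * n + |D| * n + n := by ring
    linarith

theorem logb_nat_le (m : ℕ) : Real.logb 2 m ≤ m := by
  rcases Nat.eq_zero_or_pos m with rfl | hm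
  · simp
  · have hm' : (0 : ℝ) < m := by exact_mod_cast hm
    rw [Real.logb_le_iff_le_rpow (by norm_num) hm', Real.rpow_natCast]
    exact_mod_cast (Nat.lt_two_pow_self (n := m)).le

theorem gameCount_upper (n : ℕ) (h2 : 2 ≤ gameCount n) :
    Real.logb 2 (Real.logb 2 (gameCount n)) ≤ lam * (n : ℝ) ^ 2 + (2 * n + 3) := by
  have hg : (2 : ℝ) ≤ gameCount n := by exact_mod_cast h2
  have hpos : 0 < Real.logb 2 (gameCount n) := Real.logb_pos (by norm_num) (by linarith)
  have h3 : (gameCount n : ℝ) ≤ ((n : ℝ) ^ 2 + 2) ^ (2 * legalCount n) := by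
    exact_mod_cast gameCount_le n
  have h4 := Real.logb_le_logb_of_le (b := 2) (by norm_num) (by linarith) h3
  rw [Real.logb_pow] at h4
  have h5 : Real.logb 2 ((n : ℝ) ^ 2 + 2) ≤ ((2 * n + 2 : ℕ) : ℝ) := by
    rw [Real.logb_le_iff_le_rpow (by norm_num) (by positivity), Real.rpow_natCast]
    have h6 : n ^ 2 + 2 ≤ 2 ^ (2 * n + 2) := by
      have h7 : n < 2 ^ n := Nat.lt_two_pow_self
      have h8 : 2 ^ (2 * n + 2) = 4 * (2 ^ n) ^ 2 := by ring
      rw [h8]
      nlinarith [Nat.one_le_two_pow (n := n)]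
    exact_mod_cast h6
  have hL : (0 : ℝ) < legalCount n := by exact_mod_cast legalCount_pos n
  have h6 : Real.logb 2 (gameCount n) ≤ 2 * legalCount n * ((2 * n + 2 : ℕ) : ℝ) := by
    refine h4.trans ?_
    push_cast
    push_cast at h5
    exact mul_le_mul_of_nonneg_left h5 (by positivity)
  have h7 := Real.logb_le_logb_of_le (b := 2) (by norm_num) hpos h6
  have hpos2 : (0 : ℝ) < ((2 * n + 2 : ℕ) : ℝ) := by positivity
  rw [Real.logb_mul (by positivity) (by positivity), Real.logb_mul (by norm_num) (by positivity),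
    Real.logb_self_eq_one (by norm_num)] at h7
  have h8 := logb_nat_le (2 * n + 2)
  have h9 := ell_le_lam n
  unfold ell at h9
  push_cast at h7 h8
  linarith

/-- **Growth of the number of Go games.** -/
theorem growth : ∃ c : ℝ, 1.514 < c ∧ c < 1.584 ∧
    (fun n : ℕ => Real.logb 2 (legalCount n) - c * (n : ℝ) ^ 2) =O[atTop]
      (fun n : ℕ => (n : ℝ)) ∧
    (fun n : ℕ => Real.logb 2 (Real.logb 2 (gameCount n)) - c * (n : ℝ) ^ 2) =O[atTop]
      (fun n : ℕ => (n : ℝ)) := by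
  have hlam := lam_gt
  refine ⟨lam, hlam, lam_lt, ?_, ?_⟩
  · refine Asymptotics.IsBigO.of_bound (4 * lam) ?_
    filter_upwards [eventually_ge_atTop 2] with n hn
    obtain ⟨c, rfl⟩ : ∃ c, n = c + 2 := ⟨n - 2, by omega⟩
    have h1 := lam_ge c
    have h2 := ell_le_lam (c + 2)
    unfold ell at h1 h2
    rw [Real.norm_eq_abs, Real.norm_eq_abs, abs_of_nonneg (by positivity : (0 : ℝ) ≤
      ((c + 2 : ℕ) : ℝ)), abs_le]
    push_cast at h1 h2 ⊢
    constructor
    · have : (0 : ℝ) ≤ c := by positivity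
      nlinarith
    · have : 0 ≤ 4 * lam * ((c : ℝ) + 2) := by
        have : 0 < lam := by linarith
        positivity
      linarith
  · obtain ⟨C, hC⟩ := gameCount_lower
    refine Asymptotics.IsBigO.of_bound (|C| + 5) ?_
    filter_upwards [eventually_ge_atTop 20] with n hn
    obtain ⟨h1, -, h2⟩ := hC n hn
    have h3 := gameCount_upper n h1
    have hn1 : (1 : ℝ) ≤ n := by exact_mod_cast (by omega : 1 ≤ n)
    rw [Real.norm_eq_abs, Real.norm_eq_abs, abs_of_nonneg (by positivity : (0 : ℝ) ≤ (n : ℝ)),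
      abs_le]
    have h4 : C * n ≤ |C| * n := mul_le_mul_of_nonneg_right (le_abs_self C) (by positivity)
    have h5 : 0 ≤ |C| * n := by positivity
    constructor
    · linarith
    · linarith

end Pool.Agent.helper12.Go
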