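import Pool.Agent.helper12.GoGames

set_option autoImplicit false

namespace Pool.Agent.helper12.Go

/-- the staircase schedule on two cells with the same contents -/
def Schedule.base {Z : Type} (y : ℕ → Z) (s : ℕ) (hy : ∀ k < s, ∀ l < s, y k = y l → k = l) :
    Schedule Bool (fun _ => Z) (2 * (s - 1)) where
  W τ b := if b then y ((τ + 1) / 2) else y (τ / 2)
  ι τ := decide (τ % 2 = 0)
  step := by
    intro τ hτ j hj
    rcases Nat.mod_two_eq_zero_or_one τ with h | h
    · have hj' : j = false := by simpa [h] using hj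
      subst hj'
      have : (τ + 1) / 2 = τ / 2 := by omega
      simp [this]
    · have hj' : j = true := by simpa [h] using hj
      subst hj'
      have : (τ + 1 + 1) / 2 = (τ + 1) / 2 := by omega
      simp only [if_true]
      rw [this]
  step_ne := by
    intro τ hτ h
    rcases Nat.mod_two_eq_zero_or_one τ with h0 | h0
    · have e : decide (τ % 2 = 0) = true := by simp [h0]
      rw [e] at h
      simp only [if_true] at h
      have := hy _ (by omega) _ (by omega) h
      omega
    · have e : decide (τ % 2 = 0) = false := by simp [h0]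
      rw [e] at h
      simp only [Bool.false_eq_true, if_false] at h
      have := hy _ (by omega) _ (by omega) h
      omega
  inj := by
    intro τ hτ σ hσ h
    by_cases hs : s = 0
    · omega
    have h1 := congrFun h true
    have h2 := congrFun h false
    simp only [if_true] at h1
    simp only [Bool.false_eq_true, if_false] at h2
    have h3 := hy _ (by omega) _ (by omega) h1
    have h4 := hy _ (by omega) _ (by omega) h2
    omega
  line := by
    intro τ hτ σ hσ hι h
    have hpar : (τ % 2 = 0) ↔ (σ % 2 = 0) := by simpa using hι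
    rcases Nat.mod_two_eq_zero_or_one τ with h0 | h0
    · have h1 := h false (by simp [h0])
      simp only [Bool.false_eq_true, if_false] at h1
      have h3 := hy _ (by omega) _ (by omega) h1
      omega
    · have h1 := h true (by simp [h0])
      simp only [if_true] at h1
      have h3 := hy _ (by omega) _ (by omega) h1
      omega

/-- the pair (phase, lower position) at time `t` of the zigzag through `N` lower positions -/
def zst (N : ℕ) : ℕ → ℕ × ℕ
  | 0 => (0, 0)
  | t + 1 =>
    if (zst N t).1 % 2 = 0 then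
      if (zst N t).2 + (zst N t).1 / 2 + 1 < N then ((zst N t).1, (zst N t).2 + 1)
      else ((zst N t).1 + 1, (zst N t).2)
    else
      if ((zst N t).1 + 1) / 2 < (zst N t).2 then ((zst N t).1, (zst N t).2 - 1)
      else ((zst N t).1 + 1, (zst N t).2)

/-- number of times of the first `k` phases -/
def zR (N : ℕ) : ℕ → ℕ
  | 0 => 0
  | k + 1 => zR N k + (N - k)

/-- the time from the state -/
def zrank (N : ℕ) (k p : ℕ) : ℕ :=
  zR N k + (if k % 2 = 0 then p - k / 2 else N - (k + 1) / 2 - p)

/-- the valid states -/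
def zval (N : ℕ) (k p : ℕ) : Prop :=
  if k % 2 = 0 then k / 2 ≤ p ∧ p + k / 2 + 1 ≤ N else (k + 1) / 2 ≤ p ∧ p + (k + 1) / 2 ≤ N

theorem zR_mono (N : ℕ) {k l : ℕ} (h : k ≤ l) : zR N k ≤ zR N l := by
  induction l with
  | zero => simp_all
  | succ l ih =>
    rcases Nat.lt_or_ge k (l + 1) with h1 | h1
    · have := ih (by omega)
      show zR N k ≤ zR N l + (N - l)
      omega
    · have : k = l + 1 := by omega
      rw [this]

theorem zstep {N k p s : ℕ} (hs : s ≤ N) (hk : k < s) (hv : zval N k p)
    (hlt : zrank N k p + 1 < zR N s) :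
    (k % 2 = 0 ∧ p + k / 2 + 1 < N ∧ zval N k (p + 1) ∧ zrank N k (p + 1) = zrank N k p + 1) ∨
    (k % 2 = 1 ∧ (k + 1) / 2 < p ∧ zval N k (p - 1) ∧ zrank N k (p - 1) = zrank N k p + 1) ∨
    (((k % 2 = 0 ∧ p + k / 2 + 1 = N) ∨ (k % 2 = 1 ∧ p = (k + 1) / 2)) ∧ k + 1 < s ∧
      zval N (k + 1) p ∧ zrank N (k + 1) p = zrank N k p + 1) := by
  have hRs : zR N (k + 1) = zR N k + (N - k) := rfl
  unfold zval zrank at *
  rcases Nat.mod_two_eq_zero_or_one k with h0 | h0
  · have h1 : ¬ ((k + 1) % 2 = 0) := by omega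
    simp only [h0, if_true] at hv hlt ⊢
    simp only [h1, if_false]
    by_cases hp : p + k / 2 + 1 < N
    · left
      refine ⟨trivial, hp, ?_, ?_⟩ <;> omega
    · right; right
      have hks : k + 1 < s := by
        by_contra hcon
        have hks : k + 1 = s := by omega
        rw [← hks, hRs] at hlt
        omega
      refine ⟨Or.inl ⟨trivial, by omega⟩, hks, by omega, ?_⟩
      rw [hRs]
      omega
  · have h1 : ((k + 1) % 2 = 0) := by omega
    have h2 : ¬ (k % 2 = 0) := by omega
    simp only [h2, if_false] at hv hlt ⊢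
    simp only [h1, if_true]
    by_cases hp : (k + 1) / 2 < p
    · right; left
      refine ⟨h0, hp, by omega, by omega⟩
    · right; right
      have hks : k + 1 < s := by
        by_contra hcon
        have hks : k + 1 = s := by omega
        rw [← hks, hRs] at hlt
        omega
      refine ⟨Or.inr ⟨h0, by omega⟩, hks, by omega, ?_⟩
      rw [hRs]
      omega

theorem zst_spec {N s : ℕ} (hs : s ≤ N) (hN : 0 < N) (t : ℕ) (ht : t < zR N s) :
    (zst N t).1 < s ∧ zval N (zst N t).1 (zst N t).2 ∧ zrank N (zst N t).1 (zst N t).2 = t := by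
  induction t with
  | zero =>
    have hs0 : 0 < s := by
      rcases Nat.eq_zero_or_pos s with h | h
      · subst h; simp [zR] at ht
      · exact h
    refine ⟨hs0, ?_, ?_⟩
    · simp [zst, zval]; omega
    · simp [zst, zrank, zR]
  | succ t ih =>
    obtain ⟨h1, h2, h3⟩ := ih (by omega)
    have h4 := zstep hs h1 h2 (by rw [h3]; exact ht)
    rcases h4 with ⟨a1, a2, a3, a4⟩ | ⟨a1, a2, a3, a4⟩ | ⟨a1, a2, a3, a4⟩
    · have e : zst N (t + 1) = ((zst N t).1, (zst N t).2 + 1) := by
        simp only [zst, a1, if_true, a2]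
      rw [e]
      exact ⟨h1, a3, by rw [a4, h3]⟩
    · have e : zst N (t + 1) = ((zst N t).1, (zst N t).2 - 1) := by
        have h5 : ¬ ((zst N t).1 % 2 = 0) := by omega
        simp only [zst, h5, if_false, a2, if_true]
      rw [e]
      exact ⟨h1, a3, by rw [a4, h3]⟩
    · have e : zst N (t + 1) = ((zst N t).1 + 1, (zst N t).2) := by
        rcases a1 with ⟨b1, b2⟩ | ⟨b1, b2⟩
        · have h5 : ¬ ((zst N t).2 + (zst N t).1 / 2 + 1 < N) := by omega
          simp only [zst, b1, if_true, h5, if_false]
        · have h5 : ¬ ((zst N t).1 % 2 = 0) := by omega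
          have h6 : ¬ (((zst N t).1 + 1) / 2 < (zst N t).2) := by omega
          simp only [zst, h5, if_false, h6]
      rw [e]
      exact ⟨a2, a3, by rw [a4, h3]⟩

theorem zst_cases {N s : ℕ} (hs : s ≤ N) (hN : 0 < N) (t : ℕ) (ht : t + 1 < zR N s) :
    ((zst N (t + 1)).1 = (zst N t).1 ∧ (zst N (t + 1)).2 = (zst N t).2 + 1 ∧
      (zst N t).1 % 2 = 0) ∨
    ((zst N (t + 1)).1 = (zst N t).1 ∧ (zst N t).2 = (zst N (t + 1)).2 + 1 ∧
      (zst N t).1 % 2 = 1) ∨
    ((zst N (t + 1)).1 = (zst N t).1 + 1 ∧ (zst N (t + 1)).2 = (zst N t).2 ∧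
      (((zst N t).1 % 2 = 0 ∧ (zst N t).2 + (zst N t).1 / 2 + 1 = N) ∨
        ((zst N t).1 % 2 = 1 ∧ (zst N t).2 = ((zst N t).1 + 1) / 2)) ∧ (zst N t).1 + 1 < s) := by
  obtain ⟨h1, h2, h3⟩ := zst_spec hs hN t (by omega)
  have h4 := zstep hs h1 h2 (by rw [h3]; exact ht)
  rcases h4 with ⟨a1, a2, a3, a4⟩ | ⟨a1, a2, a3, a4⟩ | ⟨a1, a2, a3, a4⟩
  · have e : zst N (t + 1) = ((zst N t).1, (zst N t).2 + 1) := by
      simp only [zst, a1, if_true, a2]
    left
    rw [e]
    exact ⟨rfl, rfl, a1⟩
  · have e : zst N (t + 1) = ((zst N t).1, (zst N t).2 - 1) := by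
      have h5 : ¬ ((zst N t).1 % 2 = 0) := by omega
      simp only [zst, h5, if_false, a2, if_true]
    right; left
    rw [e]
    exact ⟨rfl, by simp only; omega, a1⟩
  · have e : zst N (t + 1) = ((zst N t).1 + 1, (zst N t).2) := by
      rcases a1 with ⟨b1, b2⟩ | ⟨b1, b2⟩
      · have h5 : ¬ ((zst N t).2 + (zst N t).1 / 2 + 1 < N) := by omega
        simp only [zst, b1, if_true, h5, if_false]
      · have h5 : ¬ ((zst N t).1 % 2 = 0) := by omega
        have h6 : ¬ (((zst N t).1 + 1) / 2 < (zst N t).2) := by omega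
        simp only [zst, h5, if_false, h6]
    right; right
    rw [e]
    exact ⟨rfl, rfl, a1, a2⟩

theorem zst_bound {N s : ℕ} (hs : s ≤ N) (hN : 0 < N) (t : ℕ) (ht : t < zR N s) :
    (zst N t).2 < N := by
  obtain ⟨h1, h2, h3⟩ := zst_spec hs hN t ht
  unfold zval at h2
  split_ifs at h2 <;> omega

/-- the contents with a new cell added -/
abbrev OptY {I : Type} (Z : Type) (Y : I → Type) : Option I → Type
  | none => Z
  | some i => Y i

/-- the new words -/
def optW {I Z : Type} {Y : I → Type} (z : Z) (w : ∀ i, Y i) : ∀ o, OptY Z Y o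
  | none => z
  | some i => w i

/-- Adding a cell with `s` contents, `s ≤ N = T + 1`, to a schedule through `N` words. -/
def Schedule.add {I Z : Type} {Y : I → Type} {T : ℕ} (S : Schedule I Y T)
    (y : ℕ → Z) (s : ℕ) (hy : ∀ k < s, ∀ l < s, y k = y l → k = l) (hs : s ≤ T + 1) :
    Schedule (Option I) (OptY Z Y) (zR (T + 1) s - 1) where
  W t := optW (y (zst (T + 1) t).1) (S.W (zst (T + 1) t).2)
  ι t := if (zst (T + 1) (t + 1)).1 = (zst (T + 1) t).1 then
      some (S.ι (min (zst (T + 1) t).2 (zst (T + 1) (t + 1)).2)) else none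
  step := by
    intro t ht j hj
    have hb := zst_bound hs (Nat.succ_pos T) t (by omega)
    have hb' := zst_bound hs (Nat.succ_pos T) (t + 1) (by omega)
    rcases zst_cases hs (Nat.succ_pos T) t (by omega) with ⟨a1, a2, a3⟩ | ⟨a1, a2, a3⟩ |
      ⟨a1, a2, a3⟩
    · rw [if_pos a1] at hj
      rcases j with _ | i
      · show y _ = y _
        rw [a1]
      · show S.W _ i = S.W _ i
        rw [a2] at hj ⊢
        rw [min_eq_left (Nat.le_succ _)] at hj
        exact S.step _ (by omega) i (fun h => hj (by rw [h]))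
    · rw [if_pos a1] at hj
      rcases j with _ | i
      · show y _ = y _
        rw [a1]
      · show S.W _ i = S.W _ i
        rw [a2] at hj ⊢
        rw [min_eq_right (Nat.le_succ _)] at hj
        exact (S.step _ (by omega) i (fun h => hj (by rw [h]))).symm
    · rw [if_neg (by omega)] at hj
      rcases j with _ | i
      · exact absurd rfl hj
      · show S.W _ i = S.W _ i
        rw [a2]
  step_ne := by
    intro t ht
    have hb := zst_bound hs (Nat.succ_pos T) t (by omega)
    have hb' := zst_bound hs (Nat.succ_pos T) (t + 1) (by omega)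
    rcases zst_cases hs (Nat.succ_pos T) t (by omega) with ⟨a1, a2, a3⟩ | ⟨a1, a2, a3⟩ |
      ⟨a1, a2, a3⟩
    · rw [if_pos a1]
      show S.W _ _ ≠ S.W _ _
      rw [a2, min_eq_left (Nat.le_succ _)]
      exact S.step_ne _ (by omega)
    · rw [if_pos a1]
      show S.W _ _ ≠ S.W _ _
      rw [a2, min_eq_right (Nat.le_succ _)]
      exact (S.step_ne _ (by omega)).symm
    · rw [if_neg (by omega)]
      show y _ ≠ y _
      intro h
      have := hy _ (by omega) _ (by omega) h
      omega
  inj := by
    intro t ht t' ht' h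
    by_cases h0 : zR (T + 1) s = 0
    · omega
    obtain ⟨h1, h2, h3⟩ := zst_spec hs (Nat.succ_pos T) t (by omega)
    obtain ⟨h1', h2', h3'⟩ := zst_spec hs (Nat.succ_pos T) t' (by omega)
    have hb := zst_bound hs (Nat.succ_pos T) t (by omega)
    have hb' := zst_bound hs (Nat.succ_pos T) t' (by omega)
    have e1 : y (zst (T + 1) t).1 = y (zst (T + 1) t').1 := congrFun h none
    have e2 : S.W (zst (T + 1) t).2 = S.W (zst (T + 1) t').2 := by
      funext i; exact congrFun h (some i)
    have e3 := hy _ h1 _ h1' e1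
    have e4 := S.inj _ (by omega) _ (by omega) e2
    rw [← h3, ← h3', e3, e4]
  line := by
    intro t ht t' ht' hι h
    obtain ⟨h1, h2, h3⟩ := zst_spec hs (Nat.succ_pos T) t (by omega)
    obtain ⟨h1', h2', h3'⟩ := zst_spec hs (Nat.succ_pos T) t' (by omega)
    have hb := zst_bound hs (Nat.succ_pos T) t (by omega)
    have hb' := zst_bound hs (Nat.succ_pos T) t' (by omega)
    have hc := zst_bound hs (Nat.succ_pos T) (t + 1) (by omega)
    have hc' := zst_bound hs (Nat.succ_pos T) (t' + 1) (by omega)
    have key : (zst (T + 1) t).1 = (zst (T + 1) t').1 → (zst (T + 1) t).2 = (zst (T + 1) t').2 →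
        t = t' := by
      intro e3 e4
      rw [← h3, ← h3', e3, e4]
    rcases zst_cases hs (Nat.succ_pos T) t (by omega) with ⟨a1, a2, a3⟩ | ⟨a1, a2, a3⟩ |
      ⟨a1, a2, a3, a4⟩
    · rw [if_pos a1] at hι h
      by_cases a1' : (zst (T + 1) (t' + 1)).1 = (zst (T + 1) t').1
      swap
      · rw [if_neg a1'] at hι; exact absurd hι (by simp)
      rw [if_pos a1'] at hι
      have hι' := Option.some.inj hι
      have e3 := hy _ h1 _ h1' (h none (by simp))
      rcases zst_cases hs (Nat.succ_pos T) t' (by omega) with ⟨b1, b2, b3⟩ | ⟨b1, b2, b3⟩ |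
        ⟨b1, b2, b3, b4⟩
      · rw [a2, b2, min_eq_left (Nat.le_succ _), min_eq_left (Nat.le_succ _)] at hι'
        refine key e3 (S.line _ (by omega) _ (by omega) hι' ?_)
        intro j hj
        refine h (some j) ?_
        rw [a2, min_eq_left (Nat.le_succ _)]
        exact fun h' => hj (Option.some.inj h')
      · omega
      · omega
    · rw [if_pos a1] at hι h
      by_cases a1' : (zst (T + 1) (t' + 1)).1 = (zst (T + 1) t').1
      swap
      · rw [if_neg a1'] at hι; exact absurd hι (by simp)
      rw [if_pos a1'] at hι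
      have hι' := Option.some.inj hι
      have e3 := hy _ h1 _ h1' (h none (by simp))
      rcases zst_cases hs (Nat.succ_pos T) t' (by omega) with ⟨b1, b2, b3⟩ | ⟨b1, b2, b3⟩ |
        ⟨b1, b2, b3, b4⟩
      · omega
      · rw [a2, b2, min_eq_right (Nat.le_succ _), min_eq_right (Nat.le_succ _)] at hι'
        refine key e3 ?_
        have := S.line _ (show (zst (T + 1) (t + 1)).2 < T by omega) _
          (show (zst (T + 1) (t' + 1)).2 < T by omega) hι' ?_
        · omega
        intro j hj
        have h5 : S.W (zst (T + 1) t).2 j = S.W (zst (T + 1) t').2 j := by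
          refine h (some j) ?_
          rw [a2, min_eq_right (Nat.le_succ _)]
          exact fun h' => hj (Option.some.inj h')
        rw [a2, b2, S.step _ (by omega) j hj, S.step _ (by omega) j (by rw [← hι']; exact hj)]
          at h5
        exact h5
      · omega
    · rw [if_neg (by omega)] at hι h
      by_cases a1' : (zst (T + 1) (t' + 1)).1 = (zst (T + 1) t').1
      · rw [if_pos a1'] at hι; exact absurd hι (by simp)
      have e2 : S.W (zst (T + 1) t).2 = S.W (zst (T + 1) t').2 := by
        funext i; exact h (some i) (by simp)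
      have e4 := S.inj _ (by omega) _ (by omega) e2
      rcases zst_cases hs (Nat.succ_pos T) t' (by omega) with ⟨b1, b2, b3⟩ | ⟨b1, b2, b3⟩ |
        ⟨b1, b2, b3, b4⟩
      · omega
      · omega
      · refine key ?_ e4
        omega

theorem zR_ge {N s : ℕ} (hs : s ≤ N) : s * N ≤ 2 * zR N s := by
  have key : ∀ k ≤ N, 2 * zR N k + k * k = 2 * k * N + k := by
    intro k
    induction k with
    | zero => intro _; simp [zR]
    | succ k ih =>
      intro hk
      have h1 := ih (by omega)
      show 2 * (zR N k + (N - k)) + (k + 1) * (k + 1) = 2 * (k + 1) * N + (k + 1)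
      obtain ⟨d, rfl⟩ : ∃ d, N = k + d := ⟨N - k, by omega⟩
      have : k + d - k = d := by omega
      rw [this]
      nlinarith
  have := key s hs
  nlinarith

end Pool.Agent.helper12.Go
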