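import Pool.Agent.helper12.GoBasic

set_option autoImplicit false

namespace Pool.Agent.helper12.Go

open Relation

section upper

variable {V : Type} [Finite V] {G : SimpleGraph V}

theorem legal_finite : {P : Position V | Legal G P}.Finite := Set.toFinite _

theorem nodup_le {l : List (Position V)} (h : l.Nodup) (hl : ∀ S ∈ l, Legal G S) :
    l.length ≤ {P : Position V | Legal G P}.ncard := by
  classical
  rw [← List.toFinset_card_of_nodup h, ← Set.ncard_coe_finset]
  refine Set.ncard_le_ncard ?_ legal_finite
  intro S hS
  simp only [List.coe_toFinset, Set.mem_setOf_eq] at hS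
  exact hl S hS

theorem plays_length (g : List (Option V)) : ∀ (hist : List (Position V)) (P : Position V)
    (c passed : Bool), PlaysOut G hist P c passed g → (P :: hist).Nodup →
    (∀ S ∈ P :: hist, Legal G S) →
    g.length + 2 * (hist.length + 1) ≤
      2 * {P : Position V | Legal G P}.ncard + (if passed then 1 else 2) := by
  induction g with
  | nil =>
    intro hist P c passed h _ _
    exact h.elim
  | cons m g ih =>
    intro hist P c passed h hnd hl
    have h0 := nodup_le hnd hl
    rw [List.length_cons] at h0
    rcases m with _ | v
    · cases passed with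
      | false =>
        have h1 := ih hist P (!c) true h hnd hl
        simp only [if_true] at h1
        simp only [List.length_cons, Bool.false_eq_true, if_false]
        omega
      | true =>
        have h1 : g = [] := h
        subst h1
        simp only [List.length_cons, List.length_nil, if_true]
        omega
    · have h1 : P v = none ∧ place G P c v ∉ P :: hist ∧
          PlaysOut G (P :: hist) (place G P c v) (!c) false g := by
        cases passed <;> exact h
      have hnd' : (place G P c v :: P :: hist).Nodup := List.nodup_cons.2 ⟨h1.2.1, hnd⟩
      have hl' : ∀ S ∈ place G P c v :: P :: hist, Legal G S := by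
        intro S hS
        rcases List.mem_cons.1 hS with rfl | hS
        · exact place_legal _ _ _
        · exact hl S hS
      have h2 := ih _ _ _ _ h1.2.2 hnd' hl'
      simp only [List.length_cons, Bool.false_eq_true, if_false] at h2 ⊢
      split_ifs <;> omega

theorem plays_length' {g : List (Option V)} {c : Bool}
    (h : PlaysOut G [] (fun _ => none) c false g) :
    g.length ≤ 2 * {P : Position V | Legal G P}.ncard := by
  have := plays_length g [] (fun _ => none) c false h (by simp) (by
    intro S hS
    rw [List.mem_singleton.1 hS]
    intro v hv
    exact absurd rfl hv)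
  simp only [List.length_nil, Bool.false_eq_true, if_false] at this
  omega

end upper

/-- padding a list to a function -/
def padL {α : Type} (m : ℕ) (g : List α) : Fin m → Option α := fun i => g[i.val]?

theorem padL_injOn {α : Type} (m : ℕ) : Set.InjOn (padL m) {g : List α | g.length ≤ m} := by
  intro g hg g' hg' h
  apply List.ext_getElem?
  intro i
  by_cases hi : i < m
  · exact congrFun h ⟨i, hi⟩
  · simp only [Set.mem_setOf_eq] at hg hg'
    rw [List.getElem?_eq_none (by omega), List.getElem?_eq_none (by omega)]

theorem lists_finite {α : Type} [Finite α] (m : ℕ) : {g : List α | g.length ≤ m}.Finite :=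
  Set.Finite.of_injOn (f := padL m) (t := Set.univ) (fun _ _ => Set.mem_univ _)
    (padL_injOn m) (Set.toFinite _)

theorem lists_card {α : Type} [Fintype α] (m : ℕ) :
    {g : List α | g.length ≤ m}.ncard ≤ (Fintype.card α + 1) ^ m := by
  have h := Set.ncard_le_ncard_of_injOn (s := {g : List α | g.length ≤ m})
    (t := (Set.univ : Set (Fin m → Option α))) (padL m) (fun _ _ => Set.mem_univ _)
    (padL_injOn m) (Set.toFinite _)
  rw [Set.ncard_univ, Nat.card_eq_fintype_card] at h
  simpa using h

theorem games_finite (n : ℕ) : {g | IsGame n g}.Finite :=
  (lists_finite _).subset (fun _ hg => plays_length' hg)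

/-- The upper bound for the number of games. -/
theorem gameCount_le (n : ℕ) : gameCount n ≤ (n ^ 2 + 2) ^ (2 * legalCount n) := by
  have h1 : gameCount n ≤ {g : List (Option (Fin n × Fin n)) |
      g.length ≤ 2 * legalCount n}.ncard :=
    Set.ncard_le_ncard (fun _ hg => plays_length' hg) (lists_finite _)
  refine h1.trans ((lists_card _).trans (le_of_eq ?_))
  congr 1
  simp
  ring

theorem legalCount_pos (n : ℕ) : 1 ≤ legalCount n := by
  have h : {P | Legal (board n) P}.Nonempty := ⟨fun _ => none, fun v hv => absurd rfl hv⟩
  exact (Set.ncard_pos legal_finite).2 h

end Pool.Agent.helper12.Go
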